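import Mathlib

/-!
# Neighbourhoods and edge counts of vertex sets

`Nb G Y` : the vertices outside `Y` with a neighbour in `Y`.
`EAt G Y` : the edges with at least one end in `Y`; `rho G Y` their number.
`EBet G X Y` : the edges with one end in `X` and the other in `Y`.
`fden G Y = rho G Y - 2 |Y|` (an integer).
-/

set_option autoImplicit false

namespace Pool.Agent.Helper57.TOK

open SimpleGraph

variable {V : Type*}

/-- Neighbourhood of a vertex set. -/
def Nb (G : SimpleGraph V) (Y : Set V) : Set V := {v | v ∉ Y ∧ ∃ u ∈ Y, G.Adj u v}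

/-- Edges with at least one end in `Y`. -/
def EAt (G : SimpleGraph V) (Y : Set V) : Set (Sym2 V) := {e | e ∈ G.edgeSet ∧ ∃ u ∈ Y, u ∈ e}

/-- Edges between `X` and `Y`. -/
def EBet (G : SimpleGraph V) (X Y : Set V) : Set (Sym2 V) :=
  {e | ∃ x ∈ X, ∃ y ∈ Y, G.Adj x y ∧ e = s(x, y)}

/-- Number of edges meeting `Y`. -/
noncomputable def rho (G : SimpleGraph V) (Y : Set V) : ℕ := (EAt G Y).ncard

/-- `rho Y - 2 |Y|`. -/
noncomputable def fden (G : SimpleGraph V) (Y : Set V) : ℤ := (rho G Y : ℤ) - 2 * (Y.ncard : ℤ)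

lemma mem_Nb {G : SimpleGraph V} {Y : Set V} {v : V} : v ∈ Nb G Y ↔ v ∉ Y ∧ ∃ u ∈ Y, G.Adj u v :=
  Iff.rfl

lemma mem_EAt {G : SimpleGraph V} {Y : Set V} {u v : V} :
    s(u, v) ∈ EAt G Y ↔ G.Adj u v ∧ (u ∈ Y ∨ v ∈ Y) := by
  constructor
  · rintro ⟨h1, w, hw, hw'⟩
    refine ⟨by simpa using h1, ?_⟩
    rw [Sym2.mem_iff] at hw'
    rcases hw' with h | h
    · left; rwa [← h]
    · right; rwa [← h]
  · rintro ⟨h1, h2⟩
    refine ⟨by simpa using h1, ?_⟩
    rcases h2 with h | h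
    · exact ⟨u, h, Sym2.mem_mk_left u v⟩
    · exact ⟨v, h, Sym2.mem_mk_right u v⟩

lemma mem_EBet {G : SimpleGraph V} {X Y : Set V} {u v : V} :
    s(u, v) ∈ EBet G X Y ↔ G.Adj u v ∧ ((u ∈ X ∧ v ∈ Y) ∨ (v ∈ X ∧ u ∈ Y)) := by
  constructor
  · rintro ⟨x, hx, y, hy, h, he⟩
    rw [Sym2.eq_iff] at he
    rcases he with ⟨h1, h2⟩ | ⟨h1, h2⟩
    · rw [h1, h2]; exact ⟨h, Or.inl ⟨hx, hy⟩⟩
    · rw [h1, h2]; exact ⟨h.symm, Or.inr ⟨hx, hy⟩⟩
  · rintro ⟨h, h1 | h1⟩
    · exact ⟨u, h1.1, v, h1.2, h, rfl⟩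
    · exact ⟨v, h1.1, u, h1.2, h.symm, Sym2.eq_swap⟩

lemma EBet_comm (G : SimpleGraph V) (X Y : Set V) : EBet G X Y = EBet G Y X := by
  ext e
  induction e using Sym2.ind with
  | _ u v =>
    rw [mem_EBet, mem_EBet]
    tauto

/-- Submodularity of the number of neighbours. -/
theorem ncard_Nb_submodular [Finite V] (G : SimpleGraph V) (A B : Set V) :
    (Nb G (A ∪ B)).ncard + (Nb G (A ∩ B)).ncard ≤ (Nb G A).ncard + (Nb G B).ncard := by
  rw [← Set.ncard_union_add_ncard_inter (Nb G (A ∪ B)) (Nb G (A ∩ B)),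
    ← Set.ncard_union_add_ncard_inter (Nb G A) (Nb G B)]
  apply add_le_add
  · apply Set.ncard_le_ncard _ (Set.toFinite _)
    rintro v (⟨h1, u, hu, h⟩ | ⟨h1, u, hu, h⟩)
    · rcases hu with hu | hu
      · left; exact ⟨fun hv => h1 (Or.inl hv), u, hu, h⟩
      · right; exact ⟨fun hv => h1 (Or.inr hv), u, hu, h⟩
    · by_cases hv : v ∈ A
      · right; exact ⟨fun hv' => h1 ⟨hv, hv'⟩, u, hu.2, h⟩
      · left; exact ⟨hv, u, hu.1, h⟩
  · apply Set.ncard_le_ncard _ (Set.toFinite _)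
    rintro v ⟨⟨h1, -⟩, ⟨-, u, hu, h⟩⟩
    exact ⟨⟨fun hv => h1 (Or.inl hv), u, hu.1, h⟩, ⟨fun hv => h1 (Or.inr hv), u, hu.2, h⟩⟩

lemma EAt_union (G : SimpleGraph V) (A B : Set V) : EAt G (A ∪ B) = EAt G A ∪ EAt G B := by
  ext e
  induction e using Sym2.ind with
  | _ u v =>
    simp only [Set.mem_union, mem_EAt]
    tauto

lemma EAt_inter (G : SimpleGraph V) (A B : Set V) :
    EAt G A ∩ EAt G B = EAt G (A ∩ B) ∪ EBet G (A \ B) (B \ A) := by
  ext e
  induction e using Sym2.ind with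
  | _ u v =>
    simp only [Set.mem_inter_iff, Set.mem_union, mem_EAt, mem_EBet, Set.mem_sdiff]
    tauto

lemma disjoint_EAt_EBet (G : SimpleGraph V) (A B : Set V) :
    Disjoint (EAt G (A ∩ B)) (EBet G (A \ B) (B \ A)) := by
  rw [Set.disjoint_left]
  intro e
  induction e using Sym2.ind with
  | _ u v =>
    simp only [Set.mem_inter_iff, mem_EAt, mem_EBet, Set.mem_sdiff]
    tauto

/-- Exact modular identity for `rho`. -/
theorem rho_modular [Finite V] (G : SimpleGraph V) (A B : Set V) :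
    rho G A + rho G B = rho G (A ∪ B) + rho G (A ∩ B) + (EBet G (A \ B) (B \ A)).ncard := by
  unfold rho
  rw [← Set.ncard_union_add_ncard_inter (EAt G A) (EAt G B), ← EAt_union, EAt_inter,
    Set.ncard_union_eq (disjoint_EAt_EBet G A B) (Set.toFinite _) (Set.toFinite _), add_assoc]

/-- Exact modular identity for `fden`. -/
theorem fden_modular [Finite V] (G : SimpleGraph V) (A B : Set V) :
    fden G A + fden G B =
      fden G (A ∪ B) + fden G (A ∩ B) + ((EBet G (A \ B) (B \ A)).ncard : ℤ) := by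
  have h1 := rho_modular G A B
  have h2 := Set.ncard_union_add_ncard_inter A B
  unfold fden
  zify at h1 h2
  linarith

theorem fden_submodular [Finite V] (G : SimpleGraph V) (A B : Set V) :
    fden G (A ∪ B) + fden G (A ∩ B) ≤ fden G A + fden G B := by
  have h := fden_modular G A B
  have : (0 : ℤ) ≤ ((EBet G (A \ B) (B \ A)).ncard : ℤ) := Int.natCast_nonneg _
  linarith

lemma EAt_empty (G : SimpleGraph V) : EAt G ∅ = ∅ := by
  ext e; simp [EAt]

@[simp] lemma rho_empty (G : SimpleGraph V) : rho G ∅ = 0 := by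
  unfold rho; rw [EAt_empty]; simp

@[simp] lemma fden_empty (G : SimpleGraph V) : fden G ∅ = 0 := by
  unfold fden; simp

@[simp] lemma Nb_empty (G : SimpleGraph V) : Nb G ∅ = ∅ := by
  ext v; simp [Nb]

/-- disjoint union -/
theorem rho_union_of_disjoint [Finite V] (G : SimpleGraph V) {A B : Set V} (h : Disjoint A B) :
    rho G A + rho G B = rho G (A ∪ B) + (EBet G A B).ncard := by
  have h1 := rho_modular G A B
  rw [h.inter_eq, rho_empty, h.sdiff_eq_left, h.sdiff_eq_right] at h1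
  omega

theorem fden_union_of_disjoint [Finite V] (G : SimpleGraph V) {A B : Set V} (h : Disjoint A B) :
    fden G A + fden G B = fden G (A ∪ B) + ((EBet G A B).ncard : ℤ) := by
  have h1 := rho_union_of_disjoint G h
  have h2 := Set.ncard_union_eq h (Set.toFinite _) (Set.toFinite _)
  unfold fden
  zify at h1 h2
  linarith

lemma rho_mono [Finite V] (G : SimpleGraph V) {A B : Set V} (h : A ⊆ B) : rho G A ≤ rho G B := by
  apply Set.ncard_le_ncard _ (Set.toFinite _)
  rintro e ⟨h1, u, hu, hue⟩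
  exact ⟨h1, u, h hu, hue⟩

lemma rho_mono_graph [Finite V] {G H : SimpleGraph V} (h : G ≤ H) (Y : Set V) :
    rho G Y ≤ rho H Y := by
  apply Set.ncard_le_ncard _ (Set.toFinite _)
  rintro e ⟨h1, h2⟩
  exact ⟨SimpleGraph.edgeSet_mono h h1, h2⟩

lemma Nb_mono_graph {G H : SimpleGraph V} (h : G ≤ H) (Y : Set V) : Nb G Y ⊆ Nb H Y := by
  rintro v ⟨h1, u, hu, h2⟩
  exact ⟨h1, u, hu, h h2⟩

/-- edges between one vertex and a set -/
lemma ncard_EBet_singleton (G : SimpleGraph V) (y : V) (B : Set V) :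
    (EBet G {y} B).ncard = (G.neighborSet y ∩ B).ncard := by
  have : EBet G {y} B = (fun w => s(y, w)) '' (G.neighborSet y ∩ B) := by
    ext e
    constructor
    · rintro ⟨x, hx, w, hw, h, rfl⟩
      rw [Set.mem_singleton_iff] at hx
      subst hx
      exact ⟨w, ⟨h, hw⟩, rfl⟩
    · rintro ⟨w, ⟨h, hw⟩, rfl⟩
      exact ⟨y, rfl, w, hw, h, rfl⟩
  rw [this]
  apply Set.ncard_image_of_injective
  intro w w' h
  have h' : s(y, w) = s(y, w') := h
  rwa [Sym2.congr_right] at h'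

/-- `rho` of one vertex is its degree -/
lemma rho_singleton (G : SimpleGraph V) (y : V) : rho G {y} = (G.neighborSet y).ncard := by
  have h := ncard_EBet_singleton G y Set.univ
  rw [Set.inter_univ] at h
  rw [← h]
  unfold rho
  congr 1
  ext e
  induction e using Sym2.ind with
  | _ u v =>
    rw [mem_EAt, mem_EBet]
    simp only [Set.mem_singleton_iff, Set.mem_univ, and_true]

/-- adding one vertex -/
lemma rho_insert [Finite V] (G : SimpleGraph V) {y : V} {Y : Set V} (hy : y ∉ Y) :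
    rho G (insert y Y) = rho G Y + (G.neighborSet y \ Y).ncard := by
  have hd : Disjoint ({y} : Set V) Y := Set.disjoint_singleton_left.2 hy
  have h := rho_union_of_disjoint G hd
  rw [ncard_EBet_singleton, rho_singleton] at h
  have h2 := Set.ncard_inter_add_ncard_sdiff_eq_ncard (G.neighborSet y) Y (Set.toFinite _)
  rw [Set.insert_eq]
  omega

lemma fden_insert [Finite V] (G : SimpleGraph V) {y : V} {Y : Set V} (hy : y ∉ Y) :
    fden G (insert y Y) = fden G Y + ((G.neighborSet y \ Y).ncard : ℤ) - 2 := by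
  unfold fden
  rw [rho_insert G hy, Set.ncard_insert_of_notMem hy (Set.toFinite _)]
  push_cast
  ring

/-- total number of edges -/
lemma rho_univ (G : SimpleGraph V) : rho G Set.univ = G.edgeSet.ncard := by
  unfold rho
  congr 1
  ext e
  induction e using Sym2.ind with
  | _ u v => simp [mem_EAt]

/-- Deleting one edge: the count. -/
lemma rho_deleteEdge_of_mem [Finite V] (G : SimpleGraph V) {e : Sym2 V} {Y : Set V}
    (he : e ∈ EAt G Y) : rho (G.deleteEdges {e}) Y + 1 = rho G Y := by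
  unfold rho
  have : EAt (G.deleteEdges {e}) Y = EAt G Y \ {e} := by
    ext e'
    simp only [EAt, SimpleGraph.edgeSet_deleteEdges, Set.mem_sdiff, Set.mem_singleton_iff]
    constructor
    · rintro ⟨⟨h1, h2⟩, h3⟩; exact ⟨⟨h1, h3⟩, h2⟩
    · rintro ⟨⟨h1, h3⟩, h2⟩; exact ⟨⟨h1, h2⟩, h3⟩
  rw [this]
  exact Set.ncard_sdiff_singleton_add_one he (Set.toFinite _)

lemma rho_deleteEdge_of_notMem [Finite V] (G : SimpleGraph V) {e : Sym2 V} {Y : Set V}
    (he : e ∉ EAt G Y) : rho (G.deleteEdges {e}) Y = rho G Y := by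
  unfold rho
  congr 1
  ext e'
  simp only [EAt, SimpleGraph.edgeSet_deleteEdges, Set.mem_sdiff, Set.mem_singleton_iff]
  constructor
  · rintro ⟨⟨h1, h2⟩, h3⟩; exact ⟨h1, h3⟩
  · rintro ⟨h1, h3⟩
    refine ⟨⟨h1, ?_⟩, h3⟩
    intro h
    subst h
    exact he ⟨h1, h3⟩

end Pool.Agent.Helper57.TOK
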