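import Pool.Agent.Helper57.TOK.FrameE

/-!
# Merging two vertices joined by a path of weight zero

`mergeG G p q` identifies `q` with `p` (on the same vertex type, `q` becomes isolated).
If `G` has a path `p - q` of weight zero whose interior is not used by the merged graph, a TOK4 of
the merged graph lifts. Special cases: contraction of an even edge, and the fold.
-/

set_option autoImplicit false

namespace Pool.Agent.Helper57.TOK

open SimpleGraph

variable {V W : Type*}

/-- Splitting one vertex `q` of `K` into `p` and `b`, joined by a walk `R0` of weight zero. -/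
theorem HasTOK4s.splitWalk {K G : SimpleGraph V} {cK cG : Sym2 V → ZMod 2} {q p b s0 : V}
    (R0 : G.Walk p b) (hR0 : R0.IsPath) (hpb : p ≠ b) (hw : wt cG R0 = 0)
    (hR0K : ∀ z ∈ R0.support, z = p ∨ z = b ∨ z ∉ supp K)
    (hR0s : K.Adj q s0 → s0 ∉ R0.support)
    (hbK : b ∉ supp K ∨ b = q) (hpK : p ∉ supp K ∨ p = q)
    (hout : ∀ u w, K.Adj u w → u ≠ q → w ≠ q → G.Adj u w ∧ cG s(u, w) = cK s(u, w))
    (hq : ∀ w, K.Adj q w → w ≠ s0 → G.Adj p w ∧ cG s(p, w) = cK s(q, w))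
    (hs : K.Adj q s0 → (G.Adj p s0 ∧ cG s(p, s0) = cK s(q, s0)) ∨
      (G.Adj b s0 ∧ cG s(b, s0) = cK s(q, s0)))
    (hK : HasTOK4s K cK) : HasTOK4s G cG := by
  classical
  let φ : V → V := fun x => if x = q then p else x
  have hφq : φ q = p := if_pos rfl
  have hφn : ∀ x, x ≠ q → φ x = x := fun x hx => if_neg hx
  have himb : b ∉ φ '' supp K := by
    rintro ⟨z, hz, hzy⟩
    by_cases h : z = q
    · subst h; rw [hφq] at hzy; exact hpb hzy
    · rw [hφn z h] at hzy
      rcases hbK with h1 | h1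
      · exact h1 (hzy ▸ hz)
      · exact h (hzy.trans h1)
  have himz : ∀ z, z ∉ supp K → z ≠ p → z ∉ φ '' supp K := by
    rintro z hz hzp ⟨w, hw, hwz⟩
    by_cases h : w = q
    · subst h; rw [hφq] at hwz; exact hzp hwz.symm
    · rw [hφn w h] at hwz; exact hz (hwz ▸ hw)
  -- walks at q
  have hwq : ∀ w, K.Adj q w → ∃ R : G.Walk p w, R.IsPath ∧ wt cG R = cK s(q, w) ∧
      ∀ x ∈ R.support, x = p ∨ x = w ∨ (s(q, s0) = s(q, w) ∧ x ∉ φ '' supp K) := by
    intro w hqw
    by_cases h : G.Adj p w ∧ cG s(p, w) = cK s(q, w)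
    · obtain ⟨R, h1, h2, h3⟩ := exists_edge_walk cG h.1
      refine ⟨R, h1, h2.trans h.2, ?_⟩
      intro x hx
      rw [h3] at hx
      simp only [List.mem_cons, List.not_mem_nil, or_false] at hx
      rcases hx with hx | hx
      · exact Or.inl hx
      · exact Or.inr (Or.inl hx)
    · have hws : w = s0 := by
        by_contra hne
        exact h (hq w hqw hne)
      subst hws
      rcases hs hqw with h' | h'
      · exact absurd h' h
      · refine ⟨R0.append (Walk.cons h'.1 Walk.nil), ?_, ?_, ?_⟩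
        · refine isPath_append_of _ _ hR0 ?_ ?_
          · rw [Walk.cons_isPath_iff]
            exact ⟨Walk.IsPath.nil, by simpa using h'.1.ne⟩
          · intro x hx hx'
            simp only [Walk.support_cons, Walk.support_nil, List.mem_cons, List.not_mem_nil,
              or_false] at hx'
            rcases hx' with hx' | hx'
            · exact hx'
            · exact absurd (hx' ▸ hx) (hR0s hqw)
        · rw [wt_append, hw, zero_add, wt_cons, wt_nil, add_zero, h'.2]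
        · intro x hx
          rw [Walk.mem_support_append_iff] at hx
          simp only [Walk.support_cons, Walk.support_nil, List.mem_cons, List.not_mem_nil,
            or_false] at hx
          by_cases hxp : x = p
          · exact Or.inl hxp
          · by_cases hxw : x = w
            · exact Or.inr (Or.inl hxw)
            · right; right
              refine ⟨rfl, ?_⟩
              have hxR : x ∈ R0.support := by
                rcases hx with hx | hx | hx
                · exact hx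
                · rw [hx]; exact R0.end_mem_support
                · exact absurd hx hxw
              rcases hR0K x hxR with h4 | h4 | h4
              · exact absurd h4 hxp
              · rw [h4]; exact himb
              · exact himz x h4 hxp
  refine HasTOK4s.subst (cK := cK) φ (fun _ => s(q, s0)) ?_ ?_ hK
  · intro x hx x' hx' hxx
    by_cases h : x = q
    · by_cases h' : x' = q
      · rw [h, h']
      · rw [h, hφq, hφn x' h'] at hxx
        rcases hpK with h1 | h1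
        · exact absurd hx' (hxx ▸ h1)
        · exact absurd (hxx.symm.trans h1) h'
    · by_cases h' : x' = q
      · rw [h', hφq, hφn x h] at hxx
        rcases hpK with h1 | h1
        · exact absurd hx (hxx ▸ h1)
        · exact absurd (hxx.trans h1) h
      · rw [hφn x h, hφn x' h'] at hxx; exact hxx
  · intro u w huw
    by_cases hu : u = q
    · subst hu
      have hw' : w ≠ u := huw.ne.symm
      obtain ⟨R, h1, h2, h3⟩ := hwq w huw
      refine ⟨R.copy hφq.symm (hφn w hw').symm, ?_, ?_, ?_⟩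
      · simpa using h1
      · rw [wt_copy]; exact h2
      · intro x hx
        rw [Walk.support_copy] at hx
        rw [hφq, hφn w hw']
        exact h3 x hx
    · by_cases hw' : w = q
      · subst hw'
        obtain ⟨R, h1, h2, h3⟩ := hwq u huw.symm
        refine ⟨R.reverse.copy (hφn u hu).symm hφq.symm, ?_, ?_, ?_⟩
        · simpa using h1
        · rw [wt_copy, wt_reverse, h2, Sym2.eq_swap]
        · intro x hx
          rw [Walk.support_copy, Walk.support_reverse, List.mem_reverse] at hx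
          rw [hφq, hφn u hu]
          rcases h3 x hx with h4 | h4 | ⟨h4, h5⟩
          · exact Or.inr (Or.inl h4)
          · exact Or.inl h4
          · exact Or.inr (Or.inr ⟨h4.trans Sym2.eq_swap, h5⟩)
      · obtain ⟨h1, h2⟩ := hout u w huw hu hw'
        obtain ⟨R, h3, h4, h5⟩ := exists_edge_walk cG h1
        refine ⟨R.copy (hφn u hu).symm (hφn w hw').symm, ?_, ?_, ?_⟩
        · simpa using h3
        · rw [wt_copy]; exact h4.trans h2
        · intro x hx
          rw [Walk.support_copy, h5] at hx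
          rw [hφn u hu, hφn w hw']
          simp only [List.mem_cons, List.not_mem_nil, or_false] at hx
          rcases hx with hx | hx
          · exact Or.inl hx
          · exact Or.inr (Or.inl hx)

/-- Identify `q` with `p`. -/
def mergeG (G : SimpleGraph V) (p q : V) : SimpleGraph V where
  Adj u w := u ≠ w ∧ u ≠ q ∧ w ≠ q ∧ (G.Adj u w ∨ (u = p ∧ G.Adj q w) ∨ (w = p ∧ G.Adj q u))
  symm := ⟨by
    rintro u w ⟨h1, h2, h3, h4⟩
    refine ⟨h1.symm, h3, h2, ?_⟩
    rcases h4 with h4 | h4 | h4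
    · exact Or.inl h4.symm
    · exact Or.inr (Or.inr h4)
    · exact Or.inr (Or.inl h4)⟩
  loopless := ⟨fun _ h => h.1 rfl⟩

lemma mergeG_adj {G : SimpleGraph V} {p q u w : V} : (mergeG G p q).Adj u w ↔
    u ≠ w ∧ u ≠ q ∧ w ≠ q ∧ (G.Adj u w ∨ (u = p ∧ G.Adj q w) ∨ (w = p ∧ G.Adj q u)) := Iff.rfl

/-- MERGE LEMMA with labels: `K ≤ mergeG G p q`, and `p`, `q` are joined in `G` by a path of
weight zero which avoids the support of `K` apart from its ends. -/
theorem HasTOK4s.of_merge {G K0 : SimpleGraph V} {c c' : Sym2 V → ZMod 2} {p q : V}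
    (R0 : G.Walk p q) (hR0 : R0.IsPath) (hpq : p ≠ q) (hw : wt c R0 = 0)
    (hK0 : K0 ≤ mergeG G p q)
    (hR0K : ∀ z ∈ R0.support, z = p ∨ z = q ∨ z ∉ supp K0)
    (h1 : ∀ w, K0.Adj p w → G.Adj p w → c' s(p, w) = c s(p, w))
    (h2 : ∀ w, K0.Adj p w → ¬ G.Adj p w → G.Adj q w → c' s(p, w) = c s(q, w))
    (h3 : ∀ u w, K0.Adj u w → u ≠ p → w ≠ p → G.Adj u w → c' s(u, w) = c s(u, w))
    (hK : HasTOK4s K0 c') : HasTOK4s G c := by
  classical
  obtain ⟨K, hKle, hK, hdeg⟩ := hK.exists_deg3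
  have hsupp : ∀ z, z ∈ supp K → z ∈ supp K0 := fun z ⟨w, hw⟩ => ⟨w, hKle hw⟩
  have hqK : q ∉ supp K := fun ⟨w, hw⟩ => (mergeG_adj.1 (hK0 (hKle hw))).2.1 rfl
  have hKp : ∀ w, K.Adj p w → w ≠ q ∧ w ≠ p ∧ (G.Adj p w ∨ G.Adj q w) := by
    intro w hw'
    obtain ⟨g1, g2, g3, g4⟩ := mergeG_adj.1 (hK0 (hKle hw'))
    refine ⟨g3, g1.symm, ?_⟩
    rcases g4 with g4 | g4 | g4
    · exact Or.inl g4
    · exact Or.inr g4.2
    · exact absurd g4.1.symm g1
  have hout : ∀ u w, K.Adj u w → u ≠ p → w ≠ p → G.Adj u w ∧ c s(u, w) = c' s(u, w) := by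
    intro u w huw hu hw'
    obtain ⟨g1, g2, g3, g4⟩ := mergeG_adj.1 (hK0 (hKle huw))
    have : G.Adj u w := by
      rcases g4 with g4 | g4 | g4
      · exact g4
      · exact absurd g4.1 hu
      · exact absurd g4.1 hw'
    exact ⟨this, (h3 u w (hKle huw) hu hw' this).symm⟩
  have hdich : (∃ s0, ∀ w, K.Adj p w → ¬ G.Adj p w → w = s0) ∨
      (∃ s0, ∀ w, K.Adj p w → G.Adj p w → w = s0) := by
    by_contra hcon
    push Not at hcon
    obtain ⟨hc1, hc2⟩ := hcon
    obtain ⟨w1, hw1, hw1', -⟩ := hc1 p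
    obtain ⟨w2, hw2, hw2', hne12⟩ := hc1 w1
    obtain ⟨w3, hw3, hw3', -⟩ := hc2 p
    obtain ⟨w4, hw4, hw4', hne34⟩ := hc2 w3
    have hsub : (({w1, w2, w3, w4} : Finset V) : Set V) ⊆ K.neighborSet p := by
      intro x hx
      simp only [Finset.coe_insert, Finset.coe_singleton, Set.mem_insert_iff,
        Set.mem_singleton_iff] at hx
      rcases hx with rfl | rfl | rfl | rfl
      · exact hw1
      · exact hw2
      · exact hw3
      · exact hw4
    have hcard : (({w1, w2, w3, w4} : Finset V)).card = 4 := by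
      have n13 : w1 ≠ w3 := fun h => hw1' (h ▸ hw3')
      have n14 : w1 ≠ w4 := fun h => hw1' (h ▸ hw4')
      have n23 : w2 ≠ w3 := fun h => hw2' (h ▸ hw3')
      have n24 : w2 ≠ w4 := fun h => hw2' (h ▸ hw4')
      rw [Finset.card_insert_of_notMem, Finset.card_insert_of_notMem,
        Finset.card_insert_of_notMem, Finset.card_singleton]
      · simpa using hne34.symm
      · simp [n23, n24]
      · simp [n13, n14, hne12.symm]
    have := Set.ncard_le_ncard hsub (hdeg p).1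
    rw [Set.ncard_coe_finset, hcard] at this
    exact absurd (this.trans (hdeg p).2) (by norm_num)
  have hint : ∀ z ∈ R0.support, z = p ∨ z = q ∨ z ∉ supp K := by
    intro z hz
    rcases hR0K z hz with h | h | h
    · exact Or.inl h
    · exact Or.inr (Or.inl h)
    · exact Or.inr (Or.inr (fun hh => h (hsupp z hh)))
  have hs0 : ∀ s, K.Adj p s → s ∉ R0.support := by
    intro s hs hmem
    obtain ⟨g1, g2, -⟩ := hKp s hs
    rcases hint s hmem with h | h | h
    · exact g2 h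
    · exact g1 h
    · exact h (mem_supp_right hs)
  rcases hdich with ⟨s0, hs⟩ | ⟨s0, hs⟩
  · refine HasTOK4s.splitWalk (q := p) (p := p) (b := q) (s0 := s0) (cK := c')
      R0 hR0 hpq hw hint (hs0 s0) (Or.inl hqK) (Or.inr rfl) hout ?_ ?_ hK
    · intro w hw1 hw2
      have hG : G.Adj p w := by
        by_contra h
        exact hw2 (hs w hw1 h)
      exact ⟨hG, (h1 w (hKle hw1) hG).symm⟩
    · intro hw1
      obtain ⟨g1, g2, g3⟩ := hKp s0 hw1
      by_cases hG : G.Adj p s0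
      · exact Or.inl ⟨hG, (h1 s0 (hKle hw1) hG).symm⟩
      · rcases g3 with g3 | g3
        · exact absurd g3 hG
        · exact Or.inr ⟨g3, (h2 s0 (hKle hw1) hG g3).symm⟩
  · refine HasTOK4s.splitWalk (q := p) (p := q) (b := p) (s0 := s0) (cK := c')
      R0.reverse hR0.reverse hpq.symm (by rw [wt_reverse]; exact hw) ?_ ?_
      (Or.inr rfl) (Or.inl hqK) hout ?_ ?_ hK
    · intro z hz
      rw [Walk.support_reverse, List.mem_reverse] at hz
      rcases hint z hz with h | h | h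
      · exact Or.inr (Or.inl h)
      · exact Or.inl h
      · exact Or.inr (Or.inr h)
    · intro hadj
      rw [Walk.support_reverse, List.mem_reverse]
      exact hs0 s0 hadj
    · intro w hw1 hw2
      have hG : ¬ G.Adj p w := fun h => hw2 (hs w hw1 h)
      obtain ⟨g1, g2, g3⟩ := hKp w hw1
      rcases g3 with g3 | g3
      · exact absurd g3 hG
      · exact ⟨g3, (h2 w (hKle hw1) hG g3).symm⟩
    · intro hw1
      obtain ⟨g1, g2, g3⟩ := hKp s0 hw1
      by_cases hG : G.Adj p s0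
      · exact Or.inr ⟨hG, (h1 s0 (hKle hw1) hG).symm⟩
      · rcases g3 with g3 | g3
        · exact absurd g3 hG
        · exact Or.inl ⟨g3, (h2 s0 (hKle hw1) hG g3).symm⟩

/-- MERGE for frames: `Z'` is a subgraph of the merged graph, `κ p = κ q`, and `p`, `q` are
joined in `Z` by a path whose interior is isolated in `Z'` and contains no terminal. -/
theorem FrameE.of_merge {Z Z' : SimpleGraph V} {κ : V → ZMod 2} {p q a b u v : V}
    (hle : Z' ≤ mergeG Z p q) (hab' : ¬ Z'.Adj a b) (huv' : ¬ Z'.Adj u v)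
    (hab : ¬ Z.Adj a b) (huv : ¬ Z.Adj u v) (hpq : p ≠ q) (hκ : κ p = κ q)
    (R0 : Z.Walk p q) (hR0 : R0.IsPath)
    (hR0K : ∀ z ∈ R0.support, z = p ∨ z = q ∨
      (z ∉ supp Z' ∧ z ≠ a ∧ z ≠ b ∧ z ≠ u ∧ z ≠ v))
    (hqa : q ≠ a) (hqb : q ≠ b) (hqu : q ≠ u) (hqv : q ≠ v)
    (hF : FrameE Z' κ a b u v) : FrameE Z κ a b u v := by
  classical
  unfold FrameE at hF ⊢
  have hleG := le_frameG Z a b u v
  have hc : ∀ e ∈ Z.edgeSet, cE Z κ e = klab κ e := fun e he => if_pos he
  -- labels on the frame of Z'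
  have hvirt : ∀ x w, (s(x, w) = s(a, b) ∨ s(x, w) = s(u, v)) → ¬ Z'.Adj x w ∧ ¬ Z.Adj x w := by
    rintro x w (h | h)
    · rw [Sym2.eq_iff] at h
      rcases h with ⟨rfl, rfl⟩ | ⟨rfl, rfl⟩
      · exact ⟨hab', hab⟩
      · exact ⟨fun hh => hab' hh.symm, fun hh => hab hh.symm⟩
    · rw [Sym2.eq_iff] at h
      rcases h with ⟨rfl, rfl⟩ | ⟨rfl, rfl⟩
      · exact ⟨huv', huv⟩
      · exact ⟨fun hh => huv' hh.symm, fun hh => huv hh.symm⟩
  have hqterm : ∀ w, (frameG Z a b u v).Adj q w → Z.Adj q w := by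
    intro w h
    rcases h.2 with h1 | h1 | h1
    · exact h1
    · rw [Sym2.eq_iff] at h1
      rcases h1 with ⟨h2, -⟩ | ⟨h2, -⟩
      · exact absurd h2 hqa
      · exact absurd h2 hqb
    · rw [Sym2.eq_iff] at h1
      rcases h1 with ⟨h2, -⟩ | ⟨h2, -⟩
      · exact absurd h2 hqu
      · exact absurd h2 hqv
  refine HasTOK4s.of_merge (G := frameG Z a b u v) (K0 := frameG Z' a b u v) (c' := cE Z' κ)
    (p := p) (q := q) (R0.mapLe hleG) ((Walk.isPath_mapLe hleG).2 hR0) hpq ?_ ?_ ?_ ?_ ?_ ?_ hF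
  · rw [wt_mapLe, wt_of_klab hc R0, hκ]; exact CharTwo.add_self_eq_zero _
  · rintro x w ⟨h1, h2⟩
    rw [mergeG_adj]
    rcases h2 with h2 | h2
    · obtain ⟨g1, g2, g3, g4⟩ := mergeG_adj.1 (hle h2)
      refine ⟨g1, g2, g3, ?_⟩
      rcases g4 with g4 | g4 | g4
      · exact Or.inl (hleG g4)
      · exact Or.inr (Or.inl ⟨g4.1, hleG g4.2⟩)
      · exact Or.inr (Or.inr ⟨g4.1, hleG g4.2⟩)
    · have hterm : ∀ z, z ∈ s(x, w) → z ≠ q := by
        intro z hz
        rcases h2 with h2 | h2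
        · rw [h2, Sym2.mem_iff] at hz
          rcases hz with hz | hz
          · rw [hz]; exact hqa.symm
          · rw [hz]; exact hqb.symm
        · rw [h2, Sym2.mem_iff] at hz
          rcases hz with hz | hz
          · rw [hz]; exact hqu.symm
          · rw [hz]; exact hqv.symm
      exact ⟨h1, hterm x (Sym2.mem_mk_left x w), hterm w (Sym2.mem_mk_right x w),
        Or.inl ⟨h1, Or.inr h2⟩⟩
  · intro z hz
    rw [Walk.support_mapLe_eq_support] at hz
    rcases hR0K z hz with h | h | ⟨h, ha, hb, hu, hv⟩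
    · exact Or.inl h
    · exact Or.inr (Or.inl h)
    · refine Or.inr (Or.inr ?_)
      intro hh
      rcases supp_frameG z hh with h1 | h1 | h1 | h1 | h1
      · exact h h1
      · exact ha h1
      · exact hb h1
      · exact hu h1
      · exact hv h1
  · intro w hw hG
    rcases hw.2 with h1 | h1
    · rw [cE_of_adj h1]
      by_cases hZ : Z.Adj p w
      · rw [cE_of_adj hZ]
      · exact absurd h1 (hvirt p w (hG.2.resolve_left hZ)).1
    · obtain ⟨g1, g2⟩ := hvirt p w h1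
      rw [cE_of_not_adj g1, cE_of_not_adj g2]
  · intro w hw hn hG
    have hZ := hqterm w hG
    rw [cE_of_adj hZ]
    rcases hw.2 with h1 | h1
    · rw [cE_of_adj h1, hκ]
    · exact absurd ⟨hw.1, Or.inr h1⟩ hn
  · intro x w hw _ _ hG
    rcases hw.2 with h1 | h1
    · rw [cE_of_adj h1]
      by_cases hZ : Z.Adj x w
      · rw [cE_of_adj hZ]
      · exact absurd h1 (hvirt x w (hG.2.resolve_left hZ)).1
    · obtain ⟨g1, g2⟩ := hvirt x w h1
      rw [cE_of_not_adj g1, cE_of_not_adj g2]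

/-- Contraction of an even edge. -/
theorem FrameE.of_contract {Z Z' : SimpleGraph V} {κ : V → ZMod 2} {p q a b u v : V}
    (hle : Z' ≤ mergeG Z p q) (hab' : ¬ Z'.Adj a b) (huv' : ¬ Z'.Adj u v)
    (hab : ¬ Z.Adj a b) (huv : ¬ Z.Adj u v) (hadj : Z.Adj p q) (hκ : κ p = κ q)
    (hqa : q ≠ a) (hqb : q ≠ b) (hqu : q ≠ u) (hqv : q ≠ v)
    (hF : FrameE Z' κ a b u v) : FrameE Z κ a b u v := by
  obtain ⟨R, hR, -, hRs⟩ := exists_edge_walk (fun _ => (1 : ZMod 2)) hadj
  refine FrameE.of_merge hle hab' huv' hab huv hadj.ne hκ R hR ?_ hqa hqb hqu hqv hF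
  intro z hz
  rw [hRs] at hz
  simp only [List.mem_cons, List.not_mem_nil, or_false] at hz
  rcases hz with hz | hz
  · exact Or.inl hz
  · exact Or.inr (Or.inl hz)

/-- Fold: `y` has neighbours `p`, `q` of the same colour. -/
theorem FrameE.of_fold {Z Z' : SimpleGraph V} {κ : V → ZMod 2} {y p q a b u v : V}
    (hle : Z' ≤ foldG Z y p q) (hab' : ¬ Z'.Adj a b) (huv' : ¬ Z'.Adj u v)
    (hab : ¬ Z.Adj a b) (huv : ¬ Z.Adj u v) (hpq : p ≠ q) (hyp : Z.Adj y p) (hyq : Z.Adj y q)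
    (hκ : κ p = κ q)
    (hya : y ≠ a) (hyb : y ≠ b) (hyu : y ≠ u) (hyv : y ≠ v)
    (hqa : q ≠ a) (hqb : q ≠ b) (hqu : q ≠ u) (hqv : q ≠ v)
    (hF : FrameE Z' κ a b u v) : FrameE Z κ a b u v := by
  have hyZ' : y ∉ supp Z' := fun ⟨w, hw⟩ => (foldG_adj.1 (hle hw)).2.1 rfl
  have hle' : Z' ≤ mergeG Z p q := by
    intro x w h
    obtain ⟨g1, g2, g3, g4, g5, g6⟩ := foldG_adj.1 (hle h)
    exact ⟨g1, g4, g5, g6⟩
  refine FrameE.of_merge hle' hab' huv' hab huv hpq hκ
    (Walk.cons hyp.symm (Walk.cons hyq Walk.nil)) ?_ ?_ hqa hqb hqu hqv hF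
  · rw [Walk.cons_isPath_iff, Walk.cons_isPath_iff]
    refine ⟨⟨Walk.IsPath.nil, by simpa using hyq.ne⟩, ?_⟩
    simp only [Walk.support_cons, Walk.support_nil, List.mem_cons, List.not_mem_nil, or_false]
    push Not
    exact ⟨hyp.ne.symm, hpq⟩
  · intro z hz
    simp only [Walk.support_cons, Walk.support_nil, List.mem_cons, List.not_mem_nil,
      or_false] at hz
    rcases hz with hz | hz | hz
    · exact Or.inl hz
    · refine Or.inr (Or.inr ?_)
      rw [hz]
      exact ⟨hyZ', hya, hyb, hyu, hyv⟩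
    · exact Or.inr (Or.inl hz)

/-- All coloured frames on a set of terminals (even edges allowed). -/
def AllFramesE (Z : SimpleGraph V) (κ : V → ZMod 2) (T : Set V) : Prop :=
  ∀ a ∈ T, ∀ b ∈ T, ∀ u ∈ T, ∀ v ∈ T, a ≠ b → a ≠ u → a ≠ v → b ≠ u → b ≠ v → u ≠ v →
    FrameE Z κ a b u v

theorem allFramesE_iff {Z : SimpleGraph V} {κ : V → ZMod 2} (hκ : Proper Z κ) {T : Set V} :
    AllFramesE Z κ T ↔ AllFrames Z κ T := by
  unfold AllFramesE AllFrames
  simp only [frameE_iff_frame hκ]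

theorem AllFramesE.mono {Z Z' : SimpleGraph V} {κ : V → ZMod 2} {T : Set V} (hle : Z' ≤ Z)
    (hTT : ∀ a ∈ T, ∀ b ∈ T, ¬ Z.Adj a b) (hF : AllFramesE Z' κ T) : AllFramesE Z κ T := by
  intro a ha b hb u hu v hv hab hau hav hbu hbv huv
  exact FrameE.mono hle (hTT a ha b hb) (hTT u hu v hv)
    (hF a ha b hb u hu v hv hab hau hav hbu hbv huv)

theorem AllFramesE.of_fold {Z Z' : SimpleGraph V} {κ : V → ZMod 2} {y p q : V} {T : Set V}
    (hle : Z' ≤ foldG Z y p q) (hTT' : ∀ a ∈ T, ∀ b ∈ T, ¬ Z'.Adj a b)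
    (hTT : ∀ a ∈ T, ∀ b ∈ T, ¬ Z.Adj a b) (hpq : p ≠ q) (hyp : Z.Adj y p) (hyq : Z.Adj y q)
    (hκ : κ p = κ q) (hyT : y ∉ T) (hqT : q ∉ T) (hF : AllFramesE Z' κ T) :
    AllFramesE Z κ T := by
  intro a ha b hb u hu v hv hab hau hav hbu hbv huv
  have hn : ∀ {x z : V}, x ∉ T → z ∈ T → x ≠ z := fun hx hz h => hx (h ▸ hz)
  exact FrameE.of_fold hle (hTT' a ha b hb) (hTT' u hu v hv) (hTT a ha b hb) (hTT u hu v hv)
    hpq hyp hyq hκ (hn hyT ha) (hn hyT hb) (hn hyT hu) (hn hyT hv)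
    (hn hqT ha) (hn hqT hb) (hn hqT hu) (hn hqT hv)
    (hF a ha b hb u hu v hv hab hau hav hbu hbv huv)

theorem AllFramesE.of_contract {Z Z' : SimpleGraph V} {κ : V → ZMod 2} {p q : V} {T : Set V}
    (hle : Z' ≤ mergeG Z p q) (hTT' : ∀ a ∈ T, ∀ b ∈ T, ¬ Z'.Adj a b)
    (hTT : ∀ a ∈ T, ∀ b ∈ T, ¬ Z.Adj a b) (hadj : Z.Adj p q)
    (hκ : κ p = κ q) (hqT : q ∉ T) (hF : AllFramesE Z' κ T) :
    AllFramesE Z κ T := by
  intro a ha b hb u hu v hv hab hau hav hbu hbv huv
  have hn : ∀ {x z : V}, x ∉ T → z ∈ T → x ≠ z := fun hx hz h => hx (h ▸ hz)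
  exact FrameE.of_contract hle (hTT' a ha b hb) (hTT' u hu v hv) (hTT a ha b hb) (hTT u hu v hv)
    hadj hκ (hn hqT ha) (hn hqT hb) (hn hqT hu) (hn hqT hv)
    (hF a ha b hb u hu v hv hab hau hav hbu hbv huv)

/-- All frames lift through topological substitution. -/
theorem AllFramesE.of_topo {Z' : SimpleGraph V} {Z : SimpleGraph W} {κ' : V → ZMod 2}
    {κ : W → ZMod 2} {T : Set V} (φ : V → W) (lab : W → Sym2 V)
    (hφ : Set.InjOn φ (supp Z' ∪ T))
    (hκ : ∀ x, κ (φ x) = κ' x)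
    (hR : ∀ x y, Z'.Adj x y → ∃ R : Z.Walk (φ x) (φ y), R.IsPath ∧
      ∀ z ∈ R.support, z = φ x ∨ z = φ y ∨ (lab z = s(x, y) ∧ z ∉ φ '' (supp Z' ∪ T)))
    (hTT' : ∀ a ∈ T, ∀ b ∈ T, ¬ Z'.Adj a b) (hTT : ∀ a ∈ T, ∀ b ∈ T, ¬ Z.Adj (φ a) (φ b))
    (hF : AllFramesE Z' κ' T) : AllFramesE Z κ (φ '' T) := by
  rintro _ ⟨a, ha, rfl⟩ _ ⟨b, hb, rfl⟩ _ ⟨u, hu, rfl⟩ _ ⟨v, hv, rfl⟩ hab hau hav hbu hbv huv
  have hsub : supp Z' ∪ {a, b, u, v} ⊆ supp Z' ∪ T := by
    apply Set.union_subset_union_right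
    intro x hx
    simp only [Set.mem_insert_iff, Set.mem_singleton_iff] at hx
    rcases hx with rfl | rfl | rfl | rfl <;> assumption
  have hne : ∀ {x y : V}, φ x ≠ φ y → x ≠ y := fun h h' => h (h' ▸ rfl)
  refine FrameE.of_topo φ lab (hφ.mono hsub) hκ ?_ (hTT' a ha b hb) (hTT' u hu v hv)
    (hTT a ha b hb) (hTT u hu v hv) hab huv
    (hF a ha b hb u hu v hv (hne hab) (hne hau) (hne hav) (hne hbu) (hne hbv) (hne huv))
  intro x y hxy
  obtain ⟨R, h1, h2⟩ := hR x y hxy
  refine ⟨R, h1, ?_⟩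
  intro z hz
  rcases h2 z hz with h | h | ⟨h, h'⟩
  · exact Or.inl h
  · exact Or.inr (Or.inl h)
  · exact Or.inr (Or.inr ⟨h, fun hh => h' (Set.image_mono hsub hh)⟩)

/-- All frames lift through a family of four disjoint paths. -/
theorem AllFramesE.of_linkage {Z Z' : SimpleGraph V} {κ : V → ZMod 2}
    {T T' : Set V} (hle : Z' ≤ Z) (hcard : T.ncard = 4)
    (hTT : ∀ a ∈ T, ∀ b ∈ T, ¬ Z.Adj a b) (hTT' : ∀ a ∈ T', ∀ b ∈ T', ¬ Z'.Adj a b)
    (s t : Fin 4 → V) (P : ∀ i, Z.Walk (s i) (t i)) (hs : ∀ i, s i ∈ T') (ht : ∀ i, t i ∈ T)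
    (hP : ∀ i, (P i).IsPath)
    (hd : ∀ i j, i ≠ j → ∀ x, x ∈ (P i).support → x ∉ (P j).support)
    (hZ : ∀ i, ∀ x ∈ (P i).support, x ∈ supp Z' → x = s i)
    (hF : AllFramesE Z' κ T') : AllFramesE Z κ T := by
  classical
  have hfin : T.Finite := Set.finite_of_ncard_ne_zero (by rw [hcard]; norm_num)
  have htinj : Function.Injective t := by
    intro i j hij
    by_contra hne
    refine hd i j hne (t i) (P i).end_mem_support ?_
    rw [hij]; exact (P j).end_mem_support
  have hsinj : Function.Injective s := by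
    intro i j hij
    by_contra hne
    refine hd i j hne (s i) (P i).start_mem_support ?_
    rw [hij]; exact (P j).start_mem_support
  have hsurj : ∀ a ∈ T, ∃ i, t i = a := by
    have himg : (Set.range t) = T := by
      apply Set.eq_of_subset_of_ncard_le _ _ hfin
      · rintro _ ⟨i, rfl⟩; exact ht i
      · rw [hcard]
        have : (Set.range t).ncard = Nat.card (Fin 4) := by
          rw [← Set.image_univ, Set.ncard_image_of_injective _ htinj, Set.ncard_univ]
        rw [this]; simp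
    intro a ha
    rw [← himg] at ha
    exact ha
  intro a ha b hb u hu v hv hab hau hav hbu hbv huv
  obtain ⟨i, rfl⟩ := hsurj a ha
  obtain ⟨j, rfl⟩ := hsurj b hb
  obtain ⟨k, rfl⟩ := hsurj u hu
  obtain ⟨l, rfl⟩ := hsurj v hv
  have hij : i ≠ j := fun h => hab (h ▸ rfl)
  have hik : i ≠ k := fun h => hau (h ▸ rfl)
  have hil : i ≠ l := fun h => hav (h ▸ rfl)
  have hjk : j ≠ k := fun h => hbu (h ▸ rfl)
  have hjl : j ≠ l := fun h => hbv (h ▸ rfl)
  have hkl : k ≠ l := fun h => huv (h ▸ rfl)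
  exact FrameE.of_linkage hle hab huv (hTT _ ha _ hb) (hTT _ hu _ hv)
    (hTT' _ (hs i) _ (hs j)) (hTT' _ (hs k) _ (hs l))
    (P i) (P j) (P k) (P l) (hP i) (hP j) (hP k) (hP l) (hd i j hij) (hd i k hik) (hd i l hil)
    (hd j k hjk) (hd j l hjl) (hd k l hkl) (hZ i) (hZ j) (hZ k) (hZ l)
    (hF _ (hs i) _ (hs j) _ (hs k) _ (hs l)
      (fun h => hij (hsinj h)) (fun h => hik (hsinj h)) (fun h => hil (hsinj h))
      (fun h => hjk (hsinj h)) (fun h => hjl (hsinj h)) (fun h => hkl (hsinj h)))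

end Pool.Agent.Helper57.TOK
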