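import Pool.Agent.Helper57.TOK.FrameLift

/-!
# Concrete TOK4s given by lists, and the transfer along injective maps
-/

set_option autoImplicit false

namespace Pool.Agent.Helper57.TOK

open SimpleGraph

variable {V W : Type*}

/-- Weight of a list of vertices (sum of the labels of consecutive pairs). -/
def lw (c : Sym2 V → ZMod 2) : List V → ZMod 2
  | [] => 0
  | [_] => 0
  | a :: b :: l => c s(a, b) + lw c (b :: l)

lemma exists_walk_of_list {G : SimpleGraph V} (c : Sym2 V → ZMod 2) :
    ∀ (l : List V) (a b : V), List.IsChain G.Adj l → l.head? = some a → l.getLast? = some b →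
      l.Nodup → ∃ p : G.Walk a b, p.IsPath ∧ p.support = l ∧ wt c p = lw c l := by
  intro l
  induction l with
  | nil => intro a b _ h; simp at h
  | cons x l ih =>
    intro a b hch hh hl hn
    have hxa : x = a := by simpa using hh
    subst hxa
    cases l with
    | nil =>
      have hb : x = b := by simpa using hl
      subst hb
      exact ⟨Walk.nil, Walk.IsPath.nil, by simp, by simp [lw]⟩
    | cons y l =>
      rw [List.isChain_cons_cons] at hch
      rw [List.nodup_cons] at hn
      have hl' : (y :: l).getLast? = some b := by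
        rw [List.getLast?_cons_cons] at hl; exact hl
      obtain ⟨p, hp, hps, hpw⟩ := ih y b hch.2 (by simp) hl' hn.2
      refine ⟨Walk.cons hch.1 p, ?_, ?_, ?_⟩
      · rw [Walk.cons_isPath_iff]
        refine ⟨hp, ?_⟩
        rw [hps]; exact hn.1
      · rw [Walk.support_cons, hps]
      · rw [wt_cons, hpw]; rfl

/-- A TOK4 given by lists of vertices. -/
theorem HasTOK4s.of_lists {G : SimpleGraph V} {c : Sym2 V → ZMod 2} (v : Fin 4 → V)
    (L : Fin 4 → Fin 4 → List V) (hv : Function.Injective v)
    (h : ∀ i j : Fin 4, i < j → List.IsChain G.Adj (L i j) ∧ (L i j).head? = some (v i) ∧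
      (L i j).getLast? = some (v j) ∧ (L i j).Nodup ∧ lw c (L i j) = 1)
    (hd : ∀ i j k l : Fin 4, i < j → k < l → (i, j) ≠ (k, l) → ∀ x ∈ L i j, x ∈ L k l →
      ((x = v i ∨ x = v j) ∧ (x = v k ∨ x = v l))) : HasTOK4s G c := by
  classical
  have hex : ∀ i j : Fin 4, ∃ P : G.Walk (v i) (v j), i < j →
      (P.IsPath ∧ wt c P = 1 ∧ P.support = L i j) := by
    intro i j
    rcases lt_trichotomy i j with hij | hij | hij
    · obtain ⟨h1, h2, h3, h4, h5⟩ := h i j hij
      obtain ⟨p, hp, hps, hpw⟩ := exists_walk_of_list c _ _ _ h1 h2 h3 h4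
      exact ⟨p, fun _ => ⟨hp, hpw.trans h5, hps⟩⟩
    · subst hij
      exact ⟨Walk.nil, fun hh => absurd hh (lt_irrefl _)⟩
    · obtain ⟨h1, h2, h3, h4, h5⟩ := h j i hij
      obtain ⟨p, -, -, -⟩ := exists_walk_of_list c _ _ _ h1 h2 h3 h4
      exact ⟨p.reverse, fun hh => absurd hh (not_lt_of_gt hij)⟩
  choose P hP using hex
  refine ⟨v, hv, P, fun i j hij => ⟨(hP i j hij).1, (hP i j hij).2.1⟩, ?_⟩
  intro i j k l hij hkl hne x hx hx'
  rw [(hP i j hij).2.2] at hx
  rw [(hP k l hkl).2.2] at hx'
  exact hd i j k l hij hkl hne x hx hx'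

/-- Transfer along an injective map. -/
theorem HasTOK4s.of_injective {K : SimpleGraph V} {G : SimpleGraph W} {cK : Sym2 V → ZMod 2}
    {cG : Sym2 W → ZMod 2} (φ : V → W) (hφ : Set.InjOn φ (supp K))
    (h : ∀ u w, K.Adj u w → G.Adj (φ u) (φ w) ∧ cG s(φ u, φ w) = cK s(u, w))
    (hK : HasTOK4s K cK) : HasTOK4s G cG := by
  classical
  by_cases hne : Nonempty (Sym2 V)
  · obtain ⟨e0⟩ := hne
    refine HasTOK4s.subst (cK := cK) φ (fun _ => e0) hφ ?_ hK
    intro u w huw
    obtain ⟨h1, h2⟩ := h u w huw
    obtain ⟨R, h3, h4, h5⟩ := exists_edge_walk cG h1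
    refine ⟨R, h3, h4.trans h2, ?_⟩
    intro x hx
    rw [h5] at hx
    simp only [List.mem_cons, List.not_mem_nil, or_false] at hx
    rcases hx with hx | hx
    · exact Or.inl hx
    · exact Or.inr (Or.inl hx)
  · obtain ⟨v, -⟩ := hK
    exact absurd ⟨s(v 0, v 0)⟩ hne

/-- Transfer of frames along an injective map. -/
theorem Frame.of_injective {K : SimpleGraph V} {Z : SimpleGraph W} {κ : V → ZMod 2}
    {κ' : W → ZMod 2} {a b u v : V} (φ : V → W) (hφ : Function.Injective φ)
    (h : ∀ x y, K.Adj x y → Z.Adj (φ x) (φ y)) (hab : ¬ Z.Adj (φ a) (φ b))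
    (huv : ¬ Z.Adj (φ u) (φ v)) (h1 : vl κ a b = vl κ' (φ a) (φ b))
    (h2 : vl κ u v = vl κ' (φ u) (φ v)) (hF : Frame K κ a b u v) :
    Frame Z κ' (φ a) (φ b) (φ u) (φ v) := by
  unfold Frame at hF ⊢
  refine HasTOK4s.of_injective φ (fun x _ y _ h => hφ h) ?_ hF
  rintro x y ⟨hne, hxy⟩
  by_cases hadj : K.Adj x y
  · refine ⟨le_frameG _ _ _ _ _ (h x y hadj), ?_⟩
    rw [cF_of_adj (h x y hadj), cF_of_adj hadj]
  · have hxy' := hxy.resolve_left hadj
    have hne' : φ x ≠ φ y := fun hh => hne (hφ hh)
    rw [cF_of_not_adj hadj]
    rcases hxy' with he | he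
    · have he' : s(φ x, φ y) = s(φ a, φ b) := by
        have := congrArg (Sym2.map φ) he
        simpa using this
      refine ⟨⟨hne', Or.inr (Or.inl he')⟩, ?_⟩
      rw [he', cF_of_not_adj hab, ← h1]
      rw [Sym2.eq_iff] at he
      rcases he with ⟨rfl, rfl⟩ | ⟨rfl, rfl⟩
      · rfl
      · exact vl_comm κ _ _
    · have he' : s(φ x, φ y) = s(φ u, φ v) := by
        have := congrArg (Sym2.map φ) he
        simpa using this
      refine ⟨⟨hne', Or.inr (Or.inr he')⟩, ?_⟩
      rw [he', cF_of_not_adj huv, ← h2]
      rw [Sym2.eq_iff] at he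
      rcases he with ⟨rfl, rfl⟩ | ⟨rfl, rfl⟩
      · rfl
      · exact vl_comm κ _ _

/-- Three pairings are enough. -/
theorem AllFrames.of_three {Z : SimpleGraph V} {κ : V → ZMod 2} {a b u v : V}
    (h1 : Frame Z κ a b u v) (h2 : Frame Z κ a u b v) (h3 : Frame Z κ a v b u) :
    AllFrames Z κ {a, b, u, v} := by
  intro x hx y hy z hz w hw hxy hxz hxw hyz hyw hzw
  simp only [Set.mem_insert_iff, Set.mem_singleton_iff] at hx hy hz hw
  rcases hx with rfl | rfl | rfl | rfl <;> rcases hy with rfl | rfl | rfl | rfl <;>
    first
      | exact absurd rfl hxy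
      | (rcases hz with rfl | rfl | rfl | rfl <;>
          first
            | exact absurd rfl hxz
            | exact absurd rfl hyz
            | (rcases hw with rfl | rfl | rfl | rfl <;>
                first
                  | exact absurd rfl hxw
                  | exact absurd rfl hyw
                  | exact absurd rfl hzw
                  | exact h1
                  | exact h1.swap_left
                  | exact h1.swap_right
                  | exact h1.swap_left.swap_right
                  | exact h1.swap
                  | exact h1.swap.swap_left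
                  | exact h1.swap.swap_right
                  | exact h1.swap.swap_left.swap_right
                  | exact h2
                  | exact h2.swap_left
                  | exact h2.swap_right
                  | exact h2.swap_left.swap_right
                  | exact h2.swap
                  | exact h2.swap.swap_left
                  | exact h2.swap.swap_right
                  | exact h2.swap.swap_left.swap_right
                  | exact h3
                  | exact h3.swap_left
                  | exact h3.swap_right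
                  | exact h3.swap_left.swap_right
                  | exact h3.swap
                  | exact h3.swap.swap_left
                  | exact h3.swap.swap_right
                  | exact h3.swap.swap_left.swap_right))

end Pool.Agent.Helper57.TOK
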