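import Mathlib

/-!
# Menger's theorem (vertex version, finite graphs), after Goering

`Sep G A B S`: the set `S` meets every walk from `A` to `B`.
`Linked G A B k`: there are `k` pairwise disjoint paths from `A` to `B`.
-/

set_option autoImplicit false

namespace Pool.Agent.Helper57.TOK

open SimpleGraph

variable {V : Type*}

/-- `S` meets every walk from `A` to `B`. -/
def Sep (G : SimpleGraph V) (A B S : Set V) : Prop :=
  ∀ a ∈ A, ∀ b ∈ B, ∀ p : G.Walk a b, ∃ z ∈ p.support, z ∈ S

/-- `k` pairwise disjoint paths from `A` to `B`. -/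
def Linked (G : SimpleGraph V) (A B : Set V) (k : ℕ) : Prop :=
  ∃ (a b : Fin k → V) (P : ∀ i, G.Walk (a i) (b i)),
    (∀ i, a i ∈ A ∧ b i ∈ B ∧ (P i).IsPath) ∧
    ∀ i j, i ≠ j → ∀ x, x ∈ (P i).support → x ∉ (P j).support

lemma Sep.symm {G : SimpleGraph V} {A B S : Set V} (h : Sep G A B S) : Sep G B A S := by
  intro b hb a ha p
  obtain ⟨z, hz, hzS⟩ := h a ha b hb p.reverse
  exact ⟨z, by simpa using hz, hzS⟩

lemma Sep.mono_set {G : SimpleGraph V} {A B S T : Set V} (h : Sep G A B S) (hST : S ⊆ T) :
    Sep G A B T := by
  intro a ha b hb p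
  obtain ⟨z, hz, hzS⟩ := h a ha b hb p
  exact ⟨z, hz, hST hzS⟩

lemma Linked.mono {G H : SimpleGraph V} {A B : Set V} {k : ℕ} (h : G ≤ H)
    (hG : Linked G A B k) : Linked H A B k := by
  obtain ⟨a, b, P, h1, h2⟩ := hG
  refine ⟨a, b, fun i => (P i).mapLe h, fun i => ⟨(h1 i).1, (h1 i).2.1, ?_⟩, ?_⟩
  · exact (Walk.isPath_mapLe h).2 (h1 i).2.2
  · intro i j hij x hx
    rw [Walk.support_mapLe_eq_support] at hx ⊢
    exact h2 i j hij x hx

lemma Linked.symm {G : SimpleGraph V} {A B : Set V} {k : ℕ}
    (hG : Linked G A B k) : Linked G B A k := by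
  obtain ⟨a, b, P, h1, h2⟩ := hG
  refine ⟨b, a, fun i => (P i).reverse, fun i => ⟨(h1 i).2.1, (h1 i).1, (h1 i).2.2.reverse⟩, ?_⟩
  intro i j hij x hx
  rw [Walk.support_reverse, List.mem_reverse] at hx ⊢
  exact h2 i j hij x hx

/-- Vertices which can be reached from `A` by a walk avoiding `S`. -/
def Reach (G : SimpleGraph V) (A S : Set V) : Set V :=
  {z | ∃ a ∈ A, ∃ p : G.Walk a z, ∀ w ∈ p.support, w ∉ S}

lemma not_mem_of_reach {G : SimpleGraph V} {A S : Set V} {z : V} (h : z ∈ Reach G A S) :
    z ∉ S := by
  obtain ⟨a, -, p, hp⟩ := h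
  exact hp z p.end_mem_support

lemma reach_of_mem {G : SimpleGraph V} {A S : Set V} {z : V} (h : z ∈ A) (hS : z ∉ S) :
    z ∈ Reach G A S := ⟨z, h, Walk.nil, by simpa using hS⟩

lemma reach_adj {G : SimpleGraph V} {A S : Set V} {u w : V} (h : u ∈ Reach G A S)
    (hadj : G.Adj u w) (hw : w ∉ S) : w ∈ Reach G A S := by
  obtain ⟨a, ha, p, hp⟩ := h
  refine ⟨a, ha, p.append (Walk.cons hadj Walk.nil), ?_⟩
  intro z hz
  rw [Walk.mem_support_append_iff] at hz
  rcases hz with hz | hz
  · exact hp z hz
  · simp only [Walk.support_cons, Walk.support_nil, List.mem_cons, List.not_mem_nil,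
      or_false] at hz
    rcases hz with rfl | rfl
    · exact hp _ p.end_mem_support
    · exact hw

lemma sep_iff_reach {G : SimpleGraph V} {A B S : Set V} :
    Sep G A B S ↔ ∀ z, z ∈ Reach G A S → z ∈ Reach G B S → False := by
  constructor
  · rintro h z ⟨a, ha, p, hp⟩ ⟨b, hb, q, hq⟩
    obtain ⟨w, hw, hwS⟩ := h a ha b hb (p.append q.reverse)
    rw [Walk.mem_support_append_iff, Walk.support_reverse, List.mem_reverse] at hw
    rcases hw with hw | hw
    · exact hp w hw hwS
    · exact hq w hw hwS
  · intro h a ha b hb p
    by_contra hcon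
    push Not at hcon
    exact h b ⟨a, ha, p, hcon⟩ (reach_of_mem hb (hcon b p.end_mem_support))

lemma reach_prefix {G : SimpleGraph V} {A S : Set V} {a b z : V} (ha : a ∈ A)
    (p : G.Walk a b) (hp : p.IsPath) (hz : z ∈ p.support) (hzb : z ≠ b)
    (hS : ∀ w ∈ p.support, w ∈ S → w = b) : z ∈ Reach G A S := by
  classical
  refine ⟨a, ha, p.takeUntil z hz, ?_⟩
  intro w hw hwS
  have h1 := hS w (Walk.support_takeUntil_subset_support _ _ hw) hwS
  subst h1
  exact Walk.endpoint_notMem_support_takeUntil hp hz hzb.symm hw

section Step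

variable {G G' : SimpleGraph V} {A B S : Set V} {x y : V}

/-- the separators of size `|S| + 1` -/
lemma sep_insert (hG' : ∀ u w, G.Adj u w → s(u, w) ≠ s(x, y) → G'.Adj u w)
    (hS : Sep G' A B S) : Sep G A B (insert x S) := by
  rw [sep_iff_reach]
  intro z hzA hzB
  rw [sep_iff_reach] at hS
  have key : ∀ (C : Set V), z ∈ Reach G C (insert x S) → z ∈ Reach G' C S := by
    rintro C ⟨a, ha, p, hp⟩
    have htr : ∀ e ∈ p.edges, e ∈ G'.edgeSet := by
      intro e he
      induction e using Sym2.ind with
      | _ u w =>
        refine (SimpleGraph.mem_edgeSet G').2 (hG' u w (Walk.adj_of_mem_edges _ he) ?_)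
        intro h
        have : x ∈ s(u, w) := h ▸ Sym2.mem_mk_left x y
        rw [Sym2.mem_iff] at this
        rcases this with h1 | h1
        · exact hp u (Walk.fst_mem_support_of_mem_edges _ he) (Or.inl h1.symm)
        · exact hp w (Walk.snd_mem_support_of_mem_edges _ he) (Or.inl h1.symm)
    refine ⟨a, ha, p.transfer G' htr, ?_⟩
    intro w hw hwS
    rw [Walk.support_transfer] at hw
    exact hp w hw (Or.inr hwS)
  exact hS z (key A hzA) (key B hzB)

/-- every `A`-`(S + x)` separator of `G'` separates `A` from `B` in `G` -/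
lemma sep_of_sep_insert (hG' : ∀ u w, G.Adj u w → s(u, w) ≠ s(x, y) → G'.Adj u w)
    (hS : Sep G' A B S) (hy : y ∉ Reach G' A S) {R : Set V}
    (hR : Sep G' A (insert x S) R) : Sep G A B R := by
  -- D : reachable in G' from A avoiding R and S + x
  have hsub : ∀ z, z ∈ Reach G' A (R ∪ insert x S) → z ∈ Reach G' A S := by
    rintro z ⟨a, ha, p, hp⟩
    exact ⟨a, ha, p, fun w hw hwS => hp w hw (Or.inr (Or.inr hwS))⟩
  have hsub' : ∀ z, z ∈ Reach G' A (R ∪ insert x S) → z ∈ Reach G' A R := by
    rintro z ⟨a, ha, p, hp⟩
    exact ⟨a, ha, p, fun w hw hwS => hp w hw (Or.inl hwS)⟩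
  have main : ∀ {u b : V} (p : G.Walk u b), b ∈ B → (∀ w ∈ p.support, w ∉ R) →
      u ∈ Reach G' A (R ∪ insert x S) → False := by
    intro u b p
    induction p with
    | nil =>
      intro hb _ hu
      rw [sep_iff_reach] at hS
      exact hS _ (hsub _ hu) (reach_of_mem hb (not_mem_of_reach (hsub _ hu)))
    | @cons u w b h q ih =>
      intro hb hav hu
      have hux : u ≠ x := fun hh =>
        not_mem_of_reach hu (Or.inr (Or.inl hh))
      have huy : u ≠ y := fun hh => hy (hh ▸ hsub _ hu)
      have hne : s(u, w) ≠ s(x, y) := by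
        intro hh
        rw [Sym2.eq_iff] at hh
        rcases hh with ⟨h1, -⟩ | ⟨h1, -⟩
        · exact hux h1
        · exact huy h1
      have hadj := hG' u w h hne
      have hwR : w ∉ R := hav w (by simp)
      by_cases hw : w ∈ insert x S
      · rw [sep_iff_reach] at hR
        exact hR w (reach_adj (hsub' _ hu) hadj hwR) (reach_of_mem hw hwR)
      · refine ih hb (fun z hz => hav z (by simp [hz])) (reach_adj hu hadj ?_)
        rintro (h1 | h1)
        · exact hwR h1
        · exact hw h1
  intro a ha b hb p
  by_contra hcon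
  push Not at hcon
  have haR : a ∉ R := hcon a p.start_mem_support
  by_cases haP : a ∈ insert x S
  · obtain ⟨z, hz, hzR⟩ := hR a ha a haP Walk.nil
    simp only [Walk.support_nil, List.mem_cons, List.not_mem_nil, or_false] at hz
    exact haR (hz ▸ hzR)
  · refine main p hb hcon (reach_of_mem ha ?_)
    rintro (h1 | h1)
    · exact haR h1
    · exact haP h1

/-- if `S` separates in `G'` but not in `G` then the edge `xy` crosses -/
lemma cross_of_not_sep (hG' : ∀ u w, G.Adj u w → s(u, w) ≠ s(x, y) → G'.Adj u w)
    (hS : Sep G' A B S) (hn : ¬ Sep G A B S) :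
    (x ∈ Reach G' A S ∧ y ∈ Reach G' B S) ∨ (y ∈ Reach G' A S ∧ x ∈ Reach G' B S) := by
  classical
  have hS' := hS
  rw [sep_iff_reach] at hS'
  have main : ∀ {u b : V} (p : G.Walk u b), p.IsPath → b ∈ B → (∀ w ∈ p.support, w ∉ S) →
      u ∈ Reach G' A S →
      (x ∈ Reach G' A S ∧ y ∈ Reach G' B S) ∨ (y ∈ Reach G' A S ∧ x ∈ Reach G' B S) := by
    intro u b p
    induction p with
    | nil =>
      intro _ hb hav hu
      exact (hS' _ hu (reach_of_mem hb (hav _ (by simp)))).elim
    | @cons u w b h q ih =>
      intro hp hb hav hu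
      rw [Walk.cons_isPath_iff] at hp
      have hwS : w ∉ S := hav w (by simp)
      by_cases hne : s(u, w) = s(x, y)
      · -- the rest of the path does not use u
        have htr : ∀ e ∈ q.edges, e ∈ G'.edgeSet := by
          intro e he
          induction e using Sym2.ind with
          | _ c d =>
            refine (SimpleGraph.mem_edgeSet G').2 (hG' c d (Walk.adj_of_mem_edges _ he) ?_)
            intro h1
            have : u ∈ s(c, d) := by
              rw [h1, ← hne]; exact Sym2.mem_mk_left u w
            rw [Sym2.mem_iff] at this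
            rcases this with h2 | h2
            · exact hp.2 (h2 ▸ Walk.fst_mem_support_of_mem_edges _ he)
            · exact hp.2 (h2 ▸ Walk.snd_mem_support_of_mem_edges _ he)
        have hwB : w ∈ Reach G' B S := by
          refine ⟨b, hb, (q.transfer G' htr).reverse, ?_⟩
          intro z hz
          rw [Walk.support_reverse, List.mem_reverse, Walk.support_transfer] at hz
          exact hav z (by simp [hz])
        rw [Sym2.eq_iff] at hne
        rcases hne with ⟨h1, h2⟩ | ⟨h1, h2⟩
        · left; exact ⟨h1 ▸ hu, h2 ▸ hwB⟩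
        · right; exact ⟨h1 ▸ hu, h2 ▸ hwB⟩
      · exact ih hp.1 hb (fun z hz => hav z (by simp [hz])) (reach_adj hu (hG' u w h hne) hwS)
  unfold Sep at hn
  push Not at hn
  obtain ⟨a, ha, b, hb, p, hp⟩ := hn
  refine main p.bypass (Walk.bypass_isPath p) hb (fun w hw => hp w (Walk.support_bypass_subset_support p hw))
    (reach_of_mem ha (hp a p.start_mem_support))

end Step

/-- If `k` disjoint paths end in `P` and `P` has at most `k` elements, then all of `P` is hit
and each path meets `P` only in its end. -/
lemma Linked.only_end {G : SimpleGraph V} {k : ℕ} {P : Finset V} (hcard : P.card ≤ k)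
    {a b : Fin k → V} {W : ∀ i, G.Walk (a i) (b i)} (hb : ∀ i, b i ∈ P)
    (hd : ∀ i j, i ≠ j → ∀ x, x ∈ (W i).support → x ∉ (W j).support) :
    (∀ w ∈ P, ∃ i, b i = w) ∧ ∀ i, ∀ w ∈ (W i).support, w ∈ P → w = b i := by
  classical
  have hinj : Function.Injective b := by
    intro i j hij
    by_contra hne
    refine hd i j hne (b i) (W i).end_mem_support ?_
    rw [hij]; exact (W j).end_mem_support
  have himg : Finset.univ.image b = P := by
    apply Finset.eq_of_subset_of_card_le
    · intro w hw
      rw [Finset.mem_image] at hw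
      obtain ⟨i, -, rfl⟩ := hw
      exact hb i
    · rw [Finset.card_image_of_injective _ hinj]
      simpa using hcard
  have hsurj : ∀ w ∈ P, ∃ i, b i = w := by
    intro w hw
    rw [← himg, Finset.mem_image] at hw
    obtain ⟨i, -, h⟩ := hw
    exact ⟨i, h⟩
  refine ⟨hsurj, ?_⟩
  intro i w hw hwP
  obtain ⟨j, hj⟩ := hsurj w hwP
  by_cases hij : i = j
  · rw [hij, hj]
  · exact absurd (hj ▸ (W j).end_mem_support) (hd i j hij w hw)

/-- The combination step. -/
lemma linked_combine {G G' : SimpleGraph V} {A B : Set V} {S : Finset V} {x y : V} {k : ℕ}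
    [DecidableEq V]
    (hle : G' ≤ G) (hxy : G.Adj x y)
    (hS : Sep G' A B S) (hxS : x ∉ S) (hyS : y ∉ S)
    (hxB : x ∉ Reach G' B S) (hyA : y ∉ Reach G' A S)
    (hcP : (insert x S).card ≤ k) (hcQ : (insert y S).card ≤ k)
    (hP : Linked G' A (↑(insert x S) : Set V) k) (hQ : Linked G' B (↑(insert y S) : Set V) k) :
    Linked G A B k := by
  obtain ⟨a, p, W, hW, hWd⟩ := hP
  obtain ⟨b, q, U, hU, hUd⟩ := hQ
  obtain ⟨hps, hpe⟩ := Linked.only_end hcP (W := W) (fun i => by simpa using (hW i).2.1) hWd
  obtain ⟨hqs, hqe⟩ := Linked.only_end hcQ (W := U) (fun i => by simpa using (hU i).2.1) hUd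
  have hS' := hS
  rw [sep_iff_reach] at hS'
  have hxney : x ≠ y := hxy.ne
  -- key intersection fact
  have key : ∀ i j z, z ∈ (W i).support → z ∈ (U j).support → p i = z ∧ q j = z ∧ z ∈ S := by
    intro i j z hzi hzj
    have hA : z ≠ p i → z ∈ Reach G' A S := fun h =>
      reach_prefix (hW i).1 (W i) (hW i).2.2 hzi h (fun w hw hwS =>
        hpe i w hw (Finset.mem_insert_of_mem (by simpa using hwS)))
    have hB : z ≠ q j → z ∈ Reach G' B S := fun h =>
      reach_prefix (hU j).1 (U j) (hU j).2.2 hzj h (fun w hw hwS =>
        hqe j w hw (Finset.mem_insert_of_mem (by simpa using hwS)))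
    by_cases h1 : z = p i
    · by_cases h2 : z = q j
      · refine ⟨h1.symm, h2.symm, ?_⟩
        have m1 : z ∈ insert x S := by rw [h1]; simpa using (hW i).2.1
        have m2 : z ∈ insert y S := by rw [h2]; simpa using (hU j).2.1
        rw [Finset.mem_insert] at m1 m2
        rcases m1 with m1 | m1
        · rcases m2 with m2 | m2
          · exact absurd (m1.symm.trans m2) hxney
          · exact m2
        · exact m1
      · exfalso
        have h3 := hB h2
        have h4 : z ∉ S := by simpa using not_mem_of_reach h3
        have m1 : z ∈ insert x S := by rw [h1]; simpa using (hW i).2.1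
        rw [Finset.mem_insert] at m1
        rcases m1 with m1 | m1
        · exact hxB (m1 ▸ h3)
        · exact h4 m1
    · exfalso
      have h3 := hA h1
      by_cases h2 : z = q j
      · have h4 : z ∉ S := by simpa using not_mem_of_reach h3
        have m2 : z ∈ insert y S := by rw [h2]; simpa using (hU j).2.1
        rw [Finset.mem_insert] at m2
        rcases m2 with m2 | m2
        · exact hyA (m2 ▸ h3)
        · exact h4 m2
      · exact hS' z h3 (hB h2)
  -- the matching of the two families
  have hσ : ∀ i, ∃ j, q j = if p i = x then y else p i := by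
    intro i
    apply hqs
    by_cases h : p i = x
    · rw [if_pos h]; exact Finset.mem_insert_self _ _
    · rw [if_neg h]
      have : p i ∈ insert x S := by simpa using (hW i).2.1
      rw [Finset.mem_insert] at this
      rcases this with h1 | h1
      · exact absurd h1 h
      · exact Finset.mem_insert_of_mem h1
  choose σ hσ using hσ
  have hpinj : Function.Injective p := by
    intro i j hij
    by_contra hne
    refine hWd i j hne (p i) (W i).end_mem_support ?_
    rw [hij]; exact (W j).end_mem_support
  have hpS : ∀ i, p i ≠ x → p i ∈ S := by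
    intro i h
    have : p i ∈ insert x S := by simpa using (hW i).2.1
    rw [Finset.mem_insert] at this
    exact this.resolve_left h
  have hσinj : Function.Injective σ := by
    intro i j hij
    have h1 := hσ i
    rw [hij, hσ j] at h1
    by_cases hi : p i = x
    · by_cases hj : p j = x
      · exact hpinj (hi.trans hj.symm)
      · rw [if_pos hi, if_neg hj] at h1
        exact absurd (h1 ▸ hpS j hj) hyS
    · by_cases hj : p j = x
      · rw [if_neg hi, if_pos hj] at h1
        exact absurd (h1 ▸ hpS i hi) hyS
      · rw [if_neg hi, if_neg hj] at h1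
        exact hpinj h1.symm
  -- the combined walks
  have hC : ∀ i, ∃ C : G.Walk (a i) (b (σ i)), C.IsPath ∧
      ∀ z ∈ C.support, z ∈ (W i).support ∨ z ∈ (U (σ i)).support := by
    intro i
    by_cases h : p i = x
    · have hq : q (σ i) = y := by rw [hσ i, if_pos h]
      have hadj : G.Adj (p i) (q (σ i)) := by rw [h, hq]; exact hxy
      let C0 : G.Walk (a i) (b (σ i)) :=
        ((W i).mapLe hle).append (Walk.cons hadj ((U (σ i)).mapLe hle).reverse)
      refine ⟨C0.bypass, Walk.bypass_isPath _, ?_⟩
      intro z hz
      have hz := Walk.support_bypass_subset_support _ hz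
      simp only [C0, Walk.mem_support_append_iff, Walk.support_cons, Walk.support_reverse,
        List.mem_cons, List.mem_reverse, Walk.support_mapLe_eq_support] at hz
      rcases hz with hz | hz | hz
      · exact Or.inl hz
      · left; rw [hz]; exact (W i).end_mem_support
      · exact Or.inr hz
    · have hq : q (σ i) = p i := by rw [hσ i, if_neg h]
      let C0 : G.Walk (a i) (b (σ i)) :=
        ((W i).mapLe hle).append ((((U (σ i)).mapLe hle).reverse).copy hq rfl)
      refine ⟨C0.bypass, Walk.bypass_isPath _, ?_⟩
      intro z hz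
      have hz := Walk.support_bypass_subset_support _ hz
      simp only [C0, Walk.mem_support_append_iff, Walk.support_reverse, Walk.support_copy,
        List.mem_reverse, Walk.support_mapLe_eq_support] at hz
      exact hz
  choose C hC1 hC2 using hC
  refine ⟨a, fun i => b (σ i), C, fun i => ⟨(hW i).1, (hU (σ i)).1, hC1 i⟩, ?_⟩
  intro i j hij z hzi hzj
  have hne : σ i ≠ σ j := fun h => hij (hσinj h)
  have hcross : ∀ i j, i ≠ j → z ∈ (W i).support → z ∈ (U (σ j)).support → False := by
    intro i j hij h1 h2
    obtain ⟨e1, e2, e3⟩ := key i (σ j) z h1 h2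
    have hpx : p i ≠ x := fun h => hxS (h ▸ e1.symm ▸ e3)
    have : q (σ i) = q (σ j) := by rw [hσ i, if_neg hpx, e1, e2]
    have hqinj : Function.Injective q := by
      intro i j hij
      by_contra hne
      refine hUd i j hne (q i) (U i).end_mem_support ?_
      rw [hij]; exact (U j).end_mem_support
    exact hij (hσinj (hqinj this))
  rcases hC2 i z hzi with h1 | h1
  · rcases hC2 j z hzj with h2 | h2
    · exact hWd i j hij z h1 h2
    · exact hcross i j hij h1 h2
  · rcases hC2 j z hzj with h2 | h2
    · exact hcross j i (Ne.symm hij) h2 h1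
    · exact hUd _ _ hne z h1 h2

/-- MENGER'S THEOREM: if no set of fewer than `k` vertices separates `A` from `B`, then there are
`k` disjoint paths from `A` to `B`. -/
theorem menger [Finite V] (G : SimpleGraph V) (A B : Set V) (k : ℕ)
    (h : ∀ S : Finset V, S.card < k → ¬ Sep G A B S) : Linked G A B k := by
  classical
  -- induction on the number of edges
  have main : ∀ n : ℕ, ∀ G : SimpleGraph V, ∀ A B : Set V, G.edgeSet.ncard = n →
      (∀ S : Finset V, S.card < k → ¬ Sep G A B S) → Linked G A B k := by
    intro n
    induction n using Nat.strong_induction_on with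
    | _ n ih =>
      intro G A B hn h
      by_cases hG : ∃ x y, G.Adj x y
      · obtain ⟨x, y, hxy⟩ := hG
        set G' := G.deleteEdges {s(x, y)} with hG'def
        have hle : G' ≤ G := SimpleGraph.deleteEdges_le _
        have hG' : ∀ u w, G.Adj u w → s(u, w) ≠ s(x, y) → G'.Adj u w := by
          intro u w huw hne
          rw [hG'def, SimpleGraph.deleteEdges_adj]
          exact ⟨huw, by simpa using hne⟩
        have hcard : G'.edgeSet.ncard < n := by
          rw [← hn]
          apply Set.ncard_lt_ncard _ (Set.toFinite _)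
          refine ⟨SimpleGraph.edgeSet_mono hle, ?_⟩
          intro hsub
          have h1 : s(x, y) ∈ G'.edgeSet := hsub ((SimpleGraph.mem_edgeSet G).2 hxy)
          rw [SimpleGraph.mem_edgeSet, hG'def, SimpleGraph.deleteEdges_adj] at h1
          exact h1.2 rfl
        by_cases hsep : ∃ S : Finset V, S.card < k ∧ Sep G' A B S
        · obtain ⟨S, hSk, hS⟩ := hsep
          -- WLOG step
          have step : ∀ x y, G.Adj x y → (∀ u w, G.Adj u w → s(u, w) ≠ s(x, y) → G'.Adj u w) →
              x ∈ Reach G' A S → y ∈ Reach G' B S → Linked G A B k := by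
            intro x y hxy hG' hxA hyB
            have hS' := hS
            rw [sep_iff_reach] at hS'
            have hxB : x ∉ Reach G' B S := fun h => hS' x hxA h
            have hyA : y ∉ Reach G' A S := fun h => hS' y h hyB
            have hxS : x ∉ S := by simpa using not_mem_of_reach hxA
            have hyS : y ∉ S := by simpa using not_mem_of_reach hyB
            have hG'' : ∀ u w, G.Adj u w → s(u, w) ≠ s(y, x) → G'.Adj u w := by
              intro u w huw hne
              exact hG' u w huw (by rw [Sym2.eq_swap (a := x)]; exact hne)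
            have hcP : (insert x S).card ≤ k := by
              rw [Finset.card_insert_of_notMem hxS]; omega
            have hcQ : (insert y S).card ≤ k := by
              rw [Finset.card_insert_of_notMem hyS]; omega
            refine linked_combine hle hxy hS hxS hyS hxB hyA hcP hcQ ?_ ?_
            · apply ih _ hcard G' _ _ rfl
              intro R hR hsepR
              apply h R hR
              rw [Finset.coe_insert] at hsepR
              exact sep_of_sep_insert hG' hS hyA hsepR
            · apply ih _ hcard G' _ _ rfl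
              intro R hR hsepR
              apply h R hR
              rw [Finset.coe_insert] at hsepR
              exact (sep_of_sep_insert hG'' hS.symm hxB hsepR).symm
          rcases cross_of_not_sep hG' hS (h S hSk) with ⟨h1, h2⟩ | ⟨h1, h2⟩
          · exact step x y hxy hG' h1 h2
          · refine step y x hxy.symm ?_ h1 h2
            intro u w huw hne
            exact hG' u w huw (by rw [Sym2.eq_swap (a := x)]; exact hne)
        · push Not at hsep
          exact (ih _ hcard G' A B rfl hsep).mono hle
      · push Not at hG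
        -- no edges
        let T : Finset V := (Set.toFinite (A ∩ B)).toFinset
        have hT : k ≤ T.card := by
          by_contra hlt
          push Not at hlt
          apply h T hlt
          intro a ha b hb p
          cases p with
          | nil =>
            refine ⟨a, by simp, ?_⟩
            have : a ∈ T := (Set.Finite.mem_toFinset _).2 ⟨ha, hb⟩
            exact this
          | cons hadj q => exact absurd hadj (hG _ _)
        obtain ⟨T', hT', hcardT⟩ := Finset.exists_subset_card_eq hT
        let e := (T'.equivFinOfCardEq hcardT).symm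
        refine ⟨fun i => (e i : V), fun i => (e i : V), fun i => Walk.nil, ?_, ?_⟩
        · intro i
          have h1 : (e i : V) ∈ T := hT' (e i).2
          have h2 : (e i : V) ∈ A ∩ B := (Set.Finite.mem_toFinset _).1 h1
          exact ⟨h2.1, h2.2, Walk.IsPath.nil⟩
        · intro i j hij x hx hx'
          simp only [Walk.support_nil, List.mem_cons, List.not_mem_nil, or_false] at hx hx'
          exact hij (e.injective (Subtype.ext (hx.symm.trans hx')))
  exact main _ G A B rfl h

end Pool.Agent.Helper57.TOK
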