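import Pool.Agent.Helper57.TOK.Basic
import Pool.Agent.Helper57.TOK.Menger

/-!
# The frozen statement S08309 from a clean statement
-/

set_option autoImplicit false

namespace Pool.Agent.Helper57.TOK

open SimpleGraph

variable {V : Type*}

/-- Deleting at most three vertices leaves the graph connected. -/
def Conn4 (G : SimpleGraph V) : Prop :=
  ∀ S : Finset V, S.card < 4 → ∀ a b, a ∉ S → b ∉ S → ∃ p : G.Walk a b, ∀ z ∈ p.support, z ∉ S

/-- No single vertex deletion makes the graph bipartite. -/
def Index2 (G : SimpleGraph V) : Prop :=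
  ∀ w : V, ¬ ∃ κ : V → Bool, ∀ u v, u ≠ w → v ≠ w → G.Adj u v → κ u ≠ κ v

lemma walk_of_induce {G : SimpleGraph V} {s : Set V} {u v : s} (p : (G.induce s).Walk u v) :
    ∃ q : G.Walk u.1 v.1, ∀ z ∈ q.support, z ∈ s := by
  induction p with
  | @nil u => exact ⟨Walk.nil, by intro z hz; simp at hz; rw [hz]; exact u.2⟩
  | @cons u v w h p ih =>
    obtain ⟨q, hq⟩ := ih
    refine ⟨Walk.cons (by simpa using h) q, ?_⟩
    intro z hz
    rw [Walk.support_cons, List.mem_cons] at hz
    rcases hz with rfl | hz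
    · exact u.2
    · exact hq z hz

lemma conn4_of_induce {G : SimpleGraph V}
    (h : ∀ S : Finset V, S.card < 4 → (G.induce ((↑S : Set V)ᶜ)).Connected) : Conn4 G := by
  intro S hS a b ha hb
  have hc := (h S hS).preconnected ⟨a, by simpa using ha⟩ ⟨b, by simpa using hb⟩
  obtain ⟨p⟩ := hc
  obtain ⟨q, hq⟩ := walk_of_induce p
  exact ⟨q, fun z hz => by simpa using hq z hz⟩

lemma index2_of_induce {G : SimpleGraph V}
    (h : ∀ S : Finset V, S.card ≤ 1 → ¬ (G.induce ((↑S : Set V)ᶜ)).Colorable 2) : Index2 G := by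
  rintro w ⟨κ, hκ⟩
  apply h {w} (by simp)
  have C : (G.induce ((↑({w} : Finset V) : Set V)ᶜ)).Coloring Bool :=
    Coloring.mk (fun v => κ v.1) (by
      intro u v huv
      refine hκ u.1 v.1 ?_ ?_ huv
      · have := u.2; simpa using this
      · have := v.2; simpa using this)
  exact C.colorable

/-- The frozen statement follows from the clean statement. -/
theorem translate
    (H : ∀ (V : Type) [Fintype V] (G : SimpleGraph V), 4 < Fintype.card V → Conn4 G → Index2 G →
      HasTOK4 G) :
    ∀ (V : Type) [Fintype V] (G : SimpleGraph V),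
      (4 < Fintype.card V ∧
        ∀ S : Finset V, S.card < 4 → (G.induce ((↑S : Set V)ᶜ)).Connected) →
      (∀ S : Finset V, S.card ≤ 1 → ¬ (G.induce ((↑S : Set V)ᶜ)).Colorable 2) →
      ∃ v : Fin 4 → V, Function.Injective v ∧
        ∃ P : ∀ i j : Fin 4, G.Walk (v i) (v j),
          (∀ i j : Fin 4, i < j → (P i j).IsPath ∧ Odd (P i j).length) ∧
          (∀ i j k l : Fin 4, i < j → k < l → (i, j) ≠ (k, l) →
            ∀ x : V, x ∈ (P i j).support → x ∈ (P k l).support →
              ((x = v i ∨ x = v j) ∧ (x = v k ∨ x = v l))) := by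
  intro V _ G h1 h2
  exact H V G h1.1 (conn4_of_induce h1.2) (index2_of_induce h2)

/-- In a graph with `Conn4`, every set `Y` with a vertex outside `Y` and its neighbourhood has at
least four neighbours. Stated as: no separator of fewer than four vertices. -/
lemma Conn4.not_sep {G : SimpleGraph V} (h : Conn4 G) {A B : Set V} {S : Finset V}
    (hS : S.card < 4) {a b : V} (ha : a ∈ A) (hb : b ∈ B) (haS : a ∉ S) (hbS : b ∉ S) :
    ¬ Sep G A B (↑S : Set V) := by
  intro hsep
  obtain ⟨p, hp⟩ := h S hS a b haS hbS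
  obtain ⟨z, hz, hzS⟩ := hsep a ha b hb p
  exact hp z hz (by simpa using hzS)

/-- Four disjoint paths between two sets with at least four vertices each. -/
theorem Conn4.linked [Finite V] {G : SimpleGraph V} (h : Conn4 G) {A B : Set V}
    (hA : 4 ≤ A.ncard) (hB : 4 ≤ B.ncard) : Linked G A B 4 := by
  classical
  apply menger
  intro S hS
  have hex : ∀ C : Set V, 4 ≤ C.ncard → ∃ c ∈ C, c ∉ S := by
    intro C hC
    by_contra hcon
    push Not at hcon
    have : C ⊆ (↑S : Set V) := fun c hc => by simpa using hcon c hc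
    have h1 := Set.ncard_le_ncard this (Set.toFinite _)
    rw [Set.ncard_coe_finset] at h1
    omega
  obtain ⟨a, ha, haS⟩ := hex A hA
  obtain ⟨b, hb, hbS⟩ := hex B hB
  exact h.not_sep hS ha hb haS hbS

end Pool.Agent.Helper57.TOK
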