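import Pool.Agent.Helper57.TOK.Fold
import Pool.Agent.Helper57.TOK.Sub

/-!
# Edge counts and neighbourhoods under a fold
-/

set_option autoImplicit false

namespace Pool.Agent.Helper57.TOK

open SimpleGraph

variable {V : Type*}

/-- edges meeting `Y` which avoid `b` and `y` -/
def EAtAvoid (G : SimpleGraph V) (Y : Set V) (b y : V) : Set (Sym2 V) :=
  {e | e ∈ EAt G Y ∧ b ∉ e ∧ y ∉ e}

lemma mem_EAtAvoid {G : SimpleGraph V} {Y : Set V} {b y u v : V} :
    s(u, v) ∈ EAtAvoid G Y b y ↔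
      (G.Adj u v ∧ (u ∈ Y ∨ v ∈ Y)) ∧ (b ≠ u ∧ b ≠ v) ∧ (y ≠ u ∧ y ≠ v) := by
  unfold EAtAvoid
  rw [Set.mem_ofPred_eq, mem_EAt, Sym2.mem_iff, Sym2.mem_iff]
  tauto

/-- The edges of the fold at a set. -/
lemma EAt_foldG {G : SimpleGraph V} {y a b : V} (Y : Set V) (hab : a ≠ b) (hay : a ≠ y) :
    EAt (foldG G y a b) Y = EAtAvoid G Y b y ∪
      (fun w => s(a, w)) '' {w | G.Adj b w ∧ w ≠ y ∧ w ≠ a ∧ (a ∈ Y ∨ w ∈ Y)} := by
  ext e
  induction e using Sym2.ind with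
  | _ u v =>
    rw [Set.mem_union, mem_EAt, mem_EAtAvoid, foldG_adj]
    constructor
    · rintro ⟨⟨h1, h2, h3, h4, h5, h6⟩, h7⟩
      rcases h6 with h6 | ⟨h6, h8⟩ | ⟨h6, h8⟩
      · left; exact ⟨⟨h6, h7⟩, ⟨h4.symm, h5.symm⟩, ⟨h2.symm, h3.symm⟩⟩
      · right
        subst h6
        exact ⟨v, ⟨h8, h3, h1.symm, h7⟩, rfl⟩
      · right
        subst h6
        exact ⟨u, ⟨h8, h2, h1, h7.symm⟩, Sym2.eq_swap⟩
    · rintro (⟨⟨h1, h2⟩, ⟨h3, h4⟩, ⟨h5, h6⟩⟩ | ⟨w, ⟨h1, h2, h3, h4⟩, h5⟩)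
      · exact ⟨⟨h1.ne, h5.symm, h6.symm, h3.symm, h4.symm, Or.inl h1⟩, h2⟩
      · have h5' : s(a, w) = s(u, v) := h5
        rw [Sym2.eq_iff] at h5'
        rcases h5' with ⟨e1, e2⟩ | ⟨e1, e2⟩
        · subst e1 e2
          exact ⟨⟨h3.symm, hay, h2, hab, h1.ne.symm, Or.inr (Or.inl ⟨rfl, h1⟩)⟩, h4⟩
        · subst e1 e2
          exact ⟨⟨h3, h2, hay, h1.ne.symm, hab, Or.inr (Or.inr ⟨rfl, h1⟩)⟩, h4.symm⟩

lemma inj_mk (a : V) : Function.Injective (fun w : V => s(a, w)) := by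
  intro w w' h
  have h' : s(a, w) = s(a, w') := h
  rwa [Sym2.congr_right] at h'

/-- Count for a set of the fold which does not contain the merged vertex. -/
theorem rho_foldG_of_notMem [Finite V] {G : SimpleGraph V} {y a b : V} {Y : Set V}
    (hab : a ≠ b) (hay : a ≠ y) (hby : b ≠ y) (haY : a ∉ Y) (hbY : b ∉ Y) (hyY : y ∉ Y) :
    rho (foldG G y a b) Y + ({w | w ∈ Y ∧ G.Adj a w ∧ G.Adj b w}).ncard +
      ({w | w ∈ Y ∧ G.Adj y w}).ncard = rho G Y := by
  have h1 : rho (foldG G y a b) Y + ({w | w ∈ Y ∧ G.Adj a w ∧ G.Adj b w}).ncard =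
      (EAtAvoid G Y b y).ncard + ({w | w ∈ Y ∧ G.Adj b w}).ncard := by
    unfold rho
    rw [EAt_foldG Y hab hay]
    have e1 : {w | G.Adj b w ∧ w ≠ y ∧ w ≠ a ∧ (a ∈ Y ∨ w ∈ Y)} = {w | w ∈ Y ∧ G.Adj b w} := by
      ext w
      simp only [Set.mem_ofPred_eq]
      constructor
      · rintro ⟨h1, h2, h3, h4⟩
        rcases h4 with h4 | h4
        · exact absurd h4 haY
        · exact ⟨h4, h1⟩
      · rintro ⟨h1, h2⟩
        exact ⟨h2, fun h => hyY (h ▸ h1), fun h => haY (h ▸ h1), Or.inr h1⟩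
    rw [e1]
    have e2 : ({w | w ∈ Y ∧ G.Adj b w}).ncard =
        ((fun w => s(a, w)) '' {w | w ∈ Y ∧ G.Adj b w}).ncard :=
      (Set.ncard_image_of_injective _ (inj_mk a)).symm
    have e3 : ({w | w ∈ Y ∧ G.Adj a w ∧ G.Adj b w}).ncard =
        (EAtAvoid G Y b y ∩ (fun w => s(a, w)) '' {w | w ∈ Y ∧ G.Adj b w}).ncard := by
      rw [← Set.ncard_image_of_injective _ (inj_mk a)]
      congr 1
      ext e
      constructor
      · rintro ⟨w, ⟨h1, h2, h3⟩, rfl⟩
        refine ⟨?_, w, ⟨h1, h3⟩, rfl⟩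
        show s(a, w) ∈ _
        rw [mem_EAtAvoid]
        exact ⟨⟨h2, Or.inr h1⟩, ⟨hab.symm, h3.ne⟩, ⟨hay.symm, fun h => hyY (h ▸ h1)⟩⟩
      · rintro ⟨h1, w, ⟨h2, h3⟩, rfl⟩
        have h1' : s(a, w) ∈ EAtAvoid G Y b y := h1
        rw [mem_EAtAvoid] at h1'
        exact ⟨w, ⟨h2, h1'.1.1, h3⟩, rfl⟩
    rw [e2, e3]
    exact Set.ncard_union_add_ncard_inter _ _
  have h2 : rho G Y = (EAtAvoid G Y b y).ncard + ({w | w ∈ Y ∧ G.Adj b w}).ncard +
      ({w | w ∈ Y ∧ G.Adj y w}).ncard := by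
    unfold rho
    rw [← Set.ncard_image_of_injective _ (inj_mk b), ← Set.ncard_image_of_injective _ (inj_mk y),
      ← Set.ncard_union_eq _ (Set.toFinite _) (Set.toFinite _),
      ← Set.ncard_union_eq _ (Set.toFinite _) (Set.toFinite _)]
    · congr 1
      ext e
      induction e using Sym2.ind with
      | _ u v =>
        rw [Set.mem_union, Set.mem_union, mem_EAt, mem_EAtAvoid]
        constructor
        · rintro ⟨h1, h2⟩
          by_cases hb : b = u ∨ b = v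
          · left; right
            rcases hb with hb | hb
            · subst hb
              exact ⟨v, ⟨h2.resolve_left hbY, h1⟩, rfl⟩
            · subst hb
              exact ⟨u, ⟨h2.resolve_right hbY, h1.symm⟩, Sym2.eq_swap⟩
          · by_cases hy : y = u ∨ y = v
            · right
              rcases hy with hy | hy
              · subst hy
                exact ⟨v, ⟨h2.resolve_left hyY, h1⟩, rfl⟩
              · subst hy
                exact ⟨u, ⟨h2.resolve_right hyY, h1.symm⟩, Sym2.eq_swap⟩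
            · left; left
              push Not at hb hy
              exact ⟨⟨h1, h2⟩, hb, hy⟩
        · rintro ((⟨h1, -, -⟩ | ⟨w, ⟨h1, h2⟩, h3⟩) | ⟨w, ⟨h1, h2⟩, h3⟩)
          · exact h1
          · have h3' : s(b, w) = s(u, v) := h3
            rw [Sym2.eq_iff] at h3'
            rcases h3' with ⟨e1, e2⟩ | ⟨e1, e2⟩
            · subst e1 e2; exact ⟨h2, Or.inr h1⟩
            · subst e1 e2; exact ⟨h2.symm, Or.inl h1⟩
          · have h3' : s(y, w) = s(u, v) := h3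
            rw [Sym2.eq_iff] at h3'
            rcases h3' with ⟨e1, e2⟩ | ⟨e1, e2⟩
            · subst e1 e2; exact ⟨h2, Or.inr h1⟩
            · subst e1 e2; exact ⟨h2.symm, Or.inl h1⟩
    · rw [Set.disjoint_left]
      rintro e he ⟨w, ⟨h1, h2⟩, rfl⟩
      rcases he with he | ⟨w', ⟨h3, h4⟩, he⟩
      · have he' : s(y, w) ∈ EAtAvoid G Y b y := he
        rw [mem_EAtAvoid] at he'
        exact he'.2.2.1 rfl
      · have he' : s(b, w') = s(y, w) := he
        rw [Sym2.eq_iff] at he'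
        rcases he' with ⟨e1, -⟩ | ⟨e1, e2⟩
        · exact hby e1
        · exact hbY (e1 ▸ h1)
    · rw [Set.disjoint_left]
      rintro e he ⟨w, ⟨h1, h2⟩, rfl⟩
      have he' : s(b, w) ∈ EAtAvoid G Y b y := he
      rw [mem_EAtAvoid] at he'
      exact he'.2.1.1 rfl
  rw [h1, h2]

/-- Count for a set of the fold which contains the merged vertex `a`. -/
theorem rho_foldG_of_mem [Finite V] {G : SimpleGraph V} {y a b : V} {Y : Set V}
    (hab : a ≠ b) (hay : a ≠ y) (hby : b ≠ y) (hnadj : ¬ G.Adj a b)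
    (haY : a ∈ Y) (hbY : b ∉ Y) (hyY : y ∉ Y) :
    rho (foldG G y a b) Y + ({w | w ≠ y ∧ G.Adj a w ∧ G.Adj b w}).ncard +
      (G.neighborSet y).ncard = rho G (insert y (insert b Y)) := by
  have h1 : rho (foldG G y a b) Y + ({w | w ≠ y ∧ G.Adj a w ∧ G.Adj b w}).ncard =
      (EAtAvoid G Y b y).ncard + ({w | w ≠ y ∧ G.Adj b w}).ncard := by
    unfold rho
    rw [EAt_foldG Y hab hay]
    have e1 : {w | G.Adj b w ∧ w ≠ y ∧ w ≠ a ∧ (a ∈ Y ∨ w ∈ Y)} = {w | w ≠ y ∧ G.Adj b w} := by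
      ext w
      simp only [Set.mem_ofPred_eq]
      constructor
      · rintro ⟨h1, h2, h3, h4⟩
        exact ⟨h2, h1⟩
      · rintro ⟨h1, h2⟩
        exact ⟨h2, h1, fun h => hnadj (h ▸ h2).symm, Or.inl haY⟩
    rw [e1]
    have e2 : ({w | w ≠ y ∧ G.Adj b w}).ncard =
        ((fun w => s(a, w)) '' {w | w ≠ y ∧ G.Adj b w}).ncard :=
      (Set.ncard_image_of_injective _ (inj_mk a)).symm
    have e3 : ({w | w ≠ y ∧ G.Adj a w ∧ G.Adj b w}).ncard =
        (EAtAvoid G Y b y ∩ (fun w => s(a, w)) '' {w | w ≠ y ∧ G.Adj b w}).ncard := by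
      rw [← Set.ncard_image_of_injective _ (inj_mk a)]
      congr 1
      ext e
      constructor
      · rintro ⟨w, ⟨h1, h2, h3⟩, rfl⟩
        refine ⟨?_, w, ⟨h1, h3⟩, rfl⟩
        show s(a, w) ∈ _
        rw [mem_EAtAvoid]
        exact ⟨⟨h2, Or.inl haY⟩, ⟨hab.symm, h3.ne⟩, ⟨hay.symm, h1.symm⟩⟩
      · rintro ⟨h1, w, ⟨h2, h3⟩, rfl⟩
        have h1' : s(a, w) ∈ EAtAvoid G Y b y := h1
        rw [mem_EAtAvoid] at h1'
        exact ⟨w, ⟨h2, h1'.1.1, h3⟩, rfl⟩
    rw [e2, e3]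
    exact Set.ncard_union_add_ncard_inter _ _
  have h2 : rho G (insert y (insert b Y)) =
      (EAtAvoid G Y b y).ncard + ({w | w ≠ y ∧ G.Adj b w}).ncard + (G.neighborSet y).ncard := by
    unfold rho
    rw [← Set.ncard_image_of_injective _ (inj_mk b),
      ← Set.ncard_image_of_injective (G.neighborSet y) (inj_mk y),
      ← Set.ncard_union_eq _ (Set.toFinite _) (Set.toFinite _),
      ← Set.ncard_union_eq _ (Set.toFinite _) (Set.toFinite _)]
    · congr 1
      ext e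
      induction e using Sym2.ind with
      | _ u v =>
        rw [Set.mem_union, Set.mem_union, mem_EAt, mem_EAtAvoid]
        simp only [Set.mem_insert_iff]
        constructor
        · rintro ⟨h1, h2⟩
          by_cases hy : y = u ∨ y = v
          · right
            rcases hy with hy | hy
            · subst hy
              exact ⟨v, h1, rfl⟩
            · subst hy
              exact ⟨u, h1.symm, Sym2.eq_swap⟩
          · push Not at hy
            by_cases hb : b = u ∨ b = v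
            · left; right
              rcases hb with hb | hb
              · subst hb
                exact ⟨v, ⟨hy.2.symm, h1⟩, rfl⟩
              · subst hb
                exact ⟨u, ⟨hy.1.symm, h1.symm⟩, Sym2.eq_swap⟩
            · left; left
              push Not at hb
              refine ⟨⟨h1, ?_⟩, hb, hy⟩
              rcases h2 with (h2 | h2 | h2) | (h2 | h2 | h2)
              · exact absurd h2.symm hy.1
              · exact absurd h2.symm hb.1
              · exact Or.inl h2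
              · exact absurd h2.symm hy.2
              · exact absurd h2.symm hb.2
              · exact Or.inr h2
        · rintro ((⟨⟨h1, h1'⟩, -, -⟩ | ⟨w, ⟨h1, h2⟩, h3⟩) | ⟨w, h1, h3⟩)
          · refine ⟨h1, ?_⟩
            rcases h1' with h | h
            · exact Or.inl (Or.inr (Or.inr h))
            · exact Or.inr (Or.inr (Or.inr h))
          · have h3' : s(b, w) = s(u, v) := h3
            rw [Sym2.eq_iff] at h3'
            rcases h3' with ⟨e1, e2⟩ | ⟨e1, e2⟩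
            · subst e1 e2; exact ⟨h2, Or.inl (Or.inr (Or.inl rfl))⟩
            · subst e1 e2; exact ⟨h2.symm, Or.inr (Or.inr (Or.inl rfl))⟩
          · have h3' : s(y, w) = s(u, v) := h3
            rw [Sym2.eq_iff] at h3'
            have h1' : G.Adj y w := h1
            rcases h3' with ⟨e1, e2⟩ | ⟨e1, e2⟩
            · subst e1 e2; exact ⟨h1', Or.inl (Or.inl rfl)⟩
            · subst e1 e2; exact ⟨h1'.symm, Or.inr (Or.inl rfl)⟩
    · rw [Set.disjoint_left]
      rintro e he ⟨w, h1, rfl⟩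
      rcases he with he | ⟨w', ⟨h3, h4⟩, he⟩
      · have he' : s(y, w) ∈ EAtAvoid G Y b y := he
        rw [mem_EAtAvoid] at he'
        exact he'.2.2.1 rfl
      · have he' : s(b, w') = s(y, w) := he
        rw [Sym2.eq_iff] at he'
        rcases he' with ⟨e1, -⟩ | ⟨e1, e2⟩
        · exact hby e1
        · exact h3 e2
    · rw [Set.disjoint_left]
      rintro e he ⟨w, ⟨h1, h2⟩, rfl⟩
      have he' : s(b, w) ∈ EAtAvoid G Y b y := he
      rw [mem_EAtAvoid] at he'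
      exact he'.2.1.1 rfl
  rw [h1, h2]

/-- Neighbourhood in the fold of a set not containing the merged vertex. -/
lemma mem_Nb_foldG_of_notMem {G : SimpleGraph V} {y a b : V} {Y : Set V}
    (hab : a ≠ b) (hay : a ≠ y) (haY : a ∉ Y) (hbY : b ∉ Y) (hyY : y ∉ Y) (v : V) :
    v ∈ Nb (foldG G y a b) Y ↔
      (v ∈ Nb G Y ∧ v ≠ b ∧ v ≠ y) ∨ (v = a ∧ b ∈ Nb G Y) := by
  simp only [mem_Nb, foldG_adj]
  constructor
  · rintro ⟨h1, u, hu, h2, h3, h4, h5, h6, h7⟩
    rcases h7 with h7 | ⟨h7, -⟩ | ⟨h7, h8⟩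
    · exact Or.inl ⟨⟨h1, u, hu, h7⟩, h6, h4⟩
    · exact absurd (h7 ▸ hu) haY
    · exact Or.inr ⟨h7, hbY, u, hu, h8.symm⟩
  · rintro (⟨⟨h1, u, hu, h2⟩, h3, h4⟩ | ⟨h1, h2, u, hu, h3⟩)
    · exact ⟨h1, u, hu, h2.ne, fun h => hyY (h ▸ hu), h4, fun h => hbY (h ▸ hu), h3, Or.inl h2⟩
    · subst h1
      exact ⟨haY, u, hu, fun h => haY (h ▸ hu), fun h => hyY (h ▸ hu), hay,
        fun h => hbY (h ▸ hu), hab, Or.inr (Or.inr ⟨rfl, h3.symm⟩)⟩

/-- Neighbourhood in the fold of a set containing the merged vertex. -/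
lemma mem_Nb_foldG_of_mem {G : SimpleGraph V} {y a b : V} {Y : Set V}
    (hab : a ≠ b) (hay : a ≠ y) (haY : a ∈ Y) (hbY : b ∉ Y) (hyY : y ∉ Y) (v : V) :
    v ∈ Nb (foldG G y a b) Y ↔ v ∈ Nb G (insert b Y) ∧ v ≠ y := by
  simp only [mem_Nb, foldG_adj, Set.mem_insert_iff]
  constructor
  · rintro ⟨h1, u, hu, h2, h3, h4, h5, h6, h7⟩
    refine ⟨⟨?_, ?_⟩, h4⟩
    · rintro (h | h)
      · exact h6 h
      · exact h1 h
    · rcases h7 with h7 | ⟨-, h8⟩ | ⟨h7, h8⟩
      · exact ⟨u, Or.inr hu, h7⟩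
      · exact ⟨b, Or.inl rfl, h8⟩
      · exact absurd haY (h7 ▸ h1)
  · rintro ⟨⟨h1, u, hu, h2⟩, h3⟩
    push Not at h1
    refine ⟨h1.2, ?_⟩
    rcases hu with hu | hu
    · subst hu
      exact ⟨a, haY, fun h => h1.2 (h ▸ haY), hay, h3, hab, h1.1, Or.inr (Or.inl ⟨rfl, h2⟩)⟩
    · exact ⟨u, hu, h2.ne, fun h => hyY (h ▸ hu), h3, fun h => hbY (h ▸ hu), h1.1, Or.inl h2⟩

end Pool.Agent.Helper57.TOK
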