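import Mathlib

/-!
# Totally odd K4 subdivisions: definitions and the substitution lemma (MP_3f61ad_co)

Everything lives on a fixed vertex type; a deleted vertex is an isolated vertex.
`HasTOK4 G` is exactly the conclusion of the frozen statement S08309.
`HasTOK4s G c` is the version with edge weights `c : Sym2 V → ZMod 2` (parity labels):
every one of the six paths has total weight one. `HasTOK4 G ↔ HasTOK4s G (fun _ => 1)`.
-/

set_option autoImplicit false

namespace Pool.Agent.Helper57.TOK

open SimpleGraph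

variable {V W : Type*}

/-- Totally odd subdivision of K4, exactly as in the frozen statement. -/
def HasTOK4 (G : SimpleGraph V) : Prop :=
  ∃ v : Fin 4 → V, Function.Injective v ∧
    ∃ P : ∀ i j : Fin 4, G.Walk (v i) (v j),
      (∀ i j : Fin 4, i < j → (P i j).IsPath ∧ Odd (P i j).length) ∧
      (∀ i j k l : Fin 4, i < j → k < l → (i, j) ≠ (k, l) →
        ∀ x : V, x ∈ (P i j).support → x ∈ (P k l).support →
          ((x = v i ∨ x = v j) ∧ (x = v k ∨ x = v l)))

/-- Weight (parity label) of a walk. -/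
def wt (c : Sym2 V → ZMod 2) {G : SimpleGraph V} {u v : V} (p : G.Walk u v) : ZMod 2 :=
  (p.edges.map c).sum

/-- Subdivision of K4 in which all six paths have weight one. -/
def HasTOK4s (G : SimpleGraph V) (c : Sym2 V → ZMod 2) : Prop :=
  ∃ v : Fin 4 → V, Function.Injective v ∧
    ∃ P : ∀ i j : Fin 4, G.Walk (v i) (v j),
      (∀ i j : Fin 4, i < j → (P i j).IsPath ∧ wt c (P i j) = 1) ∧
      (∀ i j k l : Fin 4, i < j → k < l → (i, j) ≠ (k, l) →
        ∀ x : V, x ∈ (P i j).support → x ∈ (P k l).support →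
          ((x = v i ∨ x = v j) ∧ (x = v k ∨ x = v l)))

section wt

variable {G : SimpleGraph V} (c : Sym2 V → ZMod 2)

@[simp] lemma wt_nil {u : V} : wt c (Walk.nil : G.Walk u u) = 0 := by simp [wt]

@[simp] lemma wt_cons {u v w : V} (h : G.Adj u v) (p : G.Walk v w) :
    wt c (Walk.cons h p) = c s(u, v) + wt c p := by simp [wt]

@[simp] lemma wt_append {u v w : V} (p : G.Walk u v) (q : G.Walk v w) :
    wt c (p.append q) = wt c p + wt c q := by simp [wt]

@[simp] lemma wt_reverse {u v : V} (p : G.Walk u v) : wt c p.reverse = wt c p := by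
  simp [wt, List.sum_reverse]

@[simp] lemma wt_copy {u v u' v' : V} (p : G.Walk u v) (hu : u = u') (hv : v = v') :
    wt c (p.copy hu hv) = wt c p := by
  subst hu hv; rfl

lemma wt_mapLe {H : SimpleGraph V} (h : G ≤ H) {u v : V} (p : G.Walk u v) :
    wt c (p.mapLe h) = wt c p := by
  simp [wt]

lemma wt_transfer {H : SimpleGraph V} {u v : V} (p : G.Walk u v)
    (h : ∀ e ∈ p.edges, e ∈ H.edgeSet) : wt c (p.transfer H h) = wt c p := by
  simp [wt]

lemma wt_one {u v : V} (p : G.Walk u v) : wt (fun _ => (1 : ZMod 2)) p = (p.length : ZMod 2) := by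
  induction p with
  | nil => simp
  | cons h p ih => simp [ih, add_comm]

lemma wt_one_eq_one_iff {u v : V} (p : G.Walk u v) :
    wt (fun _ => (1 : ZMod 2)) p = 1 ↔ Odd p.length := by
  rw [wt_one]
  exact ZMod.natCast_eq_one_iff_odd

lemma wt_congr (c c' : Sym2 V → ZMod 2) {u v : V} (p : G.Walk u v)
    (h : ∀ e ∈ p.edges, c e = c' e) : wt c p = wt c' p := by
  unfold wt
  congr 1
  exact List.map_congr_left h

end wt

lemma hasTOK4_iff (G : SimpleGraph V) : HasTOK4 G ↔ HasTOK4s G (fun _ => 1) := by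
  unfold HasTOK4 HasTOK4s
  simp only [wt_one_eq_one_iff]

/-- Monotonicity. -/
lemma HasTOK4s.mono {G H : SimpleGraph V} {c c' : Sym2 V → ZMod 2} (h : G ≤ H)
    (hc : ∀ e ∈ G.edgeSet, c e = c' e) (hG : HasTOK4s G c) : HasTOK4s H c' := by
  obtain ⟨v, hv, P, hP, hd⟩ := hG
  refine ⟨v, hv, fun i j => (P i j).mapLe h, fun i j hij => ⟨?_, ?_⟩, ?_⟩
  · exact (Walk.isPath_mapLe h).2 (hP i j hij).1
  · rw [wt_mapLe, ← (hP i j hij).2]
    exact (wt_congr c c' _ (fun e he => hc e (Walk.edges_subset_edgeSet _ he))).symm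
  · intro i j k l hij hkl hne x hx hx'
    rw [Walk.support_mapLe_eq_support] at hx hx'
    exact hd i j k l hij hkl hne x hx hx'

lemma HasTOK4.mono {G H : SimpleGraph V} (h : G ≤ H) (hG : HasTOK4 G) : HasTOK4 H := by
  rw [hasTOK4_iff] at hG ⊢
  exact hG.mono h (fun _ _ => rfl)

/-- Non-isolated vertices. -/
def supp (K : SimpleGraph V) : Set V := {u | ∃ w, K.Adj u w}

lemma mem_supp_left {K : SimpleGraph V} {u w : V} (h : K.Adj u w) : u ∈ supp K := ⟨w, h⟩
lemma mem_supp_right {K : SimpleGraph V} {u w : V} (h : K.Adj u w) : w ∈ supp K := ⟨u, h.symm⟩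

section Subst

variable {K : SimpleGraph V} {G : SimpleGraph W} (φ : V → W)
  (R : ∀ u w : V, K.Adj u w → G.Walk (φ u) (φ w))

/-- Replace every edge of a walk of `K` by a walk of `G`. -/
def expand : ∀ {a b : V}, K.Walk a b → G.Walk (φ a) (φ b)
  | _, _, Walk.nil => Walk.nil
  | _, _, Walk.cons h p => (R _ _ h).append (expand p)

@[simp] lemma expand_nil {a : V} : expand φ R (Walk.nil : K.Walk a a) = Walk.nil := rfl

@[simp] lemma expand_cons {a b d : V} (h : K.Adj a b) (p : K.Walk b d) :
    expand φ R (Walk.cons h p) = (R _ _ h).append (expand φ R p) := rfl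

lemma wt_expand (cK : Sym2 V → ZMod 2) (cG : Sym2 W → ZMod 2)
    (hR : ∀ u w (h : K.Adj u w), wt cG (R u w h) = cK s(u, w)) {a b : V} (p : K.Walk a b) :
    wt cG (expand φ R p) = wt cK p := by
  induction p with
  | nil => simp
  | cons h p ih => simp [ih, hR]

lemma mem_support_expand {a b : V} (p : K.Walk a b) (x : W) :
    x ∈ (expand φ R p).support ↔
      x = φ b ∨ ∃ u w, ∃ h : K.Adj u w, s(u, w) ∈ p.edges ∧ u ∈ p.support ∧ w ∈ p.support ∧
        x ∈ (R u w h).support ∧ (⟨(u, w), h⟩ : K.Dart) ∈ p.darts := by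
  induction p with
  | nil => simp
  | @cons a b d h p ih =>
    rw [expand_cons, Walk.mem_support_append_iff, ih]
    constructor
    · rintro (h1 | h1 | ⟨u, w, huw, h1, h2, h3, h4, h5⟩)
      · exact Or.inr ⟨a, b, h, by simp, by simp, by simp, h1, by simp⟩
      · exact Or.inl h1
      · exact Or.inr ⟨u, w, huw, by simp [h1], by simp [h2], by simp [h3], h4, by simp [h5]⟩
    · rintro (h1 | ⟨u, w, huw, h1, h2, h3, h4, h5⟩)
      · exact Or.inr (Or.inl h1)
      · simp only [Walk.darts_cons, List.mem_cons] at h5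
        rcases h5 with h5 | h5
        · left
          have e1 : u = a := by
            have := congrArg (fun z : K.Dart => z.toProd.1) h5
            simpa using this
          have e2 : w = b := by
            have := congrArg (fun z : K.Dart => z.toProd.2) h5
            simpa using this
          subst e1 e2
          exact h4
        · right; right
          refine ⟨u, w, huw, ?_, ?_, ?_, h4, h5⟩
          · exact List.mem_map_of_mem (f := Dart.edge) h5
          · exact Walk.dart_fst_mem_support_of_mem_darts p h5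
          · exact Walk.dart_snd_mem_support_of_mem_darts p h5

lemma mem_supp_of_mem_support {a b : V} (p : K.Walk a b) (ha : a ∈ supp K) :
    ∀ x ∈ p.support, x ∈ supp K := by
  induction p with
  | nil => intro x hx; simp at hx; subst hx; exact ha
  | cons h p ih =>
    intro x hx
    rw [Walk.support_cons, List.mem_cons] at hx
    rcases hx with rfl | hx
    · exact ha
    · exact ih (mem_supp_right h) x hx

lemma exists_first_edge {G : SimpleGraph W} {a b : W} (p : G.Walk a b) (hab : a ≠ b) :
    ∃ z, G.Adj a z ∧ s(a, z) ∈ p.edges := by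
  cases p with
  | nil => exact absurd rfl hab
  | cons h p => exact ⟨_, h, by simp⟩

lemma exists_last_edge {G : SimpleGraph W} {a b : W} (p : G.Walk a b) (hab : a ≠ b) :
    ∃ z, G.Adj z b ∧ s(z, b) ∈ p.edges := by
  obtain ⟨z, h1, h2⟩ := exists_first_edge p.reverse hab.symm
  refine ⟨z, h1.symm, ?_⟩
  rw [Walk.edges_reverse, List.mem_reverse, Sym2.eq_swap] at h2
  exact h2

lemma isPath_append_of {G : SimpleGraph W} {a b d : W} (p : G.Walk a b) (q : G.Walk b d)
    (hp : p.IsPath) (hq : q.IsPath) (h : ∀ x, x ∈ p.support → x ∈ q.support → x = b) :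
    (p.append q).IsPath := by
  rw [Walk.isPath_def, Walk.support_append]
  rw [Walk.isPath_def] at hp hq
  refine List.Nodup.append hp (List.Nodup.sublist (List.tail_sublist _) hq) ?_
  intro x hx hx'
  have h1 := h x hx (List.mem_of_mem_tail hx')
  subst h1
  have h2 : q.support = x :: q.support.tail := (Walk.cons_tail_support q).symm
  rw [h2, List.nodup_cons] at hq
  exact hq.1 hx'

lemma isPath_expand (lab : W → Sym2 V) (hφ : Set.InjOn φ (supp K))
    (hR : ∀ u w (h : K.Adj u w), (R u w h).IsPath)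
    (hS : ∀ u w (h : K.Adj u w), ∀ x ∈ (R u w h).support,
      x = φ u ∨ x = φ w ∨ (lab x = s(u, w) ∧ x ∉ φ '' supp K))
    {a b : V} (p : K.Walk a b) (hp : p.IsPath) : (expand φ R p).IsPath := by
  induction p with
  | nil => simp
  | @cons a b d h p ih =>
    rw [Walk.cons_isPath_iff] at hp
    rw [expand_cons]
    refine isPath_append_of _ _ (hR _ _ h) (ih hp.1) ?_
    intro x hx hx'
    have hall : ∀ z ∈ p.support, z ∈ supp K := mem_supp_of_mem_support p (mem_supp_right h)
    have hnot : ∀ z ∈ p.support, z ≠ a := fun z hz hza => hp.2 (hza ▸ hz)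
    rw [mem_support_expand] at hx'
    rcases hS _ _ h x hx with h1 | h1 | ⟨h1, h1'⟩
    · -- x = φ a : impossible
      exfalso
      rcases hx' with h2 | ⟨u, w, huw, -, hu, hw, h2, -⟩
      · have : a = d := hφ (mem_supp_left h) (hall d p.end_mem_support) (h1.symm.trans h2)
        exact hnot d p.end_mem_support this.symm
      · rcases hS _ _ huw x h2 with h3 | h3 | ⟨h3, h3'⟩
        · exact hnot u hu (hφ (hall u hu) (mem_supp_left h) (h3.symm.trans h1))
        · exact hnot w hw (hφ (hall w hw) (mem_supp_left h) (h3.symm.trans h1))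
        · exact h3' ⟨a, mem_supp_left h, h1.symm⟩
    · exact h1
    · exfalso
      rcases hx' with h2 | ⟨u, w, huw, -, hu, hw, h2, -⟩
      · exact h1' ⟨d, hall d p.end_mem_support, h2.symm⟩
      · rcases hS _ _ huw x h2 with h3 | h3 | ⟨h3, h3'⟩
        · exact h1' ⟨u, hall u hu, h3.symm⟩
        · exact h1' ⟨w, hall w hw, h3.symm⟩
        · rw [h1] at h3
          have : a ∈ s(u, w) := h3 ▸ Sym2.mem_mk_left a b
          rw [Sym2.mem_iff] at this
          rcases this with h4 | h4
          · exact hnot u hu h4.symm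
          · exact hnot w hw h4.symm

end Subst

/-- SUBSTITUTION LEMMA. -/
theorem HasTOK4s.subst {K : SimpleGraph V} {G : SimpleGraph W} (φ : V → W)
    (lab : W → Sym2 V) {cK : Sym2 V → ZMod 2} {cG : Sym2 W → ZMod 2}
    (hφ : Set.InjOn φ (supp K))
    (hR : ∀ u w, K.Adj u w → ∃ R : G.Walk (φ u) (φ w), R.IsPath ∧ wt cG R = cK s(u, w) ∧
      ∀ x ∈ R.support, x = φ u ∨ x = φ w ∨ (lab x = s(u, w) ∧ x ∉ φ '' supp K))
    (hK : HasTOK4s K cK) : HasTOK4s G cG := by
  choose R hR1 hR2 hR3 using hR
  obtain ⟨v, hv, P, hP, hd⟩ := hK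
  have hnonnil : ∀ i j : Fin 4, i < j → ∃ z, K.Adj (v i) z := by
    intro i j hij
    have hne : v i ≠ v j := fun h => (ne_of_lt hij) (hv h)
    obtain ⟨z, hz, -⟩ := exists_first_edge (P i j) hne
    exact ⟨z, hz⟩
  have hnonnil' : ∀ i j : Fin 4, i < j → ∃ z, K.Adj z (v j) := by
    intro i j hij
    have hne : v i ≠ v j := fun h => (ne_of_lt hij) (hv h)
    obtain ⟨z, hz, -⟩ := exists_last_edge (P i j) hne
    exact ⟨z, hz⟩
  have hvs : ∀ i : Fin 4, v i ∈ supp K := by
    intro i
    by_cases hi : i < 3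
    · exact hnonnil i 3 hi
    · obtain ⟨z, hz⟩ := hnonnil' 0 i (by omega)
      exact mem_supp_right hz
  have hall : ∀ i j : Fin 4, i < j → ∀ x ∈ (P i j).support, x ∈ supp K := fun i j _ =>
    mem_supp_of_mem_support _ (hvs i)
  -- every vertex of an expanded path lies on an expanded edge
  have hedge : ∀ i j : Fin 4, i < j → ∀ x ∈ (expand φ R (P i j)).support,
      ∃ u w, ∃ h : K.Adj u w, s(u, w) ∈ (P i j).edges ∧ u ∈ (P i j).support ∧
        w ∈ (P i j).support ∧ x ∈ (R u w h).support := by
    intro i j hij x hx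
    rw [mem_support_expand] at hx
    rcases hx with h1 | ⟨u, w, h, h1, h2, h3, h4, -⟩
    · have hne : v i ≠ v j := fun h => (ne_of_lt hij) (hv h)
      obtain ⟨z, hz, he⟩ := exists_last_edge (P i j) hne
      refine ⟨z, v j, hz, he, ?_, ?_, ?_⟩
      · exact Walk.fst_mem_support_of_mem_edges _ he
      · exact Walk.end_mem_support _
      · rw [h1]; exact Walk.end_mem_support _
    · exact ⟨u, w, h, h1, h2, h3, h4⟩
  refine ⟨fun i => φ (v i), fun i j hij => hv (hφ (hvs i) (hvs j) hij),
    fun i j => expand φ R (P i j), ?_, ?_⟩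
  · intro i j hij
    refine ⟨isPath_expand φ R lab hφ hR1 hR3 _ (hP i j hij).1, ?_⟩
    rw [wt_expand φ R cK cG hR2]
    exact (hP i j hij).2
  · intro i j k l hij hkl hne x hx hx'
    obtain ⟨u, w, h, he, hu, hw, hxu⟩ := hedge i j hij x hx
    obtain ⟨u', w', h', he', hu', hw', hxu'⟩ := hedge k l hkl x hx'
    -- a common vertex of both K-paths which maps to x
    have key : ∀ z, z ∈ (P i j).support → z ∈ (P k l).support → x = φ z →
        ((x = φ (v i) ∨ x = φ (v j)) ∧ (x = φ (v k) ∨ x = φ (v l))) := by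
      intro z h1 h2 h3
      obtain ⟨h4, h5⟩ := hd i j k l hij hkl hne z h1 h2
      constructor
      · rcases h4 with h4 | h4
        · left; rw [h3, h4]
        · right; rw [h3, h4]
      · rcases h5 with h5 | h5
        · left; rw [h3, h5]
        · right; rw [h3, h5]
    have hedgene : s(u, w) ≠ s(u', w') := by
      intro hh
      have hu2 : u ∈ (P k l).support := by
        have : u ∈ s(u', w') := hh ▸ Sym2.mem_mk_left u w
        rw [Sym2.mem_iff] at this
        rcases this with h4 | h4
        · exact h4 ▸ hu'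
        · exact h4 ▸ hw'
      have hw2 : w ∈ (P k l).support := by
        have : w ∈ s(u', w') := hh ▸ Sym2.mem_mk_right u w
        rw [Sym2.mem_iff] at this
        rcases this with h4 | h4
        · exact h4 ▸ hu'
        · exact h4 ▸ hw'
      have h1 := hd i j k l hij hkl hne u hu hu2
      have h2 := hd i j k l hij hkl hne w hw hw2
      have huw : u ≠ w := h.ne
      -- {u,w} = {v i, v j} = {v k, v l}
      have e1 : (u = v i ∧ w = v j) ∨ (u = v j ∧ w = v i) := by
        rcases h1.1 with h3 | h3 <;> rcases h2.1 with h4 | h4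
        · exact absurd (h3.trans h4.symm) huw
        · exact Or.inl ⟨h3, h4⟩
        · exact Or.inr ⟨h3, h4⟩
        · exact absurd (h3.trans h4.symm) huw
      have e2 : (u = v k ∧ w = v l) ∨ (u = v l ∧ w = v k) := by
        rcases h1.2 with h3 | h3 <;> rcases h2.2 with h4 | h4
        · exact absurd (h3.trans h4.symm) huw
        · exact Or.inl ⟨h3, h4⟩
        · exact Or.inr ⟨h3, h4⟩
        · exact absurd (h3.trans h4.symm) huw
      apply hne
      rcases e1 with ⟨a1, a2⟩ | ⟨a1, a2⟩ <;> rcases e2 with ⟨b1, b2⟩ | ⟨b1, b2⟩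
      · rw [hv (a1.symm.trans b1), hv (a2.symm.trans b2)]
      · exfalso
        have c1 : i = l := hv (a1.symm.trans b1)
        have c2 : j = k := hv (a2.symm.trans b2)
        subst c1 c2
        exact absurd hij (not_lt_of_gt hkl)
      · exfalso
        have c1 : j = k := hv (a1.symm.trans b1)
        have c2 : i = l := hv (a2.symm.trans b2)
        subst c1 c2
        exact absurd hij (not_lt_of_gt hkl)
      · rw [hv (a1.symm.trans b1), hv (a2.symm.trans b2)]
    have hsu := hall i j hij u hu
    have hsw := hall i j hij w hw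
    have hsu' := hall k l hkl u' hu'
    have hsw' := hall k l hkl w' hw'
    rcases hR3 _ _ h x hxu with h1 | h1 | ⟨h1, h1'⟩
    · rcases hR3 _ _ h' x hxu' with h2 | h2 | ⟨h2, h2'⟩
      · have e : u = u' := hφ hsu hsu' (h1.symm.trans h2)
        exact key u hu (e ▸ hu') h1
      · have e : u = w' := hφ hsu hsw' (h1.symm.trans h2)
        exact key u hu (e ▸ hw') h1
      · exact absurd ⟨u, hsu, h1.symm⟩ h2'
    · rcases hR3 _ _ h' x hxu' with h2 | h2 | ⟨h2, h2'⟩
      · have e : w = u' := hφ hsw hsu' (h1.symm.trans h2)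
        exact key w hw (e ▸ hu') h1
      · have e : w = w' := hφ hsw hsw' (h1.symm.trans h2)
        exact key w hw (e ▸ hw') h1
      · exact absurd ⟨w, hsw, h1.symm⟩ h2'
    · rcases hR3 _ _ h' x hxu' with h2 | h2 | ⟨h2, h2'⟩
      · exact absurd ⟨u', hsu', h2.symm⟩ h1'
      · exact absurd ⟨w', hsw', h2.symm⟩ h1'
      · exact absurd (h1.symm.trans h2) hedgene

end Pool.Agent.Helper57.TOK
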