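import Pool.Agent.Helper57.TOK.Basic

/-!
# A TOK4 lies in a subgraph of maximum degree three
-/

set_option autoImplicit false

namespace Pool.Agent.Helper57.TOK

open SimpleGraph

variable {V W : Type*}

/-- Neighbours of `x` along a walk. -/
def nb {G : SimpleGraph V} {a b : V} (p : G.Walk a b) (x : V) : Set V := {y | s(x, y) ∈ p.edges}

lemma nb_nil {G : SimpleGraph V} {a : V} (x : V) : nb (Walk.nil : G.Walk a a) x = ∅ := by
  ext y; simp [nb]

lemma nb_eq_empty {G : SimpleGraph V} {a b : V} (p : G.Walk a b) (x : V) (hx : x ∉ p.support) :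
    nb p x = ∅ := by
  ext y
  simp only [nb, Set.mem_ofPred_eq, Set.mem_empty_iff_false, iff_false]
  intro h
  exact hx (Walk.fst_mem_support_of_mem_edges _ h)

lemma nb_start {G : SimpleGraph V} {a b : V} (p : G.Walk a b) (hp : p.IsPath) :
    (nb p a).Finite ∧ (nb p a).ncard ≤ 1 := by
  cases p with
  | nil => rw [nb_nil]; simp
  | @cons _ z _ h q =>
    rw [Walk.cons_isPath_iff] at hp
    have hsub : nb (Walk.cons h q) a ⊆ {z} := by
      intro y hy
      simp only [nb, Set.mem_ofPred_eq, Walk.edges_cons, List.mem_cons] at hy
      rcases hy with hy | hy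
      · rw [Sym2.eq_iff] at hy
        rcases hy with ⟨-, h1⟩ | ⟨h1, h2⟩
        · exact h1
        · exact absurd h1 h.ne
      · exact absurd (Walk.fst_mem_support_of_mem_edges _ hy) hp.2
    refine ⟨(Set.finite_singleton z).subset hsub, ?_⟩
    calc (nb (Walk.cons h q) a).ncard ≤ ({z} : Set V).ncard :=
          Set.ncard_le_ncard hsub (Set.finite_singleton z)
      _ = 1 := Set.ncard_singleton z

lemma nb_reverse {G : SimpleGraph V} {a b : V} (p : G.Walk a b) (x : V) :
    nb p.reverse x = nb p x := by
  ext y; simp [nb]

lemma nb_end {G : SimpleGraph V} {a b : V} (p : G.Walk a b) (hp : p.IsPath) :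
    (nb p b).Finite ∧ (nb p b).ncard ≤ 1 := by
  rw [← nb_reverse]
  exact nb_start p.reverse hp.reverse

lemma nb_le_two {G : SimpleGraph V} {a b : V} (p : G.Walk a b) (hp : p.IsPath) (x : V) :
    (nb p x).Finite ∧ (nb p x).ncard ≤ 2 := by
  induction p with
  | nil => rw [nb_nil]; simp
  | @cons a z b h q ih =>
    have hp' := hp
    rw [Walk.cons_isPath_iff] at hp
    by_cases hxa : x = a
    · subst hxa
      have := nb_start _ hp'
      exact ⟨this.1, this.2.trans (by norm_num)⟩
    · by_cases hxz : x = z
      · subst hxz
        have h1 := nb_start q hp.1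
        have hsub : nb (Walk.cons h q) x ⊆ {a} ∪ nb q x := by
          intro y hy
          simp only [nb, Set.mem_ofPred_eq, Walk.edges_cons, List.mem_cons] at hy
          rcases hy with hy | hy
          · rw [Sym2.eq_iff] at hy
            rcases hy with ⟨h2, -⟩ | ⟨-, h2⟩
            · exact absurd h2 hxa
            · left; exact h2
          · right; exact hy
        have hfin : ({a} ∪ nb q x).Finite := (Set.finite_singleton a).union h1.1
        refine ⟨hfin.subset hsub, ?_⟩
        calc (nb (Walk.cons h q) x).ncard ≤ ({a} ∪ nb q x).ncard := Set.ncard_le_ncard hsub hfin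
          _ ≤ ({a} : Set V).ncard + (nb q x).ncard := Set.ncard_union_le _ _
          _ ≤ 1 + 1 := by
            rw [Set.ncard_singleton]
            exact Nat.add_le_add_left h1.2 1
      · have hsub : nb (Walk.cons h q) x ⊆ nb q x := by
          intro y hy
          simp only [nb, Set.mem_ofPred_eq, Walk.edges_cons, List.mem_cons] at hy
          rcases hy with hy | hy
          · rw [Sym2.eq_iff] at hy
            rcases hy with ⟨h2, -⟩ | ⟨h2, -⟩
            · exact absurd h2 hxa
            · exact absurd h2 hxz
          · exact hy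
        obtain ⟨h1, h2⟩ := ih hp.1
        exact ⟨h1.subset hsub, (Set.ncard_le_ncard hsub h1).trans h2⟩

/-- A TOK4 lies in a subgraph in which every vertex has at most three neighbours. -/
theorem HasTOK4s.exists_deg3 {G : SimpleGraph V} {c : Sym2 V → ZMod 2} (hG : HasTOK4s G c) :
    ∃ K : SimpleGraph V, K ≤ G ∧ HasTOK4s K c ∧
      ∀ x, (K.neighborSet x).Finite ∧ (K.neighborSet x).ncard ≤ 3 := by
  obtain ⟨v, hv, P, hP, hd⟩ := hG
  -- the subgraph
  let K : SimpleGraph V :=
    { Adj := fun a b => ∃ i j : Fin 4, i < j ∧ s(a, b) ∈ (P i j).edges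
      symm := ⟨fun a b ⟨i, j, hij, h⟩ => ⟨i, j, hij, by rw [Sym2.eq_swap]; exact h⟩⟩
      loopless := ⟨fun a ⟨i, j, hij, h⟩ => by
        have := Walk.edges_subset_edgeSet _ h
        simp at this⟩ }
  have hKadj : ∀ a b, K.Adj a b ↔ ∃ i j : Fin 4, i < j ∧ s(a, b) ∈ (P i j).edges :=
    fun _ _ => Iff.rfl
  have hKG : K ≤ G := by
    intro a b h
    obtain ⟨i, j, hij, h⟩ := h
    exact Walk.adj_of_mem_edges _ h
  have hbr : ∀ m i j : Fin 4, i < j → v m ∈ (P i j).support → m = i ∨ m = j := by
    intro m i j hij hm
    by_contra hcon
    push Not at hcon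
    obtain ⟨h1, h2⟩ := hcon
    -- another pair containing m
    have : ∃ k l : Fin 4, k < l ∧ (m = k ∨ m = l) := by
      by_cases h3 : m < 3
      · exact ⟨m, 3, h3, Or.inl rfl⟩
      · exact ⟨0, m, by omega, Or.inr rfl⟩
    obtain ⟨k, l, hkl, hm2⟩ := this
    have hne : (i, j) ≠ (k, l) := by
      intro h
      rw [Prod.mk.injEq] at h
      rcases hm2 with h4 | h4
      · exact h1 (h4.trans h.1.symm)
      · exact h2 (h4.trans h.2.symm)
    have hmem : v m ∈ (P k l).support := by
      rcases hm2 with h4 | h4
      · subst h4; exact Walk.start_mem_support _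
      · subst h4; exact Walk.end_mem_support _
    rcases (hd i j k l hij hkl hne (v m) hm hmem).1 with h5 | h5
    · exact h1 (hv h5)
    · exact h2 (hv h5)
  refine ⟨K, hKG, ?_, ?_⟩
  · -- K has the TOK4
    have htr : ∀ i j : Fin 4, i < j → ∀ e ∈ (P i j).edges, e ∈ K.edgeSet := by
      intro i j hij e he
      induction e using Sym2.ind with
      | _ a b => exact (SimpleGraph.mem_edgeSet K).2 ⟨i, j, hij, he⟩
    classical
    have hex : ∀ i j : Fin 4, ∃ Q : K.Walk (v i) (v j), i < j →
        (Q.IsPath ∧ wt c Q = 1 ∧ Q.support = (P i j).support) := by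
      intro i j
      by_cases hij : i < j
      · refine ⟨(P i j).transfer K (htr i j hij), fun _ => ⟨?_, ?_, ?_⟩⟩
        · exact (hP i j hij).1.transfer _
        · rw [wt_transfer]; exact (hP i j hij).2
        · exact Walk.support_transfer _ _
      · -- any walk: K is connected on the branch vertices
        have base : ∀ i j : Fin 4, i < j → K.Walk (v i) (v j) := fun i j hij =>
          (P i j).transfer K (htr i j hij)
        rcases lt_trichotomy i j with h | h | h
        · exact absurd h hij
        · subst h; exact ⟨Walk.nil, fun h => absurd h hij⟩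
        · exact ⟨(base j i h).reverse, fun h => absurd h hij⟩
    choose Q hQ using hex
    refine ⟨v, hv, Q, fun i j hij => ⟨(hQ i j hij).1, (hQ i j hij).2.1⟩, ?_⟩
    intro i j k l hij hkl hne x hx hx'
    rw [(hQ i j hij).2.2] at hx
    rw [(hQ k l hkl).2.2] at hx'
    exact hd i j k l hij hkl hne x hx hx'
  · intro x
    by_cases hx : ∃ m, x = v m
    · obtain ⟨m, rfl⟩ := hx
      -- the three paths at v m
      have hsub : K.neighborSet (v m) ⊆
          ⋃ i ∈ (Finset.univ.erase m : Finset (Fin 4)),
            (nb (P (min m i) (max m i)) (v m)) := by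
        intro y hy
        rw [SimpleGraph.mem_neighborSet, hKadj] at hy
        obtain ⟨i, j, hij, h⟩ := hy
        have hm := hbr m i j hij (Walk.fst_mem_support_of_mem_edges _ h)
        simp only [Set.mem_iUnion, Finset.mem_erase, Finset.mem_univ, and_true]
        rcases hm with h1 | h1
        · subst h1
          refine ⟨j, (ne_of_gt hij), ?_⟩
          have e1 : min m j = m := min_eq_left hij.le
          have e2 : max m j = j := max_eq_right hij.le
          show s(v m, y) ∈ (P (min m j) (max m j)).edges
          rw [e1, e2]; exact h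
        · subst h1
          refine ⟨i, (ne_of_lt hij), ?_⟩
          have e1 : min m i = i := min_eq_right hij.le
          have e2 : max m i = m := max_eq_left hij.le
          show s(v m, y) ∈ (P (min m i) (max m i)).edges
          rw [e1, e2]; exact h
      have hone : ∀ i ∈ (Finset.univ.erase m : Finset (Fin 4)),
          (nb (P (min m i) (max m i)) (v m)).Finite ∧
            (nb (P (min m i) (max m i)) (v m)).ncard ≤ 1 := by
        intro i hi
        rw [Finset.mem_erase] at hi
        rcases lt_or_gt_of_ne hi.1 with h1 | h1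
        · have e1 : min m i = i := min_eq_right h1.le
          have e2 : max m i = m := max_eq_left h1.le
          rw [e1, e2]
          exact nb_end _ (hP i m h1).1
        · have e1 : min m i = m := min_eq_left h1.le
          have e2 : max m i = i := max_eq_right h1.le
          rw [e1, e2]
          exact nb_start _ (hP m i h1).1
      have hfin : (⋃ i ∈ (Finset.univ.erase m : Finset (Fin 4)),
            (nb (P (min m i) (max m i)) (v m))).Finite :=
        Set.Finite.biUnion (Finset.finite_toSet _) (fun i hi => (hone i hi).1)
      refine ⟨hfin.subset hsub, ?_⟩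
      have hcard : (⋃ i ∈ (Finset.univ.erase m : Finset (Fin 4)),
            (nb (P (min m i) (max m i)) (v m))).ncard ≤
            ∑ i ∈ (Finset.univ.erase m : Finset (Fin 4)), 1 := by
        refine le_trans (Finset.set_ncard_biUnion_le _ _) ?_
        exact Finset.sum_le_sum (fun i hi => (hone i hi).2)
      have : ∑ i ∈ (Finset.univ.erase m : Finset (Fin 4)), 1 = 3 := by
        simp
      rw [this] at hcard
      exact (Set.ncard_le_ncard hsub hfin).trans hcard
    · push Not at hx
      by_cases hxs : ∃ i j : Fin 4, i < j ∧ x ∈ (P i j).support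
      · obtain ⟨i, j, hij, hxs⟩ := hxs
        have hsub : K.neighborSet x ⊆ nb (P i j) x := by
          intro y hy
          rw [SimpleGraph.mem_neighborSet, hKadj] at hy
          obtain ⟨k, l, hkl, h⟩ := hy
          by_cases hne : (i, j) = (k, l)
          · rw [Prod.mk.injEq] at hne
            obtain ⟨h1, h2⟩ := hne
            subst h1 h2
            exact h
          · exfalso
            have := (hd i j k l hij hkl hne x hxs (Walk.fst_mem_support_of_mem_edges _ h)).1
            rcases this with h1 | h1
            · exact hx _ h1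
            · exact hx _ h1
        obtain ⟨h1, h2⟩ := nb_le_two _ (hP i j hij).1 x
        exact ⟨h1.subset hsub, (Set.ncard_le_ncard hsub h1).trans (h2.trans (by norm_num))⟩
      · push Not at hxs
        have : K.neighborSet x = ∅ := by
          ext y
          simp only [Set.mem_empty_iff_false, iff_false]
          intro hy
          rw [SimpleGraph.mem_neighborSet, hKadj] at hy
          obtain ⟨i, j, hij, h⟩ := hy
          exact hxs i j hij (Walk.fst_mem_support_of_mem_edges _ h)
        rw [this]; simp

end Pool.Agent.Helper57.TOK
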