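import Pool.Agent.Helper57.TOK.Deg3

/-!
# The fold lemma

`foldG G y a b` is `(G - y) / (a = b)`, written on the same vertex type: the vertices `y` and `b`
become isolated and `a` takes over the neighbours of `b`. If `a, b` are neighbours of `y` and
the two edges `ya`, `yb` have the same label, then a TOK4 of the fold gives a TOK4 of `G`.
-/

set_option autoImplicit false

namespace Pool.Agent.Helper57.TOK

open SimpleGraph

variable {V W : Type*}

lemma exists_edge_walk {G : SimpleGraph V} (cG : Sym2 V → ZMod 2) {a b : V} (h : G.Adj a b) :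
    ∃ R : G.Walk a b, R.IsPath ∧ wt cG R = cG s(a, b) ∧ R.support = [a, b] := by
  refine ⟨Walk.cons h Walk.nil, ?_, ?_, ?_⟩
  · rw [Walk.cons_isPath_iff]
    refine ⟨Walk.IsPath.nil, ?_⟩
    simp [h.ne]
  · simp
  · simp

lemma exists_three_walk {G : SimpleGraph V} (cG : Sym2 V → ZMod 2) {p y b s : V}
    (h1 : G.Adj p y) (h2 : G.Adj y b) (h3 : G.Adj b s) (hpb : p ≠ b) (hps : p ≠ s)
    (hys : y ≠ s) :
    ∃ R : G.Walk p s, R.IsPath ∧ wt cG R = cG s(p, y) + (cG s(y, b) + cG s(b, s)) ∧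
      R.support = [p, y, b, s] := by
  refine ⟨Walk.cons h1 (Walk.cons h2 (Walk.cons h3 Walk.nil)), ?_, ?_, ?_⟩
  · simp only [Walk.cons_isPath_iff, Walk.support_cons, Walk.support_nil, List.mem_cons,
      List.not_mem_nil, or_false]
    refine ⟨⟨⟨Walk.IsPath.nil, ?_⟩, ?_⟩, ?_⟩
    · exact h3.ne
    · push Not; exact ⟨h2.ne, hys⟩
    · push Not; exact ⟨h1.ne, hpb, hps⟩
  · simp
  · simp

/-- Lifting a TOK4 through the splitting of one vertex `q` into `p - y - b`, where at most one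
edge at `q` is attached to `b`. -/
theorem HasTOK4s.split {K G : SimpleGraph V} {cK cG : Sym2 V → ZMod 2} {q p y b s0 : V}
    (hpy : G.Adj p y) (hyb : G.Adj y b) (hpb : p ≠ b) (hw : cG s(p, y) + cG s(y, b) = 0)
    (hyK : y ∉ supp K) (hbK : b ∉ supp K ∨ b = q) (hpK : p ∉ supp K ∨ p = q)
    (hout : ∀ u w, K.Adj u w → u ≠ q → w ≠ q → G.Adj u w ∧ cG s(u, w) = cK s(u, w))
    (hq : ∀ w, K.Adj q w → w ≠ s0 → G.Adj p w ∧ cG s(p, w) = cK s(q, w))
    (hs : K.Adj q s0 → (G.Adj p s0 ∧ cG s(p, s0) = cK s(q, s0)) ∨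
      (G.Adj b s0 ∧ cG s(b, s0) = cK s(q, s0)))
    (hK : HasTOK4s K cK) : HasTOK4s G cG := by
  classical
  let φ : V → V := fun x => if x = q then p else x
  have hφq : φ q = p := if_pos rfl
  have hφn : ∀ x, x ≠ q → φ x = x := fun x hx => if_neg hx
  have himy : y ∉ φ '' supp K := by
    rintro ⟨z, hz, hzy⟩
    by_cases h : z = q
    · subst h; rw [hφq] at hzy; exact hpy.ne hzy
    · rw [hφn z h] at hzy; exact hyK (hzy ▸ hz)
  have himb : b ∉ φ '' supp K := by
    rintro ⟨z, hz, hzy⟩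
    by_cases h : z = q
    · subst h; rw [hφq] at hzy; exact hpb hzy
    · rw [hφn z h] at hzy
      rcases hbK with h1 | h1
      · exact h1 (hzy ▸ hz)
      · exact h (hzy.trans h1)
  -- walks at q
  have hwq : ∀ w, K.Adj q w → ∃ R : G.Walk p w, R.IsPath ∧ wt cG R = cK s(q, w) ∧
      ∀ x ∈ R.support, x = p ∨ x = w ∨ (s(q, s0) = s(q, w) ∧ x ∉ φ '' supp K) := by
    intro w hqw
    by_cases h : G.Adj p w ∧ cG s(p, w) = cK s(q, w)
    · obtain ⟨R, h1, h2, h3⟩ := exists_edge_walk cG h.1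
      refine ⟨R, h1, h2.trans h.2, ?_⟩
      intro x hx
      rw [h3] at hx
      simp only [List.mem_cons, List.not_mem_nil, or_false] at hx
      rcases hx with hx | hx
      · exact Or.inl hx
      · exact Or.inr (Or.inl hx)
    · have hws : w = s0 := by
        by_contra hne
        exact h (hq w hqw hne)
      subst hws
      rcases hs hqw with h' | h'
      · exact absurd h' h
      · have hsw : w ≠ y := fun hh => hyK (hh ▸ mem_supp_right hqw)
        have hpw : p ≠ w := by
          intro hh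
          rcases hpK with h4 | h4
          · exact h4 (hh ▸ mem_supp_right hqw)
          · exact hqw.ne (h4.symm.trans hh)
        obtain ⟨R, h1, h2, h3⟩ := exists_three_walk cG hpy hyb h'.1 hpb hpw (Ne.symm hsw)
        refine ⟨R, h1, ?_, ?_⟩
        · rw [h2, ← add_assoc, hw, zero_add, h'.2]
        · intro x hx
          rw [h3] at hx
          simp only [List.mem_cons, List.not_mem_nil, or_false] at hx
          rcases hx with hx | hx | hx | hx
          · exact Or.inl hx
          · right; right; subst hx; exact ⟨rfl, himy⟩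
          · right; right; subst hx; exact ⟨rfl, himb⟩
          · exact Or.inr (Or.inl hx)
  refine HasTOK4s.subst (cK := cK) φ (fun _ => s(q, s0)) ?_ ?_ hK
  · intro x hx x' hx' hxx
    by_cases h : x = q
    · by_cases h' : x' = q
      · rw [h, h']
      · rw [h, hφq, hφn x' h'] at hxx
        rcases hpK with h1 | h1
        · exact absurd hx' (hxx ▸ h1)
        · exact absurd (hxx.symm.trans h1) h'
    · by_cases h' : x' = q
      · rw [h', hφq, hφn x h] at hxx
        rcases hpK with h1 | h1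
        · exact absurd hx (hxx ▸ h1)
        · exact absurd (hxx.trans h1) h
      · rw [hφn x h, hφn x' h'] at hxx; exact hxx
  · intro u w huw
    by_cases hu : u = q
    · subst hu
      have hw' : w ≠ u := huw.ne.symm
      obtain ⟨R, h1, h2, h3⟩ := hwq w huw
      refine ⟨R.copy hφq.symm (hφn w hw').symm, ?_, ?_, ?_⟩
      · simpa using h1
      · rw [wt_copy]; exact h2
      · intro x hx
        rw [Walk.support_copy] at hx
        rw [hφq, hφn w hw']
        exact h3 x hx
    · by_cases hw' : w = q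
      · subst hw'
        obtain ⟨R, h1, h2, h3⟩ := hwq u huw.symm
        refine ⟨R.reverse.copy (hφn u hu).symm hφq.symm, ?_, ?_, ?_⟩
        · simpa using h1
        · rw [wt_copy, wt_reverse, h2, Sym2.eq_swap]
        · intro x hx
          rw [Walk.support_copy, Walk.support_reverse, List.mem_reverse] at hx
          rw [hφq, hφn u hu]
          rcases h3 x hx with h4 | h4 | ⟨h4, h5⟩
          · exact Or.inr (Or.inl h4)
          · exact Or.inl h4
          · exact Or.inr (Or.inr ⟨h4.trans Sym2.eq_swap, h5⟩)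
      · obtain ⟨h1, h2⟩ := hout u w huw hu hw'
        obtain ⟨R, h3, h4, h5⟩ := exists_edge_walk cG h1
        refine ⟨R.copy (hφn u hu).symm (hφn w hw').symm, ?_, ?_, ?_⟩
        · simpa using h3
        · rw [wt_copy]; exact h4.trans h2
        · intro x hx
          rw [Walk.support_copy, h5] at hx
          rw [hφn u hu, hφn w hw']
          simp only [List.mem_cons, List.not_mem_nil, or_false] at hx
          rcases hx with hx | hx
          · exact Or.inl hx
          · exact Or.inr (Or.inl hx)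

/-- The fold `(G - y) / (a = b)` on the same vertex type. -/
def foldG (G : SimpleGraph V) (y a b : V) : SimpleGraph V where
  Adj u w := u ≠ w ∧ u ≠ y ∧ w ≠ y ∧ u ≠ b ∧ w ≠ b ∧
    (G.Adj u w ∨ (u = a ∧ G.Adj b w) ∨ (w = a ∧ G.Adj b u))
  symm := ⟨by
    rintro u w ⟨h1, h2, h3, h4, h5, h6⟩
    refine ⟨h1.symm, h3, h2, h5, h4, ?_⟩
    rcases h6 with h6 | h6 | h6
    · exact Or.inl h6.symm
    · exact Or.inr (Or.inr h6)
    · exact Or.inr (Or.inl h6)⟩
  loopless := ⟨fun u h => h.1 rfl⟩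

lemma foldG_adj {G : SimpleGraph V} {y a b u w : V} : (foldG G y a b).Adj u w ↔
    u ≠ w ∧ u ≠ y ∧ w ≠ y ∧ u ≠ b ∧ w ≠ b ∧
      (G.Adj u w ∨ (u = a ∧ G.Adj b w) ∨ (w = a ∧ G.Adj b u)) := Iff.rfl

/-- FOLD LEMMA with labels. -/
theorem HasTOK4s.of_foldG {G : SimpleGraph V} {c c' : Sym2 V → ZMod 2} {y a b : V}
    (hab : a ≠ b) (hya : G.Adj y a) (hyb : G.Adj y b) (hw : c s(y, a) = c s(y, b))
    (h1 : ∀ w, w ≠ y → w ≠ b → G.Adj a w → c' s(a, w) = c s(a, w))
    (h2 : ∀ w, w ≠ y → w ≠ a → ¬ G.Adj a w → G.Adj b w → c' s(a, w) = c s(b, w))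
    (h3 : ∀ u w, u ≠ a → w ≠ a → G.Adj u w → c' s(u, w) = c s(u, w))
    (hK : HasTOK4s (foldG G y a b) c') : HasTOK4s G c := by
  classical
  obtain ⟨K, hKle, hK, hdeg⟩ := hK.exists_deg3
  have hyK : y ∉ supp K := fun ⟨w, hw⟩ => (foldG_adj.1 (hKle hw)).2.1 rfl
  have hbK : b ∉ supp K := fun ⟨w, hw⟩ => (foldG_adj.1 (hKle hw)).2.2.2.1 rfl
  have hsum : c s(a, y) + c s(y, b) = 0 := by
    rw [Sym2.eq_swap (a := a), hw]; exact CharTwo.add_self_eq_zero _
  have hsum' : c s(b, y) + c s(y, a) = 0 := by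
    rw [Sym2.eq_swap (a := b), hw]; exact CharTwo.add_self_eq_zero _
  have hKa : ∀ w, K.Adj a w → w ≠ y ∧ w ≠ b ∧ w ≠ a ∧ (G.Adj a w ∨ G.Adj b w) := by
    intro w hw'
    obtain ⟨g1, g2, g3, g4, g5, g6⟩ := foldG_adj.1 (hKle hw')
    refine ⟨g3, g5, g1.symm, ?_⟩
    rcases g6 with g6 | g6 | g6
    · exact Or.inl g6
    · exact Or.inr g6.2
    · exact absurd g6.1.symm g1
  have hout : ∀ u w, K.Adj u w → u ≠ a → w ≠ a → G.Adj u w ∧ c s(u, w) = c' s(u, w) := by
    intro u w huw hu hw'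
    obtain ⟨g1, g2, g3, g4, g5, g6⟩ := foldG_adj.1 (hKle huw)
    have : G.Adj u w := by
      rcases g6 with g6 | g6 | g6
      · exact g6
      · exact absurd g6.1 hu
      · exact absurd g6.1 hw'
    exact ⟨this, (h3 u w hu hw' this).symm⟩
  -- at most one neighbour of one of the two kinds
  have hdich : (∃ s0, ∀ w, K.Adj a w → ¬ G.Adj a w → w = s0) ∨
      (∃ s0, ∀ w, K.Adj a w → G.Adj a w → w = s0) := by
    by_contra hcon
    push Not at hcon
    obtain ⟨hc1, hc2⟩ := hcon
    obtain ⟨w1, hw1, hw1', -⟩ := hc1 a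
    obtain ⟨w2, hw2, hw2', hne12⟩ := hc1 w1
    obtain ⟨w3, hw3, hw3', -⟩ := hc2 a
    obtain ⟨w4, hw4, hw4', hne34⟩ := hc2 w3
    have hsub : (({w1, w2, w3, w4} : Finset V) : Set V) ⊆ K.neighborSet a := by
      intro x hx
      simp only [Finset.coe_insert, Finset.coe_singleton, Set.mem_insert_iff,
        Set.mem_singleton_iff] at hx
      rcases hx with rfl | rfl | rfl | rfl
      · exact hw1
      · exact hw2
      · exact hw3
      · exact hw4
    have hcard : (({w1, w2, w3, w4} : Finset V)).card = 4 := by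
      have n13 : w1 ≠ w3 := fun h => hw1' (h ▸ hw3')
      have n14 : w1 ≠ w4 := fun h => hw1' (h ▸ hw4')
      have n23 : w2 ≠ w3 := fun h => hw2' (h ▸ hw3')
      have n24 : w2 ≠ w4 := fun h => hw2' (h ▸ hw4')
      rw [Finset.card_insert_of_notMem, Finset.card_insert_of_notMem,
        Finset.card_insert_of_notMem, Finset.card_singleton]
      · simpa using hne34.symm
      · simp [n23, n24]
      · simp [n13, n14, hne12.symm]
    have := Set.ncard_le_ncard hsub (hdeg a).1
    rw [Set.ncard_coe_finset, hcard] at this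
    exact absurd (this.trans (hdeg a).2) (by norm_num)
  rcases hdich with ⟨s0, hs0⟩ | ⟨s0, hs0⟩
  · -- realised by a, one edge via y, b
    refine HasTOK4s.split (q := a) (p := a) (y := y) (b := b) (s0 := s0) (cK := c')
      hya.symm hyb hab hsum hyK (Or.inl hbK) (Or.inr rfl) hout ?_ ?_ hK
    · intro w hw1 hw2
      have hG : G.Adj a w := by
        by_contra h
        exact hw2 (hs0 w hw1 h)
      obtain ⟨g1, g2, g3, -⟩ := hKa w hw1
      exact ⟨hG, (h1 w g1 g2 hG).symm⟩
    · intro hw1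
      obtain ⟨g1, g2, g3, g4⟩ := hKa s0 hw1
      by_cases hG : G.Adj a s0
      · exact Or.inl ⟨hG, (h1 s0 g1 g2 hG).symm⟩
      · rcases g4 with g4 | g4
        · exact absurd g4 hG
        · exact Or.inr ⟨g4, (h2 s0 g1 g3 hG g4).symm⟩
  · -- realised by b
    refine HasTOK4s.split (q := a) (p := b) (y := y) (b := a) (s0 := s0) (cK := c')
      hyb.symm hya hab.symm hsum' hyK (Or.inr rfl) (Or.inl hbK) hout ?_ ?_ hK
    · intro w hw1 hw2
      have hG : ¬ G.Adj a w := fun h => hw2 (hs0 w hw1 h)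
      obtain ⟨g1, g2, g3, g4⟩ := hKa w hw1
      rcases g4 with g4 | g4
      · exact absurd g4 hG
      · exact ⟨g4, (h2 w g1 g3 hG g4).symm⟩
    · intro hw1
      obtain ⟨g1, g2, g3, g4⟩ := hKa s0 hw1
      by_cases hG : G.Adj a s0
      · exact Or.inr ⟨hG, (h1 s0 g1 g2 hG).symm⟩
      · rcases g4 with g4 | g4
        · exact absurd g4 hG
        · exact Or.inl ⟨g4, (h2 s0 g1 g3 hG g4).symm⟩

/-- FOLD LEMMA. -/
theorem HasTOK4.of_foldG {G : SimpleGraph V} {y a b : V} (hab : a ≠ b) (hya : G.Adj y a)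
    (hyb : G.Adj y b) (h : HasTOK4 (foldG G y a b)) : HasTOK4 G := by
  rw [hasTOK4_iff] at h ⊢
  exact HasTOK4s.of_foldG hab hya hyb rfl (fun _ _ _ _ => rfl) (fun _ _ _ _ _ => rfl)
    (fun _ _ _ _ _ => rfl) h

end Pool.Agent.Helper57.TOK
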