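import Pool.Agent.Helper57.TOK.Fold

/-!
# Coloured frames

`Z` is a graph with a (proper) 2-colouring `κ : V → ZMod 2`, and `a, b, u, v` are four vertices.
`Frame Z κ a b u v` is a coloured frame for the pairing `{a,b} | {u,v}`: the graph `Z` plus the
two virtual edges `ab`, `uv` with labels `1 + κ a + κ b`, `1 + κ u + κ v` has a TOK4.
(For proper `κ` the two virtual edges must then lie on opposite paths of the TOK4, which is an
even cycle of `Z` with four odd arcs and four disjoint legs.)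
-/

set_option autoImplicit false

namespace Pool.Agent.Helper57.TOK

open SimpleGraph

variable {V W : Type*}

/-- `κ` is a proper colouring with two colours. -/
def Proper (Z : SimpleGraph V) (κ : V → ZMod 2) : Prop := ∀ u v, Z.Adj u v → κ u + κ v = 1

/-- Label of a virtual edge. -/
def vl (κ : V → ZMod 2) (a b : V) : ZMod 2 := 1 + κ a + κ b

lemma vl_comm (κ : V → ZMod 2) (a b : V) : vl κ a b = vl κ b a := by
  unfold vl; ring

/-- Label of a virtual edge, on unordered pairs. -/
def vlab (κ : V → ZMod 2) : Sym2 V → ZMod 2 :=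
  Sym2.lift ⟨fun a b => vl κ a b, fun a b => vl_comm κ a b⟩

@[simp] lemma vlab_mk (κ : V → ZMod 2) (a b : V) : vlab κ s(a, b) = vl κ a b := rfl

open Classical in
/-- Labels of the augmented graph: one on `Z`, the virtual label elsewhere. -/
noncomputable def cF (Z : SimpleGraph V) (κ : V → ZMod 2) : Sym2 V → ZMod 2 :=
  fun e => if e ∈ Z.edgeSet then 1 else vlab κ e

lemma cF_of_adj {Z : SimpleGraph V} {κ : V → ZMod 2} {a b : V} (h : Z.Adj a b) :
    cF Z κ s(a, b) = 1 := if_pos ((SimpleGraph.mem_edgeSet Z).2 h)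

lemma cF_of_not_adj {Z : SimpleGraph V} {κ : V → ZMod 2} {a b : V} (h : ¬ Z.Adj a b) :
    cF Z κ s(a, b) = vl κ a b := if_neg (fun h' => h ((SimpleGraph.mem_edgeSet Z).1 h'))

/-- `Z` plus the two virtual edges. -/
def frameG (Z : SimpleGraph V) (a b u v : V) : SimpleGraph V where
  Adj x y := x ≠ y ∧ (Z.Adj x y ∨ s(x, y) = s(a, b) ∨ s(x, y) = s(u, v))
  symm := ⟨by
    rintro x y ⟨h1, h2⟩
    refine ⟨h1.symm, ?_⟩
    rw [Sym2.eq_swap (a := y)]
    exact h2.imp_left (fun h => h.symm)⟩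
  loopless := ⟨fun x h => h.1 rfl⟩

lemma frameG_adj {Z : SimpleGraph V} {a b u v x y : V} : (frameG Z a b u v).Adj x y ↔
    x ≠ y ∧ (Z.Adj x y ∨ s(x, y) = s(a, b) ∨ s(x, y) = s(u, v)) := Iff.rfl

lemma le_frameG (Z : SimpleGraph V) (a b u v : V) : Z ≤ frameG Z a b u v :=
  fun _ _ h => ⟨h.ne, Or.inl h⟩

/-- Coloured frame for the pairing `{a,b} | {u,v}`. -/
def Frame (Z : SimpleGraph V) (κ : V → ZMod 2) (a b u v : V) : Prop :=
  HasTOK4s (frameG Z a b u v) (cF Z κ)

lemma frameG_swap (Z : SimpleGraph V) (a b u v : V) : frameG Z a b u v = frameG Z u v a b := by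
  ext x y
  simp only [frameG_adj]
  tauto

lemma frameG_swap_left (Z : SimpleGraph V) (a b u v : V) :
    frameG Z a b u v = frameG Z b a u v := by
  ext x y
  simp only [frameG_adj, Sym2.eq_swap (a := a)]

lemma Frame.swap {Z : SimpleGraph V} {κ : V → ZMod 2} {a b u v : V} (h : Frame Z κ a b u v) :
    Frame Z κ u v a b := by
  unfold Frame at h ⊢
  rwa [frameG_swap]

lemma Frame.swap_left {Z : SimpleGraph V} {κ : V → ZMod 2} {a b u v : V}
    (h : Frame Z κ a b u v) : Frame Z κ b a u v := by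
  unfold Frame at h ⊢
  rwa [frameG_swap_left]

lemma Frame.swap_right {Z : SimpleGraph V} {κ : V → ZMod 2} {a b u v : V}
    (h : Frame Z κ a b u v) : Frame Z κ a b v u := h.swap.swap_left.swap

/-- Frames are monotone in `Z`, as long as the virtual edges do not become edges. -/
lemma Frame.mono {Z Z' : SimpleGraph V} {κ : V → ZMod 2} {a b u v : V} (hle : Z ≤ Z')
    (hab : ¬ Z'.Adj a b) (huv : ¬ Z'.Adj u v) (h : Frame Z κ a b u v) :
    Frame Z' κ a b u v := by
  unfold Frame at h ⊢
  refine HasTOK4s.mono ?_ ?_ h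
  · rintro x y ⟨h1, h2⟩
    exact ⟨h1, h2.imp_left (fun h => hle h)⟩
  · intro e he
    induction e using Sym2.ind with
    | _ x y =>
      rw [SimpleGraph.mem_edgeSet, frameG_adj] at he
      rcases he.2 with h1 | h1 | h1
      · rw [cF_of_adj h1, cF_of_adj (hle h1)]
      · rw [h1, cF_of_not_adj hab, cF_of_not_adj (fun hh => hab (hle hh))]
      · rw [h1, cF_of_not_adj huv, cF_of_not_adj (fun hh => huv (hle hh))]

/-- The colouring matters only on the four terminals. -/
lemma Frame.congr_colour {Z : SimpleGraph V} {κ κ' : V → ZMod 2} {a b u v : V}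
    (hab : vl κ a b = vl κ' a b) (huv : vl κ u v = vl κ' u v)
    (h : Frame Z κ a b u v) : Frame Z κ' a b u v := by
  unfold Frame at h ⊢
  refine HasTOK4s.mono le_rfl ?_ h
  intro e he
  induction e using Sym2.ind with
  | _ x y =>
    rw [SimpleGraph.mem_edgeSet, frameG_adj] at he
    by_cases hadj : Z.Adj x y
    · rw [cF_of_adj hadj, cF_of_adj hadj]
    · rw [cF_of_not_adj hadj, cF_of_not_adj hadj]
      rcases he.2 with h1 | h1 | h1
      · exact absurd h1 hadj
      · rw [Sym2.eq_iff] at h1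
        rcases h1 with ⟨rfl, rfl⟩ | ⟨rfl, rfl⟩
        · exact hab
        · rw [vl_comm κ, vl_comm κ']; exact hab
      · rw [Sym2.eq_iff] at h1
        rcases h1 with ⟨rfl, rfl⟩ | ⟨rfl, rfl⟩
        · exact huv
        · rw [vl_comm κ, vl_comm κ']; exact huv

/-- In a properly coloured graph the length of a walk is determined by the colours. -/
lemma wt_one_of_proper {Z : SimpleGraph V} {κ : V → ZMod 2} (hκ : Proper Z κ) {a b : V}
    (p : Z.Walk a b) : wt (fun _ => (1 : ZMod 2)) p = κ a + κ b := by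
  induction p with
  | nil => simp only [wt_nil]; exact (CharTwo.add_self_eq_zero _).symm
  | @cons a z b h p ih =>
    rw [wt_cons, ih]
    have h1 := hκ _ _ h
    have h2 : κ z + κ z = 0 := CharTwo.add_self_eq_zero _
    calc (1 : ZMod 2) + (κ z + κ b) = (κ a + κ z) + (κ z + κ b) := by rw [h1]
      _ = κ a + κ b + (κ z + κ z) := by ring
      _ = κ a + κ b := by rw [h2, add_zero]

lemma wt_of_proper {Z : SimpleGraph V} {κ : V → ZMod 2} (hκ : Proper Z κ)
    {c : Sym2 V → ZMod 2} (hc : ∀ e ∈ Z.edgeSet, c e = 1) {a b : V}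
    (p : Z.Walk a b) : wt c p = κ a + κ b := by
  rw [← wt_one_of_proper hκ p]
  exact wt_congr _ _ p (fun e he => hc e (Walk.edges_subset_edgeSet _ he))

/-- REALISATION OF THE VIRTUAL EDGES: if `Z ≤ G` has a coloured frame and `G` has two disjoint
paths `P : a - b`, `Q : u - v` with the virtual labels, internally disjoint from `Z`, then `G`
has a TOK4. -/
theorem Frame.realize {Z G : SimpleGraph V} {κ : V → ZMod 2} {cG : Sym2 V → ZMod 2}
    {a b u v : V} (hZG : Z ≤ G) (hc : ∀ e ∈ Z.edgeSet, cG e = 1)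
    (P : G.Walk a b) (Q : G.Walk u v) (hP : P.IsPath) (hQ : Q.IsPath)
    (hPw : wt cG P = vl κ a b) (hQw : wt cG Q = vl κ u v)
    (hPQ : ∀ x, x ∈ P.support → x ∉ Q.support)
    (hPZ : ∀ x ∈ P.support, x ∈ supp Z → x = a ∨ x = b)
    (hQZ : ∀ x ∈ Q.support, x ∈ supp Z → x = u ∨ x = v)
    (hF : Frame Z κ a b u v) : HasTOK4s G cG := by
  classical
  have hsupp : ∀ x, x ∈ supp (frameG Z a b u v) → x ∈ supp Z ∨ x = a ∨ x = b ∨ x = u ∨ x = v := by
    rintro x ⟨w, h1, h2 | h2 | h2⟩
    · exact Or.inl ⟨w, h2⟩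
    · rw [Sym2.eq_iff] at h2
      rcases h2 with ⟨h3, -⟩ | ⟨h3, -⟩
      · exact Or.inr (Or.inl h3)
      · exact Or.inr (Or.inr (Or.inl h3))
    · rw [Sym2.eq_iff] at h2
      rcases h2 with ⟨h3, -⟩ | ⟨h3, -⟩
      · exact Or.inr (Or.inr (Or.inr (Or.inl h3)))
      · exact Or.inr (Or.inr (Or.inr (Or.inr h3)))
  have hPmem : ∀ x ∈ P.support, x ∈ supp (frameG Z a b u v) → x = a ∨ x = b := by
    intro x hx hxs
    rcases hsupp x hxs with h | h | h | h | h
    · exact hPZ x hx h
    · exact Or.inl h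
    · exact Or.inr h
    · exact absurd (h ▸ Q.start_mem_support) (hPQ x hx)
    · exact absurd (h ▸ Q.end_mem_support) (hPQ x hx)
  have hQmem : ∀ x ∈ Q.support, x ∈ supp (frameG Z a b u v) → x = u ∨ x = v := by
    intro x hx hxs
    rcases hsupp x hxs with h | h | h | h | h
    · exact hQZ x hx h
    · exact absurd hx (hPQ x (h ▸ P.start_mem_support))
    · exact absurd hx (hPQ x (h ▸ P.end_mem_support))
    · exact Or.inl h
    · exact Or.inr h
  refine HasTOK4s.subst (K := frameG Z a b u v) (G := G) (cK := cF Z κ) (fun x => x)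
    (fun x => if x ∈ P.support then s(a, b) else s(u, v)) (fun x _ y _ h => h) ?_ hF
  intro x y hxy
  have hZcase : Z.Adj x y → ∃ R : G.Walk x y, R.IsPath ∧ wt cG R = cF Z κ s(x, y) ∧
      ∀ z ∈ R.support, z = x ∨ z = y ∨
        ((if z ∈ P.support then s(a, b) else s(u, v)) = s(x, y) ∧
          z ∉ (fun x => x) '' supp (frameG Z a b u v)) := by
    intro h
    obtain ⟨R, h1, h2, h3⟩ := exists_edge_walk cG (hZG h)
    refine ⟨R, h1, ?_, ?_⟩
    · rw [h2, cF_of_adj h]
      exact hc _ ((SimpleGraph.mem_edgeSet Z).2 h)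
    · intro z hz
      rw [h3] at hz
      simp only [List.mem_cons, List.not_mem_nil, or_false] at hz
      rcases hz with hz | hz
      · exact Or.inl hz
      · exact Or.inr (Or.inl hz)
  -- a generic construction for a virtual edge
  have hvirt : ∀ (p q : V) (R : G.Walk p q), R.IsPath → wt cG R = vl κ p q →
      (∀ z ∈ R.support, z ∈ supp (frameG Z a b u v) → z = p ∨ z = q) →
      (∀ z ∈ R.support, (if z ∈ P.support then s(a, b) else s(u, v)) = s(p, q)) →
      s(x, y) = s(p, q) → ¬ Z.Adj x y →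
      ∃ R : G.Walk x y, R.IsPath ∧ wt cG R = cF Z κ s(x, y) ∧
      ∀ z ∈ R.support, z = x ∨ z = y ∨
        ((if z ∈ P.support then s(a, b) else s(u, v)) = s(x, y) ∧
          z ∉ (fun x => x) '' supp (frameG Z a b u v)) := by
    intro p q R hR hRw hRm hRl he hn
    have hlab : ∀ z ∈ R.support, z = p ∨ z = q ∨
        ((if z ∈ P.support then s(a, b) else s(u, v)) = s(p, q) ∧
          z ∉ (fun x => x) '' supp (frameG Z a b u v)) := by
      intro z hz
      by_cases h1 : z ∈ supp (frameG Z a b u v)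
      · rcases hRm z hz h1 with h2 | h2
        · exact Or.inl h2
        · exact Or.inr (Or.inl h2)
      · refine Or.inr (Or.inr ⟨hRl z hz, ?_⟩)
        rintro ⟨w, hw, hwz⟩
        have hwz' : w = z := hwz
        exact h1 (hwz' ▸ hw)
    rw [Sym2.eq_iff] at he
    rcases he with ⟨e1, e2⟩ | ⟨e1, e2⟩
    · subst e1 e2
      exact ⟨R, hR, by rw [hRw, cF_of_not_adj hn], hlab⟩
    · subst e1 e2
      refine ⟨R.reverse, hR.reverse, ?_, ?_⟩
      · rw [wt_reverse, hRw, cF_of_not_adj hn, vl_comm]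
      · intro z hz
        rw [Walk.support_reverse, List.mem_reverse] at hz
        rcases hlab z hz with h | h | h
        · exact Or.inr (Or.inl h)
        · exact Or.inl h
        · exact Or.inr (Or.inr ⟨h.1.trans Sym2.eq_swap, h.2⟩)
  by_cases hadj : Z.Adj x y
  · exact hZcase hadj
  · rcases hxy.2 with h | h | h
    · exact absurd h hadj
    · refine hvirt a b P hP hPw hPmem ?_ h hadj
      intro z hz
      rw [if_pos hz]
    · refine hvirt u v Q hQ hQw hQmem ?_ h hadj
      intro z hz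
      rw [if_neg (fun h' => hPQ z h' hz)]

/-- version without labels -/
theorem Frame.realize' {Z G : SimpleGraph V} {κ : V → ZMod 2}
    {a b u v : V} (hZG : Z ≤ G)
    (P : G.Walk a b) (Q : G.Walk u v) (hP : P.IsPath) (hQ : Q.IsPath)
    (hPw : (P.length : ZMod 2) = vl κ a b) (hQw : (Q.length : ZMod 2) = vl κ u v)
    (hPQ : ∀ x, x ∈ P.support → x ∉ Q.support)
    (hPZ : ∀ x ∈ P.support, x ∈ supp Z → x = a ∨ x = b)
    (hQZ : ∀ x ∈ Q.support, x ∈ supp Z → x = u ∨ x = v)
    (hF : Frame Z κ a b u v) : HasTOK4 G := by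
  rw [hasTOK4_iff]
  refine Frame.realize hZG (fun _ _ => rfl) P Q hP hQ ?_ ?_ hPQ hPZ hQZ hF
  · rw [wt_one]; exact hPw
  · rw [wt_one]; exact hQw

end Pool.Agent.Helper57.TOK
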