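import Pool.Agent.Helper57.TOK.Irred

/-!
# Coloured frames in graphs with even (monochromatic) edges

`Z` is any simple graph with a vertex 2-colouring `κ : V → ZMod 2` (not necessarily proper). The
label of an edge `xy` of `Z` is `κ x + κ y` (one for a bichromatic edge, zero for a
monochromatic, even, edge), so that the label of a path depends only on the colours of its ends.
`FrameE Z κ a b u v` is the coloured frame for the pairing `{a,b} | {u,v}`.
For proper colourings it is the same as `Frame`.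
-/

set_option autoImplicit false

namespace Pool.Agent.Helper57.TOK

open SimpleGraph

variable {V W : Type*}

/-- Label of an edge from the colours of its ends. -/
def klab (κ : V → ZMod 2) : Sym2 V → ZMod 2 :=
  Sym2.lift ⟨fun a b => κ a + κ b, fun a b => add_comm (κ a) (κ b)⟩

@[simp] lemma klab_mk (κ : V → ZMod 2) (a b : V) : klab κ s(a, b) = κ a + κ b := rfl

open Classical in
/-- Labels of the augmented graph. -/
noncomputable def cE (Z : SimpleGraph V) (κ : V → ZMod 2) : Sym2 V → ZMod 2 :=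
  fun e => if e ∈ Z.edgeSet then klab κ e else vlab κ e

lemma cE_of_adj {Z : SimpleGraph V} {κ : V → ZMod 2} {a b : V} (h : Z.Adj a b) :
    cE Z κ s(a, b) = κ a + κ b := if_pos ((SimpleGraph.mem_edgeSet Z).2 h)

lemma cE_of_not_adj {Z : SimpleGraph V} {κ : V → ZMod 2} {a b : V} (h : ¬ Z.Adj a b) :
    cE Z κ s(a, b) = vl κ a b := if_neg (fun h' => h ((SimpleGraph.mem_edgeSet Z).1 h'))

/-- Coloured frame for the pairing `{a,b} | {u,v}` (even edges allowed). -/
def FrameE (Z : SimpleGraph V) (κ : V → ZMod 2) (a b u v : V) : Prop :=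
  HasTOK4s (frameG Z a b u v) (cE Z κ)

lemma frameE_iff_frame {Z : SimpleGraph V} {κ : V → ZMod 2} (hκ : Proper Z κ) {a b u v : V} :
    FrameE Z κ a b u v ↔ Frame Z κ a b u v := by
  have h : ∀ e, cE Z κ e = cF Z κ e := by
    intro e
    induction e using Sym2.ind with
    | _ x y =>
      by_cases hadj : Z.Adj x y
      · rw [cE_of_adj hadj, cF_of_adj hadj, hκ x y hadj]
      · rw [cE_of_not_adj hadj, cF_of_not_adj hadj]
  have h' : cE Z κ = cF Z κ := funext h
  unfold FrameE Frame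
  rw [h']

lemma FrameE.swap {Z : SimpleGraph V} {κ : V → ZMod 2} {a b u v : V} (h : FrameE Z κ a b u v) :
    FrameE Z κ u v a b := by
  unfold FrameE at h ⊢
  rwa [frameG_swap]

lemma FrameE.swap_left {Z : SimpleGraph V} {κ : V → ZMod 2} {a b u v : V}
    (h : FrameE Z κ a b u v) : FrameE Z κ b a u v := by
  unfold FrameE at h ⊢
  rwa [frameG_swap_left]

lemma FrameE.swap_right {Z : SimpleGraph V} {κ : V → ZMod 2} {a b u v : V}
    (h : FrameE Z κ a b u v) : FrameE Z κ a b v u := h.swap.swap_left.swap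

/-- Weight of a walk of `Z`. -/
lemma wt_of_klab {Z : SimpleGraph V} {κ : V → ZMod 2} {c : Sym2 V → ZMod 2}
    (hc : ∀ e ∈ Z.edgeSet, c e = klab κ e) {a b : V} (p : Z.Walk a b) :
    wt c p = κ a + κ b := by
  induction p with
  | nil => simp only [wt_nil]; exact (CharTwo.add_self_eq_zero _).symm
  | @cons a z b h p ih =>
    rw [wt_cons, ih, hc _ ((SimpleGraph.mem_edgeSet Z).2 h), klab_mk]
    have h2 : κ z + κ z = 0 := CharTwo.add_self_eq_zero _
    calc κ a + κ z + (κ z + κ b) = κ a + κ b + (κ z + κ z) := by ring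
      _ = κ a + κ b := by rw [h2, add_zero]

/-- Frames are monotone in `Z`. -/
lemma FrameE.mono {Z Z' : SimpleGraph V} {κ : V → ZMod 2} {a b u v : V} (hle : Z ≤ Z')
    (hab : ¬ Z'.Adj a b) (huv : ¬ Z'.Adj u v) (h : FrameE Z κ a b u v) :
    FrameE Z' κ a b u v := by
  unfold FrameE at h ⊢
  refine HasTOK4s.mono ?_ ?_ h
  · rintro x y ⟨h1, h2⟩
    exact ⟨h1, h2.imp_left (fun h => hle h)⟩
  · intro e he
    induction e using Sym2.ind with
    | _ x y =>
      rw [SimpleGraph.mem_edgeSet, frameG_adj] at he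
      rcases he.2 with h1 | h1 | h1
      · rw [cE_of_adj h1, cE_of_adj (hle h1)]
      · rw [h1, cE_of_not_adj hab, cE_of_not_adj (fun hh => hab (hle hh))]
      · rw [h1, cE_of_not_adj huv, cE_of_not_adj (fun hh => huv (hle hh))]

lemma supp_frameG {Z : SimpleGraph V} {a b u v : V} :
    ∀ x, x ∈ supp (frameG Z a b u v) → x ∈ supp Z ∨ x = a ∨ x = b ∨ x = u ∨ x = v := by
  rintro x ⟨w, h1, h2 | h2 | h2⟩
  · exact Or.inl ⟨w, h2⟩
  · rw [Sym2.eq_iff] at h2
    rcases h2 with ⟨h3, -⟩ | ⟨h3, -⟩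
    · exact Or.inr (Or.inl h3)
    · exact Or.inr (Or.inr (Or.inl h3))
  · rw [Sym2.eq_iff] at h2
    rcases h2 with ⟨h3, -⟩ | ⟨h3, -⟩
    · exact Or.inr (Or.inr (Or.inr (Or.inl h3)))
    · exact Or.inr (Or.inr (Or.inr (Or.inr h3)))

/-- REALISATION of a framed graph inside a labelled graph `G`: the edges of `Z` are replaced by
paths with the colour labels and the two virtual edges by the paths `P` and `Q`; everything
internally disjoint (this is encoded in the label function `lab`). -/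
theorem FrameE.realize {Z : SimpleGraph V} {G : SimpleGraph W} {κ : V → ZMod 2}
    {cG : Sym2 W → ZMod 2} {a b u v : V} (φ : V → W) (lab : W → Sym2 V)
    (hφ : Set.InjOn φ (supp Z ∪ {a, b, u, v}))
    (hR : ∀ x y, Z.Adj x y → ∃ R : G.Walk (φ x) (φ y), R.IsPath ∧ wt cG R = κ x + κ y ∧
      ∀ z ∈ R.support, z = φ x ∨ z = φ y ∨
        (lab z = s(x, y) ∧ z ∉ φ '' (supp Z ∪ {a, b, u, v})))
    (hab : ¬ Z.Adj a b) (huv : ¬ Z.Adj u v)
    (P : G.Walk (φ a) (φ b)) (Q : G.Walk (φ u) (φ v)) (hP : P.IsPath) (hQ : Q.IsPath)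
    (hPw : wt cG P = vl κ a b) (hQw : wt cG Q = vl κ u v)
    (hPs : ∀ z ∈ P.support, z = φ a ∨ z = φ b ∨
      (lab z = s(a, b) ∧ z ∉ φ '' (supp Z ∪ {a, b, u, v})))
    (hQs : ∀ z ∈ Q.support, z = φ u ∨ z = φ v ∨
      (lab z = s(u, v) ∧ z ∉ φ '' (supp Z ∪ {a, b, u, v})))
    (hF : FrameE Z κ a b u v) : HasTOK4s G cG := by
  have hsub : supp (frameG Z a b u v) ⊆ supp Z ∪ {a, b, u, v} := by
    intro x hx
    rcases supp_frameG x hx with h | h | h | h | h
    · exact Or.inl h
    · right; simp [h]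
    · right; simp [h]
    · right; simp [h]
    · right; simp [h]
  have hmem : ∀ z, z ∉ φ '' (supp Z ∪ {a, b, u, v}) → z ∉ φ '' supp (frameG Z a b u v) :=
    fun z hz hz' => hz (Set.image_mono hsub hz')
  have hvirt : ∀ (x y p q : V) (R : G.Walk (φ p) (φ q)), R.IsPath → wt cG R = vl κ p q →
      (∀ z ∈ R.support, z = φ p ∨ z = φ q ∨
        (lab z = s(p, q) ∧ z ∉ φ '' (supp Z ∪ {a, b, u, v}))) →
      s(x, y) = s(p, q) → ¬ Z.Adj x y →
      ∃ R : G.Walk (φ x) (φ y), R.IsPath ∧ wt cG R = cE Z κ s(x, y) ∧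
      ∀ z ∈ R.support, z = φ x ∨ z = φ y ∨
        (lab z = s(x, y) ∧ z ∉ φ '' supp (frameG Z a b u v)) := by
    intro x y p q R hR hRw hRs he hn
    rw [Sym2.eq_iff] at he
    rcases he with ⟨e1, e2⟩ | ⟨e1, e2⟩
    · subst e1 e2
      refine ⟨R, hR, by rw [hRw, cE_of_not_adj hn], ?_⟩
      intro z hz
      rcases hRs z hz with h | h | ⟨h, h'⟩
      · exact Or.inl h
      · exact Or.inr (Or.inl h)
      · exact Or.inr (Or.inr ⟨h, hmem z h'⟩)
    · subst e1 e2
      refine ⟨R.reverse, hR.reverse, ?_, ?_⟩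
      · rw [wt_reverse, hRw, cE_of_not_adj hn, vl_comm]
      · intro z hz
        rw [Walk.support_reverse, List.mem_reverse] at hz
        rcases hRs z hz with h | h | ⟨h, h'⟩
        · exact Or.inr (Or.inl h)
        · exact Or.inl h
        · exact Or.inr (Or.inr ⟨h.trans Sym2.eq_swap, hmem z h'⟩)
  refine HasTOK4s.subst (K := frameG Z a b u v) (G := G) (cK := cE Z κ) φ lab
    (hφ.mono hsub) ?_ hF
  intro x y hxy
  by_cases hadj : Z.Adj x y
  · obtain ⟨R, h1, h2, h3⟩ := hR x y hadj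
    refine ⟨R, h1, by rw [h2, cE_of_adj hadj], ?_⟩
    intro z hz
    rcases h3 z hz with h | h | ⟨h, h'⟩
    · exact Or.inl h
    · exact Or.inr (Or.inl h)
    · exact Or.inr (Or.inr ⟨h, hmem z h'⟩)
  · rcases hxy.2 with h | h | h
    · exact absurd h hadj
    · exact hvirt x y a b P hP hPw hPs h hadj
    · exact hvirt x y u v Q hQ hQw hQs h hadj

/-- TOPOLOGICAL SUBSTITUTION for frames: edges of `Z'` are replaced by paths of `Z`. No parity
condition is needed, only the colours of the (images of the) vertices of `Z'`. -/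
theorem FrameE.of_topo {Z' : SimpleGraph V} {Z : SimpleGraph W} {κ' : V → ZMod 2}
    {κ : W → ZMod 2} {a b u v : V} (φ : V → W) (lab : W → Sym2 V)
    (hφ : Set.InjOn φ (supp Z' ∪ {a, b, u, v}))
    (hκ : ∀ x, κ (φ x) = κ' x)
    (hR : ∀ x y, Z'.Adj x y → ∃ R : Z.Walk (φ x) (φ y), R.IsPath ∧
      ∀ z ∈ R.support, z = φ x ∨ z = φ y ∨
        (lab z = s(x, y) ∧ z ∉ φ '' (supp Z' ∪ {a, b, u, v})))
    (hab' : ¬ Z'.Adj a b) (huv' : ¬ Z'.Adj u v) (hab : ¬ Z.Adj (φ a) (φ b))
    (huv : ¬ Z.Adj (φ u) (φ v)) (hne : φ a ≠ φ b) (hne' : φ u ≠ φ v)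
    (hF : FrameE Z' κ' a b u v) : FrameE Z κ (φ a) (φ b) (φ u) (φ v) := by
  have hc : ∀ e ∈ Z.edgeSet, cE Z κ e = klab κ e := fun e he => if_pos he
  have hle := le_frameG Z (φ a) (φ b) (φ u) (φ v)
  have hvl : ∀ x y, vl κ (φ x) (φ y) = vl κ' x y := by
    intro x y; unfold vl; rw [hκ, hκ]
  have hadj1 : (frameG Z (φ a) (φ b) (φ u) (φ v)).Adj (φ a) (φ b) := ⟨hne, Or.inr (Or.inl rfl)⟩
  have hadj2 : (frameG Z (φ a) (φ b) (φ u) (φ v)).Adj (φ u) (φ v) := ⟨hne', Or.inr (Or.inr rfl)⟩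
  obtain ⟨P, hP, hPw, hPs⟩ := exists_edge_walk (cE Z κ) hadj1
  obtain ⟨Q, hQ, hQw, hQs⟩ := exists_edge_walk (cE Z κ) hadj2
  refine FrameE.realize (Z := Z') (G := frameG Z (φ a) (φ b) (φ u) (φ v)) (κ := κ')
    (cG := cE Z κ) φ lab hφ ?_ hab' huv' P Q hP hQ ?_ ?_ ?_ ?_ hF
  · intro x y hxy
    obtain ⟨R, h1, h2⟩ := hR x y hxy
    refine ⟨R.mapLe hle, (Walk.isPath_mapLe hle).2 h1, ?_, ?_⟩
    · rw [wt_mapLe, wt_of_klab hc R, hκ, hκ]
    · intro z hz
      rw [Walk.support_mapLe_eq_support] at hz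
      exact h2 z hz
  · rw [hPw, cE_of_not_adj hab, hvl]
  · rw [hQw, cE_of_not_adj huv, hvl]
  · intro z hz
    rw [hPs] at hz
    simp only [List.mem_cons, List.not_mem_nil, or_false] at hz
    rcases hz with hz | hz
    · exact Or.inl hz
    · exact Or.inr (Or.inl hz)
  · intro z hz
    rw [hQs] at hz
    simp only [List.mem_cons, List.not_mem_nil, or_false] at hz
    rcases hz with hz | hz
    · exact Or.inl hz
    · exact Or.inr (Or.inl hz)

/-- Frames lift through linkages. -/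
theorem FrameE.of_linkage {Z Z' : SimpleGraph V} {κ : V → ZMod 2}
    {a b u v a' b' u' v' : V} (hle : Z' ≤ Z) (hne : a ≠ b) (hne' : u ≠ v)
    (hab : ¬ Z.Adj a b) (huv : ¬ Z.Adj u v) (hab' : ¬ Z'.Adj a' b') (huv' : ¬ Z'.Adj u' v')
    (A : Z.Walk a' a) (B : Z.Walk b' b) (U : Z.Walk u' u) (T : Z.Walk v' v)
    (hA : A.IsPath) (hB : B.IsPath) (hU : U.IsPath) (hT : T.IsPath)
    (hAB : ∀ x, x ∈ A.support → x ∉ B.support) (hAU : ∀ x, x ∈ A.support → x ∉ U.support)
    (hAT : ∀ x, x ∈ A.support → x ∉ T.support) (hBU : ∀ x, x ∈ B.support → x ∉ U.support)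
    (hBT : ∀ x, x ∈ B.support → x ∉ T.support) (hUT : ∀ x, x ∈ U.support → x ∉ T.support)
    (hAZ : ∀ x ∈ A.support, x ∈ supp Z' → x = a') (hBZ : ∀ x ∈ B.support, x ∈ supp Z' → x = b')
    (hUZ : ∀ x ∈ U.support, x ∈ supp Z' → x = u') (hTZ : ∀ x ∈ T.support, x ∈ supp Z' → x = v')
    (hF : FrameE Z' κ a' b' u' v') : FrameE Z κ a b u v := by
  classical
  have hc : ∀ e ∈ Z.edgeSet, cE Z κ e = klab κ e := fun e he => if_pos he
  have hleG := le_frameG Z a b u v
  -- generic virtual path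
  have gen : ∀ {p q p' q' : V} (A : Z.Walk p' p) (B : Z.Walk q' q), A.IsPath → B.IsPath →
      (∀ x, x ∈ A.support → x ∉ B.support) → (frameG Z a b u v).Adj p q → ¬ Z.Adj p q →
      ∃ P : (frameG Z a b u v).Walk p' q', P.IsPath ∧ wt (cE Z κ) P = vl κ p' q' ∧
        ∀ x, x ∈ P.support ↔ x ∈ A.support ∨ x ∈ B.support := by
    intro p q p' q' A B hA hB hAB hadj hn
    refine ⟨(A.mapLe hleG).append (Walk.cons hadj (B.mapLe hleG).reverse), ?_, ?_, ?_⟩
    · refine isPath_append_of _ _ ((Walk.isPath_mapLe hleG).2 hA) ?_ ?_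
      · rw [Walk.cons_isPath_iff]
        refine ⟨((Walk.isPath_mapLe hleG).2 hB).reverse, ?_⟩
        rw [Walk.support_reverse, List.mem_reverse, Walk.support_mapLe_eq_support]
        exact hAB p A.end_mem_support
      · intro x hx hx'
        rw [Walk.support_mapLe_eq_support] at hx
        rw [Walk.support_cons, List.mem_cons, Walk.support_reverse, List.mem_reverse,
          Walk.support_mapLe_eq_support] at hx'
        rcases hx' with h | h
        · exact h
        · exact absurd h (hAB x hx)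
    · rw [wt_append, wt_cons, wt_reverse, wt_mapLe, wt_mapLe, cE_of_not_adj hn,
        wt_of_klab hc A, wt_of_klab hc B]
      unfold vl
      have h1 : κ p + κ p = 0 := CharTwo.add_self_eq_zero _
      have h2 : κ q + κ q = 0 := CharTwo.add_self_eq_zero _
      calc κ p' + κ p + (1 + κ p + κ q + (κ q' + κ q))
          = 1 + κ p' + κ q' + (κ p + κ p) + (κ q + κ q) := by ring
        _ = 1 + κ p' + κ q' := by rw [h1, h2, add_zero, add_zero]
    · intro x
      rw [Walk.mem_support_append_iff, Walk.support_cons, List.mem_cons, Walk.support_reverse,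
        List.mem_reverse, Walk.support_mapLe_eq_support, Walk.support_mapLe_eq_support]
      constructor
      · rintro (h | h | h)
        · exact Or.inl h
        · left; rw [h]; exact A.end_mem_support
        · exact Or.inr h
      · rintro (h | h)
        · exact Or.inl h
        · exact Or.inr (Or.inr h)
  obtain ⟨P, hP, hPw, hPs⟩ := gen A B hA hB hAB ⟨hne, Or.inr (Or.inl rfl)⟩ hab
  obtain ⟨Q, hQ, hQw, hQs⟩ := gen U T hU hT hUT ⟨hne', Or.inr (Or.inr rfl)⟩ huv
  have hPQ : ∀ x, x ∈ P.support → x ∉ Q.support := by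
    intro x hx hx'
    rw [hPs] at hx
    rw [hQs] at hx'
    rcases hx with h1 | h1 <;> rcases hx' with h2 | h2
    · exact hAU x h1 h2
    · exact hAT x h1 h2
    · exact hBU x h1 h2
    · exact hBT x h1 h2
  have hPmem : ∀ z ∈ P.support, z ∈ supp Z' ∪ {a', b', u', v'} → z = a' ∨ z = b' := by
    intro z hz hzs
    have hz0 := hz
    rw [hPs] at hz
    rcases hzs with h | h
    · rcases hz with h1 | h1
      · exact Or.inl (hAZ z h1 h)
      · exact Or.inr (hBZ z h1 h)
    · simp only [Set.mem_insert_iff, Set.mem_singleton_iff] at h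
      rcases h with h | h | h | h
      · exact Or.inl h
      · exact Or.inr h
      · exact absurd (h ▸ Q.start_mem_support) (hPQ z hz0)
      · exact absurd (h ▸ Q.end_mem_support) (hPQ z hz0)
  have hQmem : ∀ z ∈ Q.support, z ∈ supp Z' ∪ {a', b', u', v'} → z = u' ∨ z = v' := by
    intro z hz hzs
    have hz0 := hz
    rw [hQs] at hz
    rcases hzs with h | h
    · rcases hz with h1 | h1
      · exact Or.inl (hUZ z h1 h)
      · exact Or.inr (hTZ z h1 h)
    · simp only [Set.mem_insert_iff, Set.mem_singleton_iff] at h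
      rcases h with h | h | h | h
      · exact absurd hz0 (hPQ z (h ▸ P.start_mem_support))
      · exact absurd hz0 (hPQ z (h ▸ P.end_mem_support))
      · exact Or.inl h
      · exact Or.inr h
  refine FrameE.realize (Z := Z') (G := frameG Z a b u v) (κ := κ) (cG := cE Z κ)
    (fun x => x) (fun x => if x ∈ P.support then s(a', b') else s(u', v'))
    (fun x _ y _ h => h) ?_ hab' huv' P Q hP hQ hPw hQw ?_ ?_ hF
  · intro x y hxy
    obtain ⟨R, h1, h2, h3⟩ := exists_edge_walk (cE Z κ) (hleG (hle hxy))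
    refine ⟨R, h1, by rw [h2, cE_of_adj (hle hxy)], ?_⟩
    intro z hz
    rw [h3] at hz
    simp only [List.mem_cons, List.not_mem_nil, or_false] at hz
    rcases hz with hz | hz
    · exact Or.inl hz
    · exact Or.inr (Or.inl hz)
  · intro z hz
    by_cases h : z ∈ supp Z' ∪ {a', b', u', v'}
    · rcases hPmem z hz h with h1 | h1
      · exact Or.inl h1
      · exact Or.inr (Or.inl h1)
    · refine Or.inr (Or.inr ⟨if_pos hz, ?_⟩)
      rintro ⟨w, hw, hwz⟩
      have hwz' : w = z := hwz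
      exact h (hwz' ▸ hw)
  · intro z hz
    by_cases h : z ∈ supp Z' ∪ {a', b', u', v'}
    · rcases hQmem z hz h with h1 | h1
      · exact Or.inl h1
      · exact Or.inr (Or.inl h1)
    · refine Or.inr (Or.inr ⟨if_neg (fun h' => hPQ z h' hz), ?_⟩)
      rintro ⟨w, hw, hwz⟩
      have hwz' : w = z := hwz
      exact h (hwz' ▸ hw)

end Pool.Agent.Helper57.TOK
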