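import Pool.Agent.Helper57.TOK.Frame

/-!
# Coloured frames lift through folds and through linkages
-/

set_option autoImplicit false

namespace Pool.Agent.Helper57.TOK

open SimpleGraph

variable {V W : Type*}

/-- Frames lift through folds. `Z'` is the fold, possibly with some edges deleted (in particular
the edges between terminals). The vertices `y` and `q` are no terminals; `p` may be one. -/
theorem Frame.of_fold {Z Z' : SimpleGraph V} {κ : V → ZMod 2} {y p q a b u v : V}
    (hle : Z' ≤ foldG Z y p q) (hab' : ¬ Z'.Adj a b) (huv' : ¬ Z'.Adj u v)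
    (hab : ¬ Z.Adj a b) (huv : ¬ Z.Adj u v) (hpq : p ≠ q) (hyp : Z.Adj y p) (hyq : Z.Adj y q)
    (hya : y ≠ a) (hyb : y ≠ b) (hyu : y ≠ u) (hyv : y ≠ v)
    (hqa : q ≠ a) (hqb : q ≠ b) (hqu : q ≠ u) (hqv : q ≠ v)
    (hF : Frame Z' κ a b u v) : Frame Z κ a b u v := by
  classical
  unfold Frame at hF ⊢
  set c' : Sym2 V → ZMod 2 :=
    fun e => if e = s(a, b) ∨ e = s(u, v) then vlab κ e else 1 with hc'
  have hc1 : ∀ x w, Z.Adj x w → c' s(x, w) = 1 := by
    intro x w h
    rw [hc']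
    refine if_neg ?_
    rintro (h1 | h1)
    · rw [Sym2.eq_iff] at h1
      rcases h1 with ⟨rfl, rfl⟩ | ⟨rfl, rfl⟩
      · exact hab h
      · exact hab h.symm
    · rw [Sym2.eq_iff] at h1
      rcases h1 with ⟨rfl, rfl⟩ | ⟨rfl, rfl⟩
      · exact huv h
      · exact huv h.symm
  have hcF : ∀ x w, (frameG Z a b u v).Adj x w → c' s(x, w) = cF Z κ s(x, w) := by
    intro x w h
    by_cases hadj : Z.Adj x w
    · rw [cF_of_adj hadj, hc1 x w hadj]
    · rw [cF_of_not_adj hadj, hc']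
      exact if_pos (h.2.resolve_left hadj)
  have hqterm : ∀ w, (frameG Z a b u v).Adj q w → Z.Adj q w := by
    intro w h
    rcases h.2 with h1 | h1 | h1
    · exact h1
    · rw [Sym2.eq_iff] at h1
      rcases h1 with ⟨h2, -⟩ | ⟨h2, -⟩
      · exact absurd h2 hqa
      · exact absurd h2 hqb
    · rw [Sym2.eq_iff] at h1
      rcases h1 with ⟨h2, -⟩ | ⟨h2, -⟩
      · exact absurd h2 hqu
      · exact absurd h2 hqv
  refine HasTOK4s.of_foldG (y := y) (a := p) (b := q) (c' := c') hpq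
    (le_frameG Z a b u v hyp) (le_frameG Z a b u v hyq) ?_ ?_ ?_ ?_ ?_
  · rw [cF_of_adj hyp, cF_of_adj hyq]
  · intro w _ _ h
    exact hcF p w h
  · intro w _ hwp hn h
    have hZ := hqterm w h
    rw [cF_of_adj hZ, hc']
    refine if_neg ?_
    intro h1
    exact hn ⟨hwp.symm, Or.inr h1⟩
  · intro x w _ _ h
    exact hcF x w h
  · refine HasTOK4s.mono ?_ ?_ hF
    · rintro x w ⟨h1, h2⟩
      rw [foldG_adj]
      rcases h2 with h2 | h2
      · obtain ⟨g1, g2, g3, g4, g5, g6⟩ := foldG_adj.1 (hle h2)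
        refine ⟨g1, g2, g3, g4, g5, ?_⟩
        rcases g6 with g6 | g6 | g6
        · exact Or.inl (le_frameG Z a b u v g6)
        · exact Or.inr (Or.inl ⟨g6.1, le_frameG Z a b u v g6.2⟩)
        · exact Or.inr (Or.inr ⟨g6.1, le_frameG Z a b u v g6.2⟩)
      · have hterm : ∀ z, z ∈ s(x, w) → z ≠ y ∧ z ≠ q := by
          intro z hz
          rcases h2 with h2 | h2
          · rw [h2, Sym2.mem_iff] at hz
            rcases hz with hz | hz
            · rw [hz]; exact ⟨hya.symm, hqa.symm⟩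
            · rw [hz]; exact ⟨hyb.symm, hqb.symm⟩
          · rw [h2, Sym2.mem_iff] at hz
            rcases hz with hz | hz
            · rw [hz]; exact ⟨hyu.symm, hqu.symm⟩
            · rw [hz]; exact ⟨hyv.symm, hqv.symm⟩
        have hx := hterm x (Sym2.mem_mk_left x w)
        have hw := hterm w (Sym2.mem_mk_right x w)
        exact ⟨h1, hx.1, hw.1, hx.2, hw.2, Or.inl ⟨h1, Or.inr h2⟩⟩
    · intro e he
      induction e using Sym2.ind with
      | _ x w =>
        rw [SimpleGraph.mem_edgeSet, frameG_adj] at he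
        by_cases hadj : Z'.Adj x w
        · rw [cF_of_adj hadj, hc']
          refine (if_neg ?_).symm
          rintro (h1 | h1)
          · rw [Sym2.eq_iff] at h1
            rcases h1 with ⟨rfl, rfl⟩ | ⟨rfl, rfl⟩
            · exact hab' hadj
            · exact hab' hadj.symm
          · rw [Sym2.eq_iff] at h1
            rcases h1 with ⟨rfl, rfl⟩ | ⟨rfl, rfl⟩
            · exact huv' hadj
            · exact huv' hadj.symm
        · rw [cF_of_not_adj hadj, hc']
          exact (if_pos (he.2.resolve_left hadj)).symm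

/-- A path through a virtual edge: `A : a' - a`, `B : b' - b` disjoint, then `a' - a = b - b'`. -/
lemma exists_virtual_path {Z : SimpleGraph V} {κ : V → ZMod 2} (hκ : Proper Z κ)
    {a b u v a' b' : V} (hne : a ≠ b) (hab : ¬ Z.Adj a b)
    (A : Z.Walk a' a) (B : Z.Walk b' b) (hA : A.IsPath) (hB : B.IsPath)
    (hAB : ∀ x, x ∈ A.support → x ∉ B.support) :
    ∃ P : (frameG Z a b u v).Walk a' b', P.IsPath ∧ wt (cF Z κ) P = vl κ a' b' ∧
      ∀ x, x ∈ P.support ↔ x ∈ A.support ∨ x ∈ B.support := by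
  have hle := le_frameG Z a b u v
  have hadj : (frameG Z a b u v).Adj a b := ⟨hne, Or.inr (Or.inl rfl)⟩
  refine ⟨(A.mapLe hle).append (Walk.cons hadj (B.mapLe hle).reverse), ?_, ?_, ?_⟩
  · refine isPath_append_of _ _ ((Walk.isPath_mapLe hle).2 hA) ?_ ?_
    · rw [Walk.cons_isPath_iff]
      refine ⟨((Walk.isPath_mapLe hle).2 hB).reverse, ?_⟩
      rw [Walk.support_reverse, List.mem_reverse, Walk.support_mapLe_eq_support]
      exact hAB a A.end_mem_support
    · intro x hx hx'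
      rw [Walk.support_mapLe_eq_support] at hx
      rw [Walk.support_cons, List.mem_cons, Walk.support_reverse, List.mem_reverse,
        Walk.support_mapLe_eq_support] at hx'
      rcases hx' with h | h
      · exact h
      · exact absurd h (hAB x hx)
  · rw [wt_append, wt_cons, wt_reverse, wt_mapLe, wt_mapLe, cF_of_not_adj hab]
    have hc : ∀ e ∈ Z.edgeSet, cF Z κ e = 1 := fun e he => if_pos he
    rw [wt_of_proper hκ hc A, wt_of_proper hκ hc B]
    unfold vl
    have h1 : κ a + κ a = 0 := CharTwo.add_self_eq_zero _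
    have h2 : κ b + κ b = 0 := CharTwo.add_self_eq_zero _
    calc κ a' + κ a + (1 + κ a + κ b + (κ b' + κ b))
        = 1 + κ a' + κ b' + (κ a + κ a) + (κ b + κ b) := by ring
      _ = 1 + κ a' + κ b' := by rw [h1, h2, add_zero, add_zero]
  · intro x
    rw [Walk.mem_support_append_iff, Walk.support_cons, List.mem_cons, Walk.support_reverse,
      List.mem_reverse, Walk.support_mapLe_eq_support, Walk.support_mapLe_eq_support]
    constructor
    · rintro (h | h | h)
      · exact Or.inl h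
      · left; rw [h]; exact A.end_mem_support
      · exact Or.inr h
    · rintro (h | h)
      · exact Or.inl h
      · exact Or.inr (Or.inr h)

/-- Frames lift through linkages. -/
theorem Frame.of_linkage {Z Z' : SimpleGraph V} {κ : V → ZMod 2} (hκ : Proper Z κ)
    {a b u v a' b' u' v' : V} (hle : Z' ≤ Z) (hne : a ≠ b) (hne' : u ≠ v)
    (hab : ¬ Z.Adj a b) (huv : ¬ Z.Adj u v)
    (A : Z.Walk a' a) (B : Z.Walk b' b) (U : Z.Walk u' u) (T : Z.Walk v' v)
    (hA : A.IsPath) (hB : B.IsPath) (hU : U.IsPath) (hT : T.IsPath)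
    (hAB : ∀ x, x ∈ A.support → x ∉ B.support) (hAU : ∀ x, x ∈ A.support → x ∉ U.support)
    (hAT : ∀ x, x ∈ A.support → x ∉ T.support) (hBU : ∀ x, x ∈ B.support → x ∉ U.support)
    (hBT : ∀ x, x ∈ B.support → x ∉ T.support) (hUT : ∀ x, x ∈ U.support → x ∉ T.support)
    (hAZ : ∀ x ∈ A.support, x ∈ supp Z' → x = a') (hBZ : ∀ x ∈ B.support, x ∈ supp Z' → x = b')
    (hUZ : ∀ x ∈ U.support, x ∈ supp Z' → x = u') (hTZ : ∀ x ∈ T.support, x ∈ supp Z' → x = v')
    (hF : Frame Z' κ a' b' u' v') : Frame Z κ a b u v := by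
  obtain ⟨P, hP, hPw, hPs⟩ := exists_virtual_path (u := u) (v := v) hκ hne hab A B hA hB hAB
  obtain ⟨Q, hQ, hQw, hQs⟩ := exists_virtual_path (u := a) (v := b) hκ hne' huv U T hU hT hUT
  have hsw : frameG Z u v a b = frameG Z a b u v := frameG_swap Z u v a b
  -- transport Q
  have hQ' : ∃ Q : (frameG Z a b u v).Walk u' v', Q.IsPath ∧ wt (cF Z κ) Q = vl κ u' v' ∧
      ∀ x, x ∈ Q.support ↔ x ∈ U.support ∨ x ∈ T.support := by
    rw [← hsw]; exact ⟨Q, hQ, hQw, hQs⟩
  obtain ⟨Q, hQ, hQw, hQs⟩ := hQ'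
  refine Frame.realize (Z := Z') (G := frameG Z a b u v) (cG := cF Z κ)
    (le_trans hle (le_frameG Z a b u v)) ?_ P Q hP hQ hPw hQw ?_ ?_ ?_ hF
  · intro e he
    exact if_pos (SimpleGraph.edgeSet_mono hle he)
  · intro x hx hx'
    rw [hPs] at hx
    rw [hQs] at hx'
    rcases hx with h1 | h1 <;> rcases hx' with h2 | h2
    · exact hAU x h1 h2
    · exact hAT x h1 h2
    · exact hBU x h1 h2
    · exact hBT x h1 h2
  · intro x hx hxZ
    rw [hPs] at hx
    rcases hx with h1 | h1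
    · exact Or.inl (hAZ x h1 hxZ)
    · exact Or.inr (hBZ x h1 hxZ)
  · intro x hx hxZ
    rw [hQs] at hx
    rcases hx with h1 | h1
    · exact Or.inl (hUZ x h1 hxZ)
    · exact Or.inr (hTZ x h1 hxZ)

/-- All coloured frames on a set of terminals. -/
def AllFrames (Z : SimpleGraph V) (κ : V → ZMod 2) (T : Set V) : Prop :=
  ∀ a ∈ T, ∀ b ∈ T, ∀ u ∈ T, ∀ v ∈ T, a ≠ b → a ≠ u → a ≠ v → b ≠ u → b ≠ v → u ≠ v →
    Frame Z κ a b u v

/-- All frames lift through a family of four disjoint paths. -/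
theorem AllFrames.of_linkage {Z Z' : SimpleGraph V} {κ : V → ZMod 2} (hκ : Proper Z κ)
    {T T' : Set V} (hle : Z' ≤ Z) (hcard : T.ncard = 4)
    (hTT : ∀ a ∈ T, ∀ b ∈ T, ¬ Z.Adj a b)
    (s t : Fin 4 → V) (P : ∀ i, Z.Walk (s i) (t i)) (hs : ∀ i, s i ∈ T') (ht : ∀ i, t i ∈ T)
    (hP : ∀ i, (P i).IsPath)
    (hd : ∀ i j, i ≠ j → ∀ x, x ∈ (P i).support → x ∉ (P j).support)
    (hZ : ∀ i, ∀ x ∈ (P i).support, x ∈ supp Z' → x = s i)
    (hF : AllFrames Z' κ T') : AllFrames Z κ T := by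
  classical
  have hfin : T.Finite := Set.finite_of_ncard_ne_zero (by rw [hcard]; norm_num)
  have htinj : Function.Injective t := by
    intro i j hij
    by_contra hne
    refine hd i j hne (t i) (P i).end_mem_support ?_
    rw [hij]; exact (P j).end_mem_support
  have hsinj : Function.Injective s := by
    intro i j hij
    by_contra hne
    refine hd i j hne (s i) (P i).start_mem_support ?_
    rw [hij]; exact (P j).start_mem_support
  have hsurj : ∀ a ∈ T, ∃ i, t i = a := by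
    have himg : (Set.range t) = T := by
      apply Set.eq_of_subset_of_ncard_le _ _ hfin
      · rintro _ ⟨i, rfl⟩; exact ht i
      · rw [hcard]
        have : (Set.range t).ncard = Nat.card (Fin 4) := by
          rw [← Set.image_univ, Set.ncard_image_of_injective _ htinj, Set.ncard_univ]
        rw [this]; simp
    intro a ha
    rw [← himg] at ha
    exact ha
  intro a ha b hb u hu v hv hab hau hav hbu hbv huv
  obtain ⟨i, rfl⟩ := hsurj a ha
  obtain ⟨j, rfl⟩ := hsurj b hb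
  obtain ⟨k, rfl⟩ := hsurj u hu
  obtain ⟨l, rfl⟩ := hsurj v hv
  have hij : i ≠ j := fun h => hab (h ▸ rfl)
  have hik : i ≠ k := fun h => hau (h ▸ rfl)
  have hil : i ≠ l := fun h => hav (h ▸ rfl)
  have hjk : j ≠ k := fun h => hbu (h ▸ rfl)
  have hjl : j ≠ l := fun h => hbv (h ▸ rfl)
  have hkl : k ≠ l := fun h => huv (h ▸ rfl)
  exact Frame.of_linkage hκ hle hab huv (hTT _ ha _ hb) (hTT _ hu _ hv)
    (P i) (P j) (P k) (P l) (hP i) (hP j) (hP k) (hP l) (hd i j hij) (hd i k hik) (hd i l hil)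
    (hd j k hjk) (hd j l hjl) (hd k l hkl) (hZ i) (hZ j) (hZ k) (hZ l)
    (hF _ (hs i) _ (hs j) _ (hs k) _ (hs l)
      (fun h => hij (hsinj h)) (fun h => hik (hsinj h)) (fun h => hil (hsinj h))
      (fun h => hjk (hsinj h)) (fun h => hjl (hsinj h)) (fun h => hkl (hsinj h)))

/-- All frames lift through folds. -/
theorem AllFrames.of_fold {Z Z' : SimpleGraph V} {κ : V → ZMod 2} {y p q : V} {T : Set V}
    (hle : Z' ≤ foldG Z y p q) (hTT' : ∀ a ∈ T, ∀ b ∈ T, ¬ Z'.Adj a b)
    (hTT : ∀ a ∈ T, ∀ b ∈ T, ¬ Z.Adj a b) (hpq : p ≠ q) (hyp : Z.Adj y p) (hyq : Z.Adj y q)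
    (hyT : y ∉ T) (hqT : q ∉ T) (hF : AllFrames Z' κ T) : AllFrames Z κ T := by
  intro a ha b hb u hu v hv hab hau hav hbu hbv huv
  have hn : ∀ {x z : V}, x ∉ T → z ∈ T → x ≠ z := fun hx hz h => hx (h ▸ hz)
  exact Frame.of_fold hle (hTT' a ha b hb) (hTT' u hu v hv) (hTT a ha b hb) (hTT u hu v hv)
    hpq hyp hyq (hn hyT ha) (hn hyT hb) (hn hyT hu) (hn hyT hv)
    (hn hqT ha) (hn hqT hb) (hn hqT hu) (hn hqT hv)
    (hF a ha b hb u hu v hv hab hau hav hbu hbv huv)

/-- All frames are monotone. -/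
theorem AllFrames.mono {Z Z' : SimpleGraph V} {κ : V → ZMod 2} {T : Set V} (hle : Z' ≤ Z)
    (hTT : ∀ a ∈ T, ∀ b ∈ T, ¬ Z.Adj a b) (hF : AllFrames Z' κ T) : AllFrames Z κ T := by
  intro a ha b hb u hu v hv hab hau hav hbu hbv huv
  exact Frame.mono hle (hTT a ha b hb) (hTT u hu v hv)
    (hF a ha b hb u hu v hv hab hau hav hbu hbv huv)

end Pool.Agent.Helper57.TOK
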