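import Pool.Agent.Helper57.TOK.Lists

/-!
# The three irreducible societies I6, I7, I8 have all coloured frames
-/

set_option autoImplicit false
set_option synthInstance.maxSize 2000

namespace Pool.Agent.Helper57.TOK

open SimpleGraph

variable {V W : Type*}

/-- A graph on `Fin n` given by a list of edges. -/
def ofList {n : ℕ} (E : List (Fin n × Fin n)) : SimpleGraph (Fin n) where
  Adj x y := x ≠ y ∧ ((x, y) ∈ E ∨ (y, x) ∈ E)
  symm := ⟨fun _ _ h => ⟨h.1.symm, h.2.symm⟩⟩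
  loopless := ⟨fun _ h => h.1 rfl⟩

instance {n : ℕ} (E : List (Fin n × Fin n)) : DecidableRel (ofList E).Adj := fun x y =>
  inferInstanceAs (Decidable (x ≠ y ∧ ((x, y) ∈ E ∨ (y, x) ∈ E)))

instance {n : ℕ} (Z : SimpleGraph (Fin n)) [DecidableRel Z.Adj] (a b u v : Fin n) :
    DecidableRel (frameG Z a b u v).Adj := fun x y =>
  inferInstanceAs (Decidable (x ≠ y ∧ (Z.Adj x y ∨ s(x, y) = s(a, b) ∨ s(x, y) = s(u, v))))

/-- Computable labels. -/
def c0 {n : ℕ} (a b u v : Fin n) (la lb : ZMod 2) : Sym2 (Fin n) → ZMod 2 :=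
  fun e => if e = s(a, b) then la else if e = s(u, v) then lb else 1

lemma Frame.of_c0 {n : ℕ} {Z : SimpleGraph (Fin n)} {κ : Fin n → ZMod 2} {a b u v : Fin n}
    (hab : ¬ Z.Adj a b) (huv : ¬ Z.Adj u v)
    (h : HasTOK4s (frameG Z a b u v) (c0 a b u v (vl κ a b) (vl κ u v))) :
    Frame Z κ a b u v := by
  unfold Frame
  refine HasTOK4s.mono le_rfl ?_ h
  intro e he
  induction e using Sym2.ind with
  | _ x y =>
    rw [SimpleGraph.mem_edgeSet, frameG_adj] at he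
    unfold c0
    by_cases h1 : s(x, y) = s(a, b)
    · rw [if_pos h1, h1, cF_of_not_adj hab]
    · rw [if_neg h1]
      by_cases h2 : s(x, y) = s(u, v)
      · rw [if_pos h2, h2, cF_of_not_adj huv]
      · rw [if_neg h2]
        rcases he.2 with h3 | h3 | h3
        · rw [cF_of_adj h3]
        · exact absurd h3 h1
        · exact absurd h3 h2

/-- Lists of a TOK4 from six lists. -/
def sixLists {α : Type*} (a b c d e f : List α) : Fin 4 → Fin 4 → List α := fun i j =>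
  match i, j with
  | 0, 1 => a
  | 0, 2 => b
  | 0, 3 => c
  | 1, 2 => d
  | 1, 3 => e
  | 2, 3 => f
  | _, _ => []

/-- I6: `K_{4,2}` minus an edge; terminals 0,1,2,3. -/
def I6 : SimpleGraph (Fin 6) := ofList [(4, 0), (4, 1), (4, 2), (4, 3), (5, 0), (5, 1), (5, 2)]

/-- I7; terminals 0,1,2,3. -/
def I7 : SimpleGraph (Fin 7) :=
  ofList [(4, 1), (4, 2), (4, 3), (5, 0), (5, 2), (5, 3), (6, 0), (6, 1), (6, 2)]

/-- I8; terminals 0,1 of one colour and 2,3 of the other. -/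
def I8 : SimpleGraph (Fin 8) :=
  ofList [(4, 2), (4, 3), (4, 6), (6, 0), (6, 1), (5, 2), (5, 3), (5, 7), (7, 0), (7, 1)]

instance : DecidableRel I6.Adj := inferInstanceAs (DecidableRel (ofList _).Adj)
instance : DecidableRel I7.Adj := inferInstanceAs (DecidableRel (ofList _).Adj)
instance : DecidableRel I8.Adj := inferInstanceAs (DecidableRel (ofList _).Adj)

lemma tok_I6_1 : HasTOK4s (frameG I6 0 1 2 3) (c0 0 1 2 3 1 1) :=
  HasTOK4s.of_lists ![0, 1, 5, 4]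
    (sixLists [0, 1] [0, 5] [0, 4] [1, 5] [1, 4] [5, 2, 3, 4])
    (by decide) (by decide) (by decide)

lemma tok_I6_2 : HasTOK4s (frameG I6 0 2 1 3) (c0 0 2 1 3 1 1) :=
  HasTOK4s.of_lists ![0, 2, 5, 4]
    (sixLists [0, 2] [0, 5] [0, 4] [2, 5] [2, 4] [5, 1, 3, 4])
    (by decide) (by decide) (by decide)

lemma tok_I6_3 : HasTOK4s (frameG I6 0 3 1 2) (c0 0 3 1 2 1 1) :=
  HasTOK4s.of_lists ![1, 2, 5, 4]
    (sixLists [1, 2] [1, 5] [1, 4] [2, 5] [2, 4] [5, 0, 3, 4])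
    (by decide) (by decide) (by decide)

lemma tok_I7_1 : HasTOK4s (frameG I7 0 1 2 3) (c0 0 1 2 3 1 1) :=
  HasTOK4s.of_lists ![2, 3, 5, 4]
    (sixLists [2, 3] [2, 5] [2, 4] [3, 5] [3, 4] [5, 0, 1, 4])
    (by decide) (by decide) (by decide)

lemma tok_I7_2 : HasTOK4s (frameG I7 0 2 1 3) (c0 0 2 1 3 1 1) :=
  HasTOK4s.of_lists ![0, 2, 5, 6]
    (sixLists [0, 2] [0, 5] [0, 6] [2, 5] [2, 6] [5, 3, 1, 6])
    (by decide) (by decide) (by decide)

lemma tok_I7_3 : HasTOK4s (frameG I7 0 3 1 2) (c0 0 3 1 2 1 1) :=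
  HasTOK4s.of_lists ![1, 2, 4, 6]
    (sixLists [1, 2] [1, 4] [1, 6] [2, 4] [2, 6] [4, 3, 0, 6])
    (by decide) (by decide) (by decide)

lemma tok_I8_1 : HasTOK4s (frameG I8 0 1 2 3) (c0 0 1 2 3 1 1) :=
  HasTOK4s.of_lists ![0, 1, 6, 7]
    (sixLists [0, 1] [0, 6] [0, 7] [1, 6] [1, 7] [6, 4, 2, 3, 5, 7])
    (by decide) (by decide) (by decide)

lemma tok_I8_2 : HasTOK4s (frameG I8 0 2 1 3) (c0 0 2 1 3 0 0) :=
  HasTOK4s.of_lists ![6, 2, 1, 4]
    (sixLists [6, 0, 2] [6, 1] [6, 4] [2, 5, 7, 1] [2, 4] [1, 3, 4])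
    (by decide) (by decide) (by decide)

lemma tok_I8_3 : HasTOK4s (frameG I8 0 3 1 2) (c0 0 3 1 2 0 0) :=
  HasTOK4s.of_lists ![6, 3, 1, 4]
    (sixLists [6, 0, 3] [6, 1] [6, 4] [3, 5, 7, 1] [3, 4] [1, 2, 4])
    (by decide) (by decide) (by decide)

/-- A copy of I6 in `Z` gives all frames. -/
theorem allFrames_I6 {Z : SimpleGraph V} {κ : V → ZMod 2} (φ : Fin 6 → V)
    (hφ : Function.Injective φ) (h : ∀ x y, I6.Adj x y → Z.Adj (φ x) (φ y))
    (hTT : ∀ i j : Fin 6, i < 4 → j < 4 → ¬ Z.Adj (φ i) (φ j))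
    (h1 : κ (φ 0) = κ (φ 1)) (h2 : κ (φ 0) = κ (φ 2)) (h3 : κ (φ 0) = κ (φ 3)) :
    AllFrames Z κ {φ 0, φ 1, φ 2, φ 3} := by
  have hv : ∀ x y : Fin 6, κ (φ x) = κ (φ y) → vl (fun _ : Fin 6 => (0 : ZMod 2)) x y =
      vl κ (φ x) (φ y) := by
    intro x y hxy
    have h0 : κ (φ y) + κ (φ y) = 0 := CharTwo.add_self_eq_zero _
    show (1 : ZMod 2) + 0 + 0 = 1 + κ (φ x) + κ (φ y)
    rw [hxy, add_assoc (1 : ZMod 2) (κ (φ y)) (κ (φ y)), h0]; simp
  apply AllFrames.of_three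
  · exact Frame.of_injective φ hφ h (hTT 0 1 (by decide) (by decide))
      (hTT 2 3 (by decide) (by decide)) (hv 0 1 h1) (hv 2 3 (h2.symm.trans h3))
      (Frame.of_c0 (by decide) (by decide) tok_I6_1)
  · exact Frame.of_injective φ hφ h (hTT 0 2 (by decide) (by decide))
      (hTT 1 3 (by decide) (by decide)) (hv 0 2 h2) (hv 1 3 (h1.symm.trans h3))
      (Frame.of_c0 (by decide) (by decide) tok_I6_2)
  · exact Frame.of_injective φ hφ h (hTT 0 3 (by decide) (by decide))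
      (hTT 1 2 (by decide) (by decide)) (hv 0 3 h3) (hv 1 2 (h1.symm.trans h2))
      (Frame.of_c0 (by decide) (by decide) tok_I6_3)

/-- A copy of I7 in `Z` gives all frames. -/
theorem allFrames_I7 {Z : SimpleGraph V} {κ : V → ZMod 2} (φ : Fin 7 → V)
    (hφ : Function.Injective φ) (h : ∀ x y, I7.Adj x y → Z.Adj (φ x) (φ y))
    (hTT : ∀ i j : Fin 7, i < 4 → j < 4 → ¬ Z.Adj (φ i) (φ j))
    (h1 : κ (φ 0) = κ (φ 1)) (h2 : κ (φ 0) = κ (φ 2)) (h3 : κ (φ 0) = κ (φ 3)) :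
    AllFrames Z κ {φ 0, φ 1, φ 2, φ 3} := by
  have hv : ∀ x y : Fin 7, κ (φ x) = κ (φ y) → vl (fun _ : Fin 7 => (0 : ZMod 2)) x y =
      vl κ (φ x) (φ y) := by
    intro x y hxy
    have h0 : κ (φ y) + κ (φ y) = 0 := CharTwo.add_self_eq_zero _
    show (1 : ZMod 2) + 0 + 0 = 1 + κ (φ x) + κ (φ y)
    rw [hxy, add_assoc (1 : ZMod 2) (κ (φ y)) (κ (φ y)), h0]; simp
  apply AllFrames.of_three
  · exact Frame.of_injective φ hφ h (hTT 0 1 (by decide) (by decide))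
      (hTT 2 3 (by decide) (by decide)) (hv 0 1 h1) (hv 2 3 (h2.symm.trans h3))
      (Frame.of_c0 (by decide) (by decide) tok_I7_1)
  · exact Frame.of_injective φ hφ h (hTT 0 2 (by decide) (by decide))
      (hTT 1 3 (by decide) (by decide)) (hv 0 2 h2) (hv 1 3 (h1.symm.trans h3))
      (Frame.of_c0 (by decide) (by decide) tok_I7_2)
  · exact Frame.of_injective φ hφ h (hTT 0 3 (by decide) (by decide))
      (hTT 1 2 (by decide) (by decide)) (hv 0 3 h3) (hv 1 2 (h1.symm.trans h2))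
      (Frame.of_c0 (by decide) (by decide) tok_I7_3)

/-- A copy of I8 in `Z` gives all frames. -/
theorem allFrames_I8 {Z : SimpleGraph V} {κ : V → ZMod 2} (φ : Fin 8 → V)
    (hφ : Function.Injective φ) (h : ∀ x y, I8.Adj x y → Z.Adj (φ x) (φ y))
    (hTT : ∀ i j : Fin 8, i < 4 → j < 4 → ¬ Z.Adj (φ i) (φ j))
    (h1 : κ (φ 0) = κ (φ 1)) (h2 : κ (φ 2) = κ (φ 3)) (h3 : κ (φ 0) + κ (φ 2) = 1) :
    AllFrames Z κ {φ 0, φ 1, φ 2, φ 3} := by
  let κ0 : Fin 8 → ZMod 2 := ![0, 0, 1, 1, 0, 0, 0, 0]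
  have hv : ∀ x y : Fin 8, κ (φ x) + κ (φ y) = κ0 x + κ0 y → vl κ0 x y = vl κ (φ x) (φ y) := by
    intro x y hxy
    unfold vl
    rw [add_assoc, add_assoc, hxy]
  have z1 : κ (φ 0) + κ (φ 1) = κ0 0 + κ0 1 := by
    rw [h1, CharTwo.add_self_eq_zero]; decide
  have z2 : κ (φ 2) + κ (φ 3) = κ0 2 + κ0 3 := by
    rw [h2, CharTwo.add_self_eq_zero]; decide
  have z3 : κ (φ 0) + κ (φ 2) = κ0 0 + κ0 2 := by rw [h3]; decide
  have z4 : κ (φ 1) + κ (φ 3) = κ0 1 + κ0 3 := by rw [← h1, ← h2, h3]; decide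
  have z5 : κ (φ 0) + κ (φ 3) = κ0 0 + κ0 3 := by rw [← h2, h3]; decide
  have z6 : κ (φ 1) + κ (φ 2) = κ0 1 + κ0 2 := by rw [← h1, h3]; decide
  apply AllFrames.of_three
  · exact Frame.of_injective φ hφ h (hTT 0 1 (by decide) (by decide))
      (hTT 2 3 (by decide) (by decide)) (hv 0 1 z1) (hv 2 3 z2)
      (Frame.of_c0 (by decide) (by decide) tok_I8_1)
  · exact Frame.of_injective φ hφ h (hTT 0 2 (by decide) (by decide))
      (hTT 1 3 (by decide) (by decide)) (hv 0 2 z3) (hv 1 3 z4)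
      (Frame.of_c0 (by decide) (by decide) tok_I8_2)
  · exact Frame.of_injective φ hφ h (hTT 0 3 (by decide) (by decide))
      (hTT 1 2 (by decide) (by decide)) (hv 0 3 z5) (hv 1 2 z6)
      (Frame.of_c0 (by decide) (by decide) tok_I8_3)

/-- `K_4` itself. -/
theorem HasTOK4s.of_K4 {G : SimpleGraph V} {c : Sym2 V → ZMod 2} (φ : Fin 4 → V)
    (hφ : Function.Injective φ)
    (h : ∀ i j : Fin 4, i < j → G.Adj (φ i) (φ j) ∧ c s(φ i, φ j) = 1) : HasTOK4s G c := by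
  have hK : HasTOK4s (⊤ : SimpleGraph (Fin 4)) (fun _ => 1) :=
    HasTOK4s.of_lists ![0, 1, 2, 3] (fun i j => [i, j])
      (by decide) (by decide) (by decide)
  refine HasTOK4s.of_injective φ (fun x _ y _ h => hφ h) ?_ hK
  intro i j hij
  have hne : i ≠ j := hij
  rcases lt_or_gt_of_ne hne with h1 | h1
  · exact h i j h1
  · obtain ⟨h2, h3⟩ := h j i h1
    exact ⟨h2.symm, by rw [Sym2.eq_swap]; exact h3⟩

end Pool.Agent.Helper57.TOK
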